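import Pool.Agent.Lib.MP_f11a48_ag.SH.FA.Rels
import Pool.Agent.Lib.MP_f11a48_ag.SH.CLS.Thm

/-!
# MP_f11a48_ag, PROJECT S0: the final theorem
-/

set_option autoImplicit false

namespace Pool.Agent.Lib.MPf11a48.SH

theorem all_clse : SpecCLSE := clsE

theorem target : TARGET := target_clse all_clse

end Pool.Agent.Lib.MPf11a48.SH
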