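import Pool.Agent.Lib.MP_f11a48_ag.SH.FA.Eq2

/-!
# MP_f11a48_ag, PROJECT S0: large number fields (helper4)

`exists_field`: finitely many classes of a set `S₀` of classes over `Qbar` give the same torsor, so there
is a number field `G` such that over each field `K ⊇ G` there is a set of classes with this torsor.
`drb_eq3`: `Ω^dRB_N = MT_N c_N` over these fields `K`.
-/

set_option autoImplicit false

open Matrix MvPolynomial
open Pool.Agent.Lib.MPf11a48.CM hiding OmegaM tw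
open Pool.Agent.Lib.MPf11a48.GL2T
open Pool.Agent.Lib.MPf11a48.U
open Pool.Agent.Lib.MPf11a48.CMS
open Pool.Agent.Lib.MPf11a48.C (IsRep tpi crdT VarT)
open Pool.Agent.Lib.MPf11a48.Tors (OmegaM ClosedOver ClosedC IsTorsor grp GdRBS ent FixesField)

namespace Pool.Agent.Lib.MPf11a48.SH

namespace BigM

variable {ι : Type} [Fintype ι] [DecidableEq ι]

/-- Finitely many classes suffice. -/
theorem exists_finite {L : IntermediateField ℚ ℂ} (S₀ : Set (TPair L ι)) :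
    ∃ S₁ : Set (TPair L ι), S₁ ⊆ S₀ ∧ S₁.Finite ∧ OmegaS S₁ = OmegaS S₀ := by
  classical
  have hcl : ∀ α : TPair L ι, ClosedOver L (OmegaS {α}) := fun α => omegaS_closed {α}
  choose P hP using hcl
  let J : Set (TPair L ι) → Ideal (MvPolynomial (ι × ι) L) := fun s =>
    Ideal.span (⋃ α ∈ s, P α)
  let X : Set (Ideal (MvPolynomial (ι × ι) L)) := {I | ∃ s ⊆ S₀, s.Finite ∧ I = J s}
  obtain ⟨I, ⟨S₁, h1, h2, rfl⟩, hmax⟩ := (wellFounded_gt :
    WellFounded ((· > ·) : Ideal (MvPolynomial (ι × ι) L) → _ → Prop)).has_min X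
      ⟨J ∅, ∅, Set.empty_subset _, Set.finite_empty, rfl⟩
  refine ⟨S₁, h1, h2, Set.Subset.antisymm ?_ fun f hf α hα => hf α (h1 hα)⟩
  intro f hf α hα
  have h3 : J S₁ ≤ J (insert α S₁) :=
    Ideal.span_mono (Set.biUnion_subset_biUnion_left (Set.subset_insert _ _))
  have h4 : J (insert α S₁) = J S₁ := by
    refine le_antisymm ?_ h3
    by_contra h5
    exact hmax (J (insert α S₁)) ⟨_, Set.insert_subset hα h1, h2.insert α, rfl⟩
      (lt_of_le_not_ge h3 h5)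
  -- `f` kills `J S₁`
  have h6 : ∀ p ∈ J S₁, aeval (fun ij : ι × ι => f.1 ij.1 ij.2) p = 0 := by
    intro p hp
    refine Submodule.span_induction (p := fun p _ =>
      aeval (fun ij : ι × ι => f.1 ij.1 ij.2) p = 0) ?_ (map_zero _) ?_ ?_ hp
    · intro q hq
      obtain ⟨β, hβ, hq'⟩ := Set.mem_iUnion₂.1 hq
      have h7 : f ∈ OmegaS {β} := fun γ hγ => by
        rw [Set.mem_singleton_iff.1 hγ]
        exact hf β hβ
      rw [hP β] at h7
      exact h7 q hq'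
    · intro p q _ _ hp hq
      rw [map_add, hp, hq, add_zero]
    · intro a p _ hp
      rw [smul_eq_mul, map_mul, hp, mul_zero]
  have h8 : f ∈ OmegaS {α} := by
    rw [hP α]
    intro q hq
    refine h6 q ?_
    rw [← h4]
    exact Ideal.subset_span (Set.mem_iUnion₂.2 ⟨α, Set.mem_insert _ _, hq⟩)
  exact h8 α rfl

/-- a class with coefficients in `K` -/
def des {K : IntermediateField ℚ ℂ} (α : TPair Qbar ι) (h : ∀ J, ((α.dR J : Qbar) : ℂ) ∈ K) :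
    TPair K ι := ⟨α.n, α.m, fun J => ⟨_, h J⟩, α.B⟩

/-- There is a number field over which the classes are defined. -/
theorem exists_field (S₀ : Set (TPair Qbar ι)) : ∃ G : IntermediateField ℚ ℂ,
    FiniteDimensional ℚ G ∧ ∀ K : IntermediateField ℚ ℂ, G ≤ K →
      ∃ S : Set (TPair K ι), OmegaS S = OmegaS S₀ := by
  classical
  obtain ⟨S₁, -, hfin, hS₁⟩ := exists_finite S₀
  let C : Set ℂ := ⋃ α ∈ S₁, Set.range fun J => ((α.dR J : Qbar) : ℂ)
  have hC : C.Finite := hfin.biUnion fun α _ => Set.finite_range _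
  have hint : ∀ x ∈ C, IsIntegral ℚ x := by
    intro x hx
    obtain ⟨α, -, J, rfl⟩ := Set.mem_iUnion₂.1 hx
    exact mem_algebraicClosure_iff'.1 (α.dR J).2
  refine ⟨IntermediateField.adjoin ℚ C, ?_, fun K hK => ?_⟩
  · have := hC.to_subtype
    exact IntermediateField.finiteDimensional_adjoin hint
  · have hmem : ∀ α ∈ S₁, ∀ J, ((α.dR J : Qbar) : ℂ) ∈ K := fun α hα J =>
      hK (IntermediateField.subset_adjoin ℚ C (Set.mem_iUnion₂.2 ⟨α, hα, J, rfl⟩))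
    refine ⟨{β | ∃ (α : TPair Qbar ι) (hα : α ∈ S₁), β = des α (hmem α hα)}, ?_⟩
    rw [← hS₁]
    ext f
    constructor
    · intro hf α hα
      exact hf _ ⟨α, hα, rfl⟩
    · rintro hf _ ⟨α, hα, rfl⟩
      exact hf α hα

end BigM

namespace Eq3M

open EqM EqGM Eq2M

variable {K : IntermediateField ℚ ℂ} {g N : ℕ} {A : AbData g N} {c : GL (Ix g) ℂ}
  {S₀ : Set (TPair K (Ix g))}

variable (hg : 0 < g) (hψ : A.psi.det ≠ 0) (hS₀ : OmegaS S₀ = {f | ∃ y ∈ MT A c, f = y.1 * c})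

include hg hψ hS₀ in
theorem mem_iff (y : GL (Ix g) ℂ × ℂˣ) : y ∈ MT A c ↔
    y.1 * c ∈ OmegaS S₀ ∧ y.1.1ᵀ * ps A * y.1.1 = (y.2 : ℂ) • ps A := by
  constructor
  · intro hy
    refine ⟨?_, hy.2.1⟩
    rw [hS₀]
    exact ⟨y, hy, rfl⟩
  · rintro ⟨h1, h2⟩
    rw [hS₀] at h1
    obtain ⟨y', hy', e⟩ := h1
    have e1 : y.1 = y'.1 := mul_right_cancel e
    have h3 : y'.1.1ᵀ * ps A * y'.1.1 = (y'.2 : ℂ) • ps A := hy'.2.1
    rw [← e1, h2] at h3
    have e2 : y.2 = y'.2 := Units.ext (smul_inj (ps_ne hg hψ) h3)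
    have e3 : y = y' := Prod.ext e1 e2
    rw [e3]
    exact hy'

end Eq3M

open EqM EqGM Eq2M in
/-- Over the fields `K` over which the classes are defined, `Ω^dRB_N = MT_N c_N`. Here `S₁` is a set
of classes over `Qbar` and `S₀` a set of classes over `K` with the same torsor. -/
theorem drb_eq3 {g N k : ℕ} (hg : 0 < g) {A : AbData g N} {K : IntermediateField ℚ ℂ}
    (hK : K ≤ Qbar) (hA : A.IsAbVar K) {c : GL (Ix g) ℂ}
    (hc : c.1 = A.per) (hGL : GL2Like c.1 A.psi) {S₁ : Set (TPair Qbar (Ix g))}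
    (hS₁ : OmegaS S₁ = {f | ∃ y ∈ MT A c, f = y.1 * c}) {S₀ : Set (TPair K (Ix g))}
    (hS₀ : OmegaS S₀ = {f | ∃ y ∈ MT A c, f = y.1 * c})
    {r : GL (Fin k) ℂ} (hr : ∀ i j, r.1 i j ∈ K) {κ ι : Type} [Fintype κ] [DecidableEq κ]
    [Fintype ι] [DecidableEq ι] {T : GL (Ix g ⊕ Fin k) ℂ × ℂˣ → GL κ ℂ} (hT : IsRep T)
    {n : GL ι ℂ} {iB : Matrix κ ι ℚ} (hn : IsSubOver K (T (dsum c r, tpi)) n iB)
    (hstab : ∀ y ∈ MT A c, ∃ f : GL ι ℂ, (T (dsum y.1 1, y.2)).1 * iB.map (fun x => (x : ℂ)) =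
      iB.map (fun x => (x : ℂ)) * f.1)
    (hsub : ∀ f ∈ MTSub A c T iB, f * n ∈ OmegaDRB K n) :
    OmegaDRB K n = {h | ∃ f ∈ MTSub A c T iB, h = f * n} := by
  obtain ⟨ψdR, hpol⟩ := U.specLEG K g N A c hK hA hc
  have hcS : c ∈ OmegaS S₀ := by
    rw [hS₀]
    exact ⟨_, one_mem_MT hK hA hc hGL, (one_mul c).symm⟩
  have hcS₁ : c ∈ OmegaS S₁ := by
    rw [hS₁]
    exact ⟨_, one_mem_MT hK hA hc hGL, (one_mul c).symm⟩
  obtain ⟨SW, hSW⟩ := MT_closed hg hpol.1 hS₁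
  have hm : ∀ τ : ℂ ≃+* ℂ, FixesField K τ → tw2 τ (c, tpi) * (c, tpi)⁻¹ ∈ MT A c := by
    intro τ hτ
    rw [Eq3M.mem_iff hg hpol.1 hS₀]
    constructor
    · change Tors.tw τ c * c⁻¹ * c ∈ OmegaS S₀
      rw [inv_mul_cancel_right]
      have hcl : ClosedOver K (OmegaS S₀) := omegaS_closed S₀
      exact hcl.tw_mem hτ hcS
    · exact sim_tw hpol hτ
  refine Set.Subset.antisymm (fun h hh => ?_) ?_
  · obtain ⟨f, ⟨y, hy, hf⟩, e⟩ := EqGM.eqg (W := MTS2 hg hpol.1 hS₁ hcS₁) hSW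
      (fun τ y hy => MT_tw2 hg hpol.1 hS₁ hcS₁ τ hy) (EqGM.isRep_inc hT) hm
      (EqGM.isSub_inc hT hr hn) hstab hh
    exact ⟨f, ⟨y, hy, hf⟩, e⟩
  · rintro _ ⟨f, hf, rfl⟩
    exact hsub f hf

end Pool.Agent.Lib.MPf11a48.SH
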