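import Pool.Agent.Lib.MP_f11a48_ag.helper4.Act

/-!
# The image of an algebraic group is closed (helper4)

`isClosed_of_constructible`: a constructible subgroup is closed. `chev`: Chevalley's theorem in
coordinates (from Mathlib). `closedC_image`: a subgroup of `GL_ι(ℂ)` which is the image of an affine
variety under a polynomial map is closed.
-/

set_option autoImplicit false

open MvPolynomial Topology
open Pool.Agent.Lib.MPf11a48.Tors

namespace Pool.Agent.Lib.MPf11a48.SH

namespace ZarM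

section top

variable {G : Type} [Group G] [TopologicalSpace G]

/-- A subgroup of a group with a topology in which translations and the inversion are continuous
which is a finite union of locally closed sets is closed. -/
theorem isClosed_of_constructible (hl : ∀ a : G, Continuous fun x : G => a * x)
    (hr : ∀ a : G, Continuous fun x : G => x * a) (hi : Continuous fun x : G => x⁻¹)
    (H : Subgroup G) {A : Type} [Fintype A] (Z U : A → Set G) (hZ : ∀ k, IsClosed (Z k))
    (hU : ∀ k, IsOpen (U k)) (hH : (H : Set G) = ⋃ k, Z k ∩ U k) : IsClosed (H : Set G) := by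
  classical
  have hcl : closure (H : Set G) = ⋃ k, closure (Z k ∩ U k) := by
    rw [hH, closure_iUnion_of_finite]
  -- a minimal covering
  obtain ⟨s, hs, hmin⟩ := (wellFounded_lt (α := Finset A)).has_min
    {s : Finset A | closure (H : Set G) ⊆ ⋃ k ∈ s, closure (Z k ∩ U k)} ⟨Finset.univ, by
      rw [Set.mem_setOf_eq, hcl]
      intro x hx
      obtain ⟨k, hk⟩ := Set.mem_iUnion.1 hx
      exact Set.mem_biUnion (Finset.mem_univ k) hk⟩
  have h1 : (1 : G) ∈ closure (H : Set G) := subset_closure H.one_mem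
  obtain ⟨k, hk, -⟩ := Set.mem_iUnion₂.1 (hs h1)
  have hnot : ¬ closure (H : Set G) ⊆ ⋃ j ∈ s.erase k, closure (Z j ∩ U j) := fun h =>
    hmin _ h (Finset.erase_ssubset hk)
  rw [Set.not_subset] at hnot
  obtain ⟨x, hx, hx'⟩ := hnot
  set F : Set G := ⋃ j ∈ s.erase k, closure (Z j ∩ U j) with hF
  have hFc : IsClosed F := (s.erase k).finite_toSet.isClosed_biUnion fun j _ => isClosed_closure
  have hcov : ∀ y ∈ closure (H : Set G), y ∉ F → y ∈ closure (Z k ∩ U k) := by
    intro y hy hyF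
    obtain ⟨j, hj, hyj⟩ := Set.mem_iUnion₂.1 (hs hy)
    by_cases e : j = k
    · rwa [← e]
    · exact absurd (Set.mem_biUnion (Finset.mem_erase.2 ⟨e, hj⟩) hyj) hyF
  obtain ⟨h₀, hh₁, hh₂⟩ := mem_closure_iff.1 (hcov x hx hx') Fᶜ hFc.isOpen_compl hx'
  set O : Set G := Fᶜ ∩ U k with hO
  have hOo : IsOpen O := hFc.isOpen_compl.inter (hU k)
  have hOH : ∀ y ∈ O, y ∈ closure (H : Set G) → y ∈ H := by
    intro y hy hy'
    have h2 : y ∈ Z k := by
      have h3 := hcov y hy' hy.1
      exact (hZ k).closure_subset_iff.2 Set.inter_subset_left h3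
    have h4 : y ∈ (H : Set G) := by
      rw [hH]
      exact Set.mem_iUnion.2 ⟨k, h2, hy.2⟩
    exact h4
  have hh₀ : h₀ ∈ H := by
    have h4 : h₀ ∈ (H : Set G) := by
      rw [hH]
      exact Set.mem_iUnion.2 ⟨k, hh₂⟩
    exact h4
  have hh₀O : h₀ ∈ O := ⟨hh₁, hh₂.2⟩
  -- the closure is stable under the inverse and right translations
  have hinv : ∀ y ∈ closure (H : Set G), y⁻¹ ∈ closure (H : Set G) := by
    intro y hy
    have h5 := image_closure_subset_closure_image hi (Set.mem_image_of_mem _ hy)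
    refine closure_mono ?_ h5
    rintro _ ⟨z, hz, rfl⟩
    exact H.inv_mem hz
  have hmul : ∀ y ∈ closure (H : Set G), ∀ h ∈ H, y * h ∈ closure (H : Set G) := by
    intro y hy h hh
    have h5 := image_closure_subset_closure_image (hr h) (Set.mem_image_of_mem _ hy)
    refine closure_mono ?_ h5
    rintro _ ⟨z, hz, rfl⟩
    exact H.mul_mem hz hh
  refine isClosed_of_closure_subset fun y hy => ?_
  have hV : IsOpen ((fun z => y⁻¹ * z * h₀) ⁻¹' O) :=
    ((hr h₀).comp (hl y⁻¹)).isOpen_preimage O hOo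
  obtain ⟨h, hh1, hh2⟩ := mem_closure_iff.1 hy _ hV (by
    change y⁻¹ * y * h₀ ∈ O
    rwa [inv_mul_cancel, one_mul])
  have h6 : y⁻¹ * h * h₀ ∈ H := by
    refine hOH _ hh1 ?_
    rw [mul_assoc]
    exact hmul _ (hinv y hy) _ (H.mul_mem hh2 hh₀)
  have h7 : y⁻¹ ∈ H := by
    have h8 := H.mul_mem (H.mul_mem h6 (H.inv_mem hh₀)) (H.inv_mem hh2)
    have e : y⁻¹ * h * h₀ * h₀⁻¹ * h⁻¹ = y⁻¹ := by group
    rwa [e] at h8
  exact inv_mem_iff.1 h7

end top

/-! ### The Zariski topology on `GL_ι(ℂ)` -/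

section zar

variable {ι : Type} [Fintype ι] [DecidableEq ι]

theorem closedC_empty : ClosedC (∅ : Set (GL ι ℂ)) := by
  refine ⟨{1}, ?_⟩
  ext g
  simp

theorem closedC_sInter (X : Set (Set (GL ι ℂ))) (h : ∀ T ∈ X, ClosedC T) : ClosedC (⋂₀ X) := by
  rw [Set.sInter_eq_iInter]
  exact closedC_iInter fun T => h T.1 T.2

theorem closedC_union {T T' : Set (GL ι ℂ)} (h : ClosedC T) (h' : ClosedC T') :
    ClosedC (T ∪ T') := by
  obtain ⟨S, rfl⟩ := h
  obtain ⟨S', rfl⟩ := h'
  refine ⟨{r | ∃ p ∈ S, ∃ q ∈ S', r = p * q}, ?_⟩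
  ext g
  constructor
  · rintro (hg | hg) _ ⟨p, hp, q, hq, rfl⟩
    · rw [map_mul, hg p hp, zero_mul]
    · rw [map_mul, hg q hq, mul_zero]
  · intro hg
    by_contra hc
    rw [Set.mem_union, not_or] at hc
    obtain ⟨h1, h2⟩ := hc
    simp only [Set.mem_setOf_eq, not_forall] at h1 h2
    obtain ⟨p, hp, h3⟩ := h1
    obtain ⟨q, hq, h4⟩ := h2
    have h5 := hg (p * q) ⟨p, hp, q, hq, rfl⟩
    rw [map_mul] at h5
    exact (mul_ne_zero h3 h4) h5

/-- `GL_ι(ℂ)` with the Zariski topology -/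
def ZG (ι : Type) [Fintype ι] [DecidableEq ι] : Type := GL ι ℂ

noncomputable instance : Group (ZG ι) := inferInstanceAs (Group (GL ι ℂ))

instance : TopologicalSpace (ZG ι) := TopologicalSpace.ofClosed {T : Set (GL ι ℂ) | ClosedC T}
  closedC_empty (fun X hX => closedC_sInter X fun T hT => hX hT)
  (fun _ h _ h' => closedC_union h h')

theorem isClosed_iff {T : Set (ZG ι)} : IsClosed T ↔ ClosedC (ι := ι) T := by
  rw [← isOpen_compl_iff]
  change ClosedC (ι := ι) (Tᶜᶜ) ↔ _
  rw [compl_compl]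

theorem mul_left_closed {T : Set (GL ι ℂ)} (h : ClosedC T) (c : GL ι ℂ) :
    ClosedC {g : GL ι ℂ | c * g ∈ T} := by
  obtain ⟨S, rfl⟩ := h
  refine ⟨(fun p => aeval (fun ij : ι × ι => ∑ k, C (c.1 ij.1 k) * X (k, ij.2)) p) '' S, ?_⟩
  ext g
  simp only [Set.mem_ofPred_eq, Set.forall_mem_image]
  refine forall₂_congr fun p _ => ?_
  have : aeval (ent (c * g)) p =
      aeval (ent g) (aeval (fun ij : ι × ι => ∑ k, C (c.1 ij.1 k) * X (k, ij.2)) p :
        MvPolynomial (ι × ι) ℂ) := by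
    rw [← AlgHom.comp_apply]
    congr 1
    ext ij
    simp [ent, Matrix.mul_apply]
  rw [this]

theorem inv_closed {T : Set (GL ι ℂ)} (h : ClosedC T) : ClosedC {g : GL ι ℂ | g⁻¹ ∈ T} := by
  obtain ⟨S, rfl⟩ := h
  choose M q hq using fun p : MvPolynomial (ι × ι) ℂ =>
    clear_inverse (ι := ι) (rename Sum.inr p : MvPolynomial ((ι × ι) ⊕ (ι × ι)) ℂ)
  refine ⟨q '' S, ?_⟩
  ext g
  simp only [Set.mem_ofPred_eq, Set.forall_mem_image]
  refine forall₂_congr fun p _ => ?_
  have hu : g.1.det ≠ 0 := ((Matrix.isUnit_iff_isUnit_det _).1 g.isUnit).ne_zero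
  rw [hq, aeval_rename]
  have e : (Sum.elim (ent g) (ent g⁻¹)) ∘ Sum.inr = ent g⁻¹ := Sum.elim_comp_inr _ _
  rw [e]
  simp [hu]

theorem cont_l (a : ZG ι) : Continuous fun x : ZG ι => a * x :=
  continuous_iff_isClosed.2 fun T hT => isClosed_iff.2 (mul_left_closed (isClosed_iff.1 hT) a)

theorem cont_r (a : ZG ι) : Continuous fun x : ZG ι => x * a :=
  continuous_iff_isClosed.2 fun T hT => isClosed_iff.2 ((isClosed_iff.1 hT).mul_right a)

theorem cont_i : Continuous fun x : ZG ι => x⁻¹ :=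
  continuous_iff_isClosed.2 fun T hT => isClosed_iff.2 (inv_closed (isClosed_iff.1 hT))

end zar

/-! ### Chevalley's theorem -/

section chev

/-- the point of the spectrum -/
noncomputable def pt {J : Type} (x : J → ℂ) : PrimeSpectrum (MvPolynomial J ℂ) :=
  ⟨RingHom.ker (aeval (R := ℂ) x), RingHom.ker_isPrime _⟩

theorem mem_pt {J : Type} (x : J → ℂ) (p : MvPolynomial J ℂ) :
    p ∈ (pt x).asIdeal ↔ aeval x p = 0 := Iff.rfl

theorem pt_max {J : Type} (x : J → ℂ) {I : Ideal (MvPolynomial J ℂ)} (h : (pt x).asIdeal ≤ I)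
    (hI : I ≠ ⊤) : I = (pt x).asIdeal := by
  refine le_antisymm (fun p hp => ?_) h
  rw [mem_pt]
  by_contra hc
  apply hI
  rw [Ideal.eq_top_iff_one]
  have h1 : p - C (aeval x p) ∈ I := h (by rw [mem_pt, map_sub, aeval_C]; simp)
  have h2 : C (aeval x p) ∈ I := by
    have h3 := I.sub_mem hp h1
    rwa [sub_sub_cancel] at h3
  have h4 := I.mul_mem_left (C (aeval x p)⁻¹) h2
  rwa [← C_mul, inv_mul_cancel₀ hc, C_1] at h4

theorem chev {V J : Type} [Finite V] [Finite J] (W : Set (MvPolynomial V ℂ))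
    (P : J → MvPolynomial V ℂ) :
    ∃ (A : Type) (_ : Fintype A) (g : A → Set (MvPolynomial J ℂ)) (f : A → MvPolynomial J ℂ),
      ∀ x : J → ℂ, (∃ w : V → ℂ, (∀ p ∈ W, aeval w p = 0) ∧ ∀ j, aeval w (P j) = x j) ↔
        ∃ k, (∀ q ∈ g k, aeval x q = 0) ∧ aeval x (f k) ≠ 0 := by
  classical
  let S := MvPolynomial V ℂ ⧸ Ideal.span W
  let π : MvPolynomial V ℂ →+* S := Ideal.Quotient.mk _
  let φ : MvPolynomial J ℂ →+* S := π.comp (aeval (R := ℂ) P : MvPolynomial J ℂ →ₐ[ℂ] _).toRingHom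
  have hφX : ∀ j, φ (X j) = π (P j) := fun j => congrArg π (aeval_X _ _)
  have hφC : ∀ a, φ (C a) = π (C a) := fun a => congrArg π (aeval_C _ _)
  have hft : φ.FiniteType := by
    have h1 : (φ.comp (C : ℂ →+* MvPolynomial J ℂ)).FiniteType := by
      have e : φ.comp (C : ℂ →+* MvPolynomial J ℂ) = π.comp (C : ℂ →+* MvPolynomial V ℂ) :=
        RingHom.ext hφC
      rw [e]
      have h2 : (C : ℂ →+* MvPolynomial V ℂ).FiniteType := by
        rw [← MvPolynomial.algebraMap_eq, RingHom.finiteType_algebraMap]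
        infer_instance
      exact (RingHom.FiniteType.of_surjective π Ideal.Quotient.mk_surjective).comp h2
    exact RingHom.FiniteType.of_comp_finiteType h1
  have hfp : φ.FinitePresentation := RingHom.FinitePresentation.of_finiteType.1 hft
  obtain ⟨D, hD⟩ := PrimeSpectrum.exists_constructibleSetData_iff.2
    (PrimeSpectrum.isConstructible_range_comap hfp)
  refine ⟨D, inferInstance, fun k => Set.range k.1.g, fun k => k.1.f, fun x => ?_⟩
  have key : (∃ k : D, (∀ q ∈ Set.range k.1.g, aeval x q = 0) ∧ aeval x k.1.f ≠ 0) ↔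
      pt x ∈ Set.range (PrimeSpectrum.comap φ) := by
    rw [← hD]
    unfold PrimeSpectrum.ConstructibleSetData.toSet PrimeSpectrum.BasicConstructibleSetData.toSet
    rw [Set.mem_iUnion₂]
    constructor
    · rintro ⟨k, h1, h2⟩
      refine ⟨k.1, k.2, fun q hq => h1 q hq, fun h => h2 ?_⟩
      exact h (Set.mem_singleton _)
    · rintro ⟨k, hk, h1, h2⟩
      refine ⟨⟨k, hk⟩, fun q hq => h1 hq, fun h => h2 ?_⟩
      intro q hq
      rw [Set.mem_singleton_iff.1 hq]
      exact h
  rw [key]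
  constructor
  · rintro ⟨w, hw, hwx⟩
    -- the point `w` of `S`
    have hker : ∀ a ∈ Ideal.span W, (aeval (R := ℂ) w).toRingHom a = 0 := by
      intro a ha
      have h1 : Ideal.span W ≤ RingHom.ker (aeval (R := ℂ) w).toRingHom :=
        Ideal.span_le.2 fun p hp => hw p hp
      exact h1 ha
    let ev : S →+* ℂ := Ideal.Quotient.lift _ (aeval (R := ℂ) w).toRingHom hker
    refine ⟨⟨RingHom.ker ev, RingHom.ker_isPrime ev⟩, ?_⟩
    apply PrimeSpectrum.ext
    have hle : (pt x).asIdeal ≤ (PrimeSpectrum.comap φ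
        ⟨RingHom.ker ev, RingHom.ker_isPrime ev⟩).asIdeal := by
      intro p hp
      change ev (φ p) = 0
      have h1 : ev.comp φ = (aeval (R := ℂ) x).toRingHom := by
        apply MvPolynomial.ringHom_ext
        · intro a
          change ev (φ (C a)) = aeval x (C a)
          rw [hφC, aeval_C]
          change aeval w (C a) = _
          rw [aeval_C]
        · intro j
          change ev (φ (X j)) = aeval x (X j)
          rw [hφX, aeval_X]
          exact hwx j
      have h2 := congrArg (fun F => F p) h1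
      exact h2.trans hp
    exact pt_max x hle (PrimeSpectrum.comap φ ⟨_, RingHom.ker_isPrime ev⟩).2.ne_top
  · rintro ⟨q, hq⟩
    obtain ⟨m, hm, hqm⟩ := Ideal.exists_le_maximal q.asIdeal q.2.ne_top
    have hm' : (Ideal.comap π m).IsMaximal :=
      Ideal.comap_isMaximal_of_surjective π Ideal.Quotient.mk_surjective
    obtain ⟨w, hw⟩ := (isMaximal_iff_eq_vanishingIdeal_singleton (K := ℂ)).1 hm'
    have hmem : ∀ p, π p ∈ m ↔ aeval w p = 0 := by
      intro p
      rw [← Ideal.mem_comap, hw, mem_vanishingIdeal_singleton_iff]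
    refine ⟨w, fun p hp => ?_, fun j => ?_⟩
    · rw [← hmem]
      have : π p = 0 := Ideal.Quotient.eq_zero_iff_mem.2 (Ideal.subset_span hp)
      rw [this]
      exact m.zero_mem
    · have h1 : X j - C (x j) ∈ (pt x).asIdeal := by
        rw [mem_pt, map_sub, aeval_X, aeval_C]
        simp
      rw [← hq] at h1
      have h2 : φ (X j - C (x j)) ∈ m := hqm h1
      rw [map_sub, hφX, hφC, ← map_sub, hmem, map_sub, aeval_C] at h2
      exact sub_eq_zero.1 h2

end chev

/-- A subgroup of `GL_ι(ℂ)` which is the image of an affine variety under a polynomial map is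
closed. -/
theorem closedC_image {ι : Type} [Fintype ι] [DecidableEq ι] (H : Subgroup (GL ι ℂ)) {V : Type}
    [Finite V] (W : Set (MvPolynomial V ℂ)) (P : ι × ι → MvPolynomial V ℂ)
    (hH : ∀ f : GL ι ℂ, f ∈ H ↔ ∃ w : V → ℂ, (∀ p ∈ W, aeval w p = 0) ∧
      ∀ ij, aeval w (P ij) = ent f ij) : ClosedC (H : Set (GL ι ℂ)) := by
  obtain ⟨A, _, g, f, h⟩ := chev W P
  let H' : Subgroup (ZG ι) := H
  have hcl : IsClosed (H' : Set (ZG ι)) := by
    refine isClosed_of_constructible cont_l cont_r cont_i H'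
      (fun k => {x : GL ι ℂ | ∀ q ∈ g k, aeval (ent x) q = 0})
      (fun k => {x : GL ι ℂ | aeval (ent x) (f k) = 0}ᶜ) (fun k => ?_) (fun k => ?_) ?_
    · exact isClosed_iff.2 ⟨g k, rfl⟩
    · rw [isOpen_compl_iff, isClosed_iff]
      refine ⟨{f k}, Set.ext fun x => ⟨fun hx q hq => ?_, fun hx => hx _ (Set.mem_singleton _)⟩⟩
      rw [Set.mem_singleton_iff.1 hq]
      exact hx
    · ext x
      rw [Set.mem_iUnion]
      exact (hH x).trans (h (ent x))
  exact isClosed_iff.1 hcl

end ZarM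

end Pool.Agent.Lib.MPf11a48.SH
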