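import Pool.Agent.Lib.MP_f11a48_ag.SH.FA.EqSpec
import Pool.Agent.Lib.MP_f11a48_ag.SH.FA.Zar
import Pool.Agent.Lib.MP_f11a48_ag.SH.RED.Per

/-!
# MP_f11a48_ag, PROJECT S0: over `Qbar` the torsor `Ω^dRB_N` is `MT_N c_N` (helper4)
-/

set_option autoImplicit false

open Matrix MvPolynomial
open Pool.Agent.Lib.MPf11a48.CM hiding OmegaM tw
open Pool.Agent.Lib.MPf11a48.GL2T
open Pool.Agent.Lib.MPf11a48.U
open Pool.Agent.Lib.MPf11a48.CMS
open Pool.Agent.Lib.MPf11a48.C (IsRep tpi crdT VarT)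
open Pool.Agent.Lib.MPf11a48.Tors (OmegaM ClosedOver ClosedC IsTorsor grp GdRBS ent FixesField)

namespace Pool.Agent.Lib.MPf11a48.SH

namespace EqM

/-! ### Automorphisms of `ℂ` and representations -/

section tw

variable {μ κ : Type} [Fintype μ] [DecidableEq μ] [Fintype κ] [DecidableEq κ]

/-- the action on `GL × G_m` -/
noncomputable def tw2 (τ : ℂ ≃+* ℂ) (y : GL μ ℂ × ℂˣ) : GL μ ℂ × ℂˣ :=
  (Tors.tw τ y.1, Units.map ((τ : ℂ →+* ℂ) : ℂ →* ℂ) y.2)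

theorem crdT_tw (τ : ℂ ≃+* ℂ) (y : GL μ ℂ × ℂˣ) : crdT (tw2 τ y) = fun e => τ (crdT y e) := by
  funext e
  rcases e with (e | e) | (e | e)
  · rfl
  · change (Tors.tw τ y.1)⁻¹.1 e.1 e.2 = τ (y.1⁻¹.1 e.1 e.2)
    rw [← map_inv]
    rfl
  · rfl
  · change (τ (y.2 : ℂ))⁻¹ = τ ((y.2 : ℂ)⁻¹)
    rw [map_inv₀]

theorem aeval_tw {V : Type} (τ : ℂ ≃+* ℂ) (v : V → ℂ) (p : MvPolynomial V ℚ) :
    τ (aeval v p) = aeval (fun e => τ (v e)) p := by
  induction p using MvPolynomial.induction_on with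
  | C a => simp
  | add p q hp hq => rw [map_add, map_add, map_add, hp, hq]
  | mul_X p i hp => rw [map_mul, map_mul, map_mul, hp, aeval_X, aeval_X]

theorem T_tw {T : GL μ ℂ × ℂˣ → GL κ ℂ} (hT : IsRep T) (τ : ℂ ≃+* ℂ) (y : GL μ ℂ × ℂˣ) :
    Tors.tw τ (T y) = T (tw2 τ y) := by
  apply Units.ext
  ext i j
  obtain ⟨p, hp⟩ := hT.regular i j
  change τ ((T y).1 i j) = _
  rw [hp, hp, aeval_tw, crdT_tw]

end tw

variable {g N k : ℕ}

theorem dsum_mul' (x x' : GL (Ix g) ℂ) (r r' : GL (Fin k) ℂ) :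
    dsum (x * x') (r * r') = dsum x r * dsum x' r' := by
  apply Units.ext
  change Matrix.fromBlocks (x.1 * x'.1) 0 0 (r.1 * r'.1) =
    Matrix.fromBlocks x.1 0 0 r.1 * Matrix.fromBlocks x'.1 0 0 r'.1
  rw [Matrix.fromBlocks_multiply]
  simp only [Matrix.mul_zero, Matrix.zero_mul, add_zero, zero_add]

theorem dsum_one' : dsum (1 : GL (Ix g) ℂ) (1 : GL (Fin k) ℂ) = 1 := by
  apply Units.ext
  exact Matrix.fromBlocks_one

theorem tw_dsum (τ : ℂ ≃+* ℂ) (x : GL (Ix g) ℂ) (r : GL (Fin k) ℂ) :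
    Tors.tw τ (dsum x r) = dsum (Tors.tw τ x) (Tors.tw τ r) := by
  apply Units.ext
  ext i j
  rcases i with i | i <;> rcases j with j | j
  all_goals first
    | rfl
    | exact map_zero τ

/-- the homomorphism `(x, z) ↦ (x ⊕ 1, z)` -/
noncomputable def inc1 (k : ℕ) : GL (Ix g) ℂ × ℂˣ →* GL (Ix g ⊕ Fin k) ℂ × ℂˣ where
  toFun y := (dsum y.1 1, y.2)
  map_one' := Prod.ext dsum_one' rfl
  map_mul' x y := by
    refine Prod.ext ?_ rfl
    change dsum (x.1 * y.1) 1 = dsum x.1 1 * dsum y.1 1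
    rw [← dsum_mul', one_mul]

theorem inc1_tw (τ : ℂ ≃+* ℂ) (y : GL (Ix g) ℂ × ℂˣ) : tw2 τ (inc1 k y) = inc1 k (tw2 τ y) := by
  refine Prod.ext ?_ rfl
  change Tors.tw τ (dsum y.1 1) = dsum (Tors.tw τ y.1) 1
  rw [tw_dsum, map_one]

/-! ### The group `MT` -/

section MT

variable {A : AbData g N} {c : GL (Ix g) ℂ}

/-- the complex matrix of the polarisation -/
noncomputable def ps (A : AbData g N) : Matrix (Ix g) (Ix g) ℂ := A.psi.map (fun x => (x : ℂ))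

theorem ps_ne (hg : 0 < g) (h : A.psi.det ≠ 0) : ps A ≠ 0 := by
  intro h0
  have : Nonempty (Ix g) := ⟨Sum.inl ⟨0, hg⟩⟩
  apply h
  have h1 : (ps A).det = 0 := by rw [h0, Matrix.det_zero]
  have h2 : ps A = A.psi.map (algebraMap ℚ ℂ) := by
    ext i j
    simp [ps]
  rw [h2, ← RingHom.mapMatrix_apply, ← RingHom.map_det] at h1
  exact (map_eq_zero (algebraMap ℚ ℂ)).1 h1

theorem smul_inj {ι : Type} {X : Matrix ι ι ℂ} (h : X ≠ 0) {a b : ℂ} (e : a • X = b • X) :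
    a = b := by
  have h1 : (a - b) • X = 0 := by rw [sub_smul, e, sub_self]
  exact sub_eq_zero.1 ((smul_eq_zero.1 h1).resolve_right h)

variable (hg : 0 < g) (hψ : A.psi.det ≠ 0)
  (hM : OmegaDRB Qbar c = {f | ∃ y ∈ MT A c, f = y.1 * c})

include hg hψ hM in
theorem mem_MT_iff (y : GL (Ix g) ℂ × ℂˣ) : y ∈ MT A c ↔
    y.1 ∈ GdRBS Qbar c ∧ y.1.1ᵀ * ps A * y.1.1 = (y.2 : ℂ) • ps A := by
  have key : ∀ x : GL (Ix g) ℂ, x ∈ GdRBS Qbar c ↔ x * c ∈ OmegaDRB Qbar c := by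
    intro x
    rw [Tors.mem_OmegaDRB_iff, mul_inv_cancel_right]
    exact Tors.mem_GdRBS
  constructor
  · intro hy
    refine ⟨?_, hy.2.1⟩
    rw [key, hM]
    exact ⟨y, hy, rfl⟩
  · rintro ⟨h1, h2⟩
    rw [key, hM] at h1
    obtain ⟨y', hy', e⟩ := h1
    have e1 : y.1 = y'.1 := mul_right_cancel e
    have h3 : y'.1.1ᵀ * ps A * y'.1.1 = (y'.2 : ℂ) • ps A := hy'.2.1
    rw [← e1, h2] at h3
    have e2 : y.2 = y'.2 := Units.ext (smul_inj (ps_ne hg hψ) h3)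
    have e3 : y = y' := Prod.ext e1 e2
    rw [e3]
    exact hy'

/-- `MT` as a subgroup -/
noncomputable def MTS (hg : 0 < g) (hψ : A.psi.det ≠ 0)
    (hM : OmegaDRB Qbar c = {f | ∃ y ∈ MT A c, f = y.1 * c}) :
    Subgroup (GL (Ix g) ℂ × ℂˣ) where
  carrier := MT A c
  one_mem' := by
    rw [mem_MT_iff hg hψ hM]
    refine ⟨(GdRBS Qbar c).one_mem, ?_⟩
    change (1 : Matrix (Ix g) (Ix g) ℂ)ᵀ * ps A * 1 = (1 : ℂ) • ps A
    rw [Matrix.transpose_one, Matrix.one_mul, Matrix.mul_one, one_smul]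
  mul_mem' := by
    intro x y hx hy
    rw [mem_MT_iff hg hψ hM] at hx hy ⊢
    refine ⟨(GdRBS Qbar c).mul_mem hx.1 hy.1, ?_⟩
    change (x.1.1 * y.1.1)ᵀ * ps A * (x.1.1 * y.1.1) = ((x.2 : ℂ) * (y.2 : ℂ)) • ps A
    calc (x.1.1 * y.1.1)ᵀ * ps A * (x.1.1 * y.1.1)
        = y.1.1ᵀ * (x.1.1ᵀ * ps A * x.1.1) * y.1.1 := by
          rw [Matrix.transpose_mul]
          simp only [Matrix.mul_assoc]
      _ = (x.2 : ℂ) • (y.1.1ᵀ * ps A * y.1.1) := by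
          rw [hx.2, Matrix.mul_smul, Matrix.smul_mul]
      _ = _ := by rw [hy.2, smul_smul]
  inv_mem' := by
    intro x hx
    rw [mem_MT_iff hg hψ hM] at hx ⊢
    refine ⟨(GdRBS Qbar c).inv_mem hx.1, ?_⟩
    have hxx : x.1.1 * x.1⁻¹.1 = 1 := x.1.mul_inv
    have hxx' : x.1⁻¹.1ᵀ * x.1.1ᵀ = 1 := by
      rw [← Matrix.transpose_mul, hxx, Matrix.transpose_one]
    change x.1⁻¹.1ᵀ * ps A * x.1⁻¹.1 = ((x.2⁻¹ : ℂˣ) : ℂ) • ps A
    have h1 : ps A = ((x.2⁻¹ : ℂˣ) : ℂ) • (x.1.1ᵀ * ps A * x.1.1) := by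
      rw [hx.2, smul_smul, Units.inv_mul, one_smul]
    calc x.1⁻¹.1ᵀ * ps A * x.1⁻¹.1
        = x.1⁻¹.1ᵀ * (((x.2⁻¹ : ℂˣ) : ℂ) • (x.1.1ᵀ * ps A * x.1.1)) * x.1⁻¹.1 := by rw [← h1]
      _ = ((x.2⁻¹ : ℂˣ) : ℂ) • ((x.1⁻¹.1ᵀ * x.1.1ᵀ) * ps A * (x.1.1 * x.1⁻¹.1)) := by
          rw [Matrix.mul_smul, Matrix.smul_mul]
          simp only [Matrix.mul_assoc]
      _ = _ := by rw [hxx', hxx, Matrix.one_mul, Matrix.mul_one]

theorem ps_tw (τ : ℂ ≃+* ℂ) : (ps A).map τ = ps A := by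
  ext i j
  simp [ps]

include hg hψ hM in
theorem MT_tw (τ : ℂ ≃+* ℂ) {y : GL (Ix g) ℂ × ℂˣ} (hy : y ∈ MT A c) : tw2 τ y ∈ MT A c := by
  rw [mem_MT_iff hg hψ hM] at hy ⊢
  refine ⟨Tors.GdRB_tw τ hy.1, ?_⟩
  have h1 := congrArg (fun X : Matrix (Ix g) (Ix g) ℂ => X.map (τ : ℂ →+* ℂ)) hy.2
  beta_reduce at h1
  rw [Matrix.map_mul, Matrix.map_mul] at h1
  have h2 : (ps A).map (τ : ℂ →+* ℂ) = ps A := ps_tw τ
  have h3 : (y.1.1ᵀ).map (τ : ℂ →+* ℂ) = (Tors.tw τ y.1).1ᵀ := rfl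
  have h4 : y.1.1.map (τ : ℂ →+* ℂ) = (Tors.tw τ y.1).1 := rfl
  have h5 : ((y.2 : ℂ) • ps A).map (τ : ℂ →+* ℂ) = τ (y.2 : ℂ) • ps A := by
    ext i j
    have h6 := congrFun (congrFun h2 i) j
    simp only [Matrix.map_apply, Matrix.smul_apply, smul_eq_mul, map_mul] at h6 ⊢
    rw [h6]
    rfl
  rw [h2, h3, h4, h5] at h1
  exact h1

/-! ### The group of the sub-object -/

variable {κ ι : Type} [Fintype κ] [DecidableEq κ] [Fintype ι] [DecidableEq ι]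
  {T : GL (Ix g ⊕ Fin k) ℂ × ℂˣ → GL κ ℂ} (hT : IsRep T) {iB : Matrix κ ι ℚ}

include hT in
theorem T_one : T 1 = 1 := by
  have h := hT.mul 1 1
  rw [mul_one] at h
  exact (mul_eq_left.1 h.symm)

include hT in
theorem T_inv (x : GL (Ix g ⊕ Fin k) ℂ × ℂˣ) : T x⁻¹ = (T x)⁻¹ := by
  rw [eq_inv_iff_mul_eq_one, ← hT.mul, inv_mul_cancel, T_one hT]

/-- the group of the sub-object -/
noncomputable def HS (hg : 0 < g) (hψ : A.psi.det ≠ 0)
    (hM : OmegaDRB Qbar c = {f | ∃ y ∈ MT A c, f = y.1 * c}) (hT : IsRep T) (iB : Matrix κ ι ℚ) :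
    Subgroup (GL ι ℂ) where
  carrier := MTSub A c T iB
  one_mem' := by
    refine ⟨1, (MTS hg hψ hM).one_mem, ?_⟩
    have h1 : ((dsum (1 : GL (Ix g) ℂ) 1, 1) : GL (Ix g ⊕ Fin k) ℂ × ℂˣ) = 1 :=
      map_one (inc1 k)
    change (T (dsum (1 : GL (Ix g) ℂ) 1, 1)).1 * iB.map (fun x => (x : ℂ)) =
      iB.map (fun x => (x : ℂ)) * (1 : Matrix ι ι ℂ)
    rw [h1, T_one hT]
    change (1 : Matrix κ κ ℂ) * iB.map (fun x => (x : ℂ)) =
      iB.map (fun x => (x : ℂ)) * (1 : Matrix ι ι ℂ)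
    rw [Matrix.one_mul, Matrix.mul_one]
  mul_mem' := by
    rintro f f' ⟨y, hy, h⟩ ⟨y', hy', h'⟩
    refine ⟨y * y', (MTS hg hψ hM).mul_mem hy hy', ?_⟩
    have h1 : T (inc1 k (y * y')) = T (inc1 k y) * T (inc1 k y') := by
      rw [map_mul, hT.mul]
    change (T (inc1 k (y * y'))).1 * iB.map (fun x => (x : ℂ)) =
      iB.map (fun x => (x : ℂ)) * (f * f').1
    rw [h1]
    exact C.TenM.sub_mul h h'
  inv_mem' := by
    rintro f ⟨y, hy, h⟩
    refine ⟨y⁻¹, (MTS hg hψ hM).inv_mem hy, ?_⟩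
    have h1 : T (inc1 k y⁻¹) = (T (inc1 k y))⁻¹ := by
      rw [map_inv, T_inv hT]
    change (T (inc1 k y⁻¹)).1 * iB.map (fun x => (x : ℂ)) = iB.map (fun x => (x : ℂ)) * f⁻¹.1
    rw [h1]
    have h2 : (1 : GL κ ℂ).1 * iB.map (fun x => (x : ℂ)) =
        iB.map (fun x => (x : ℂ)) * (1 : GL ι ℂ).1 := by
      change (1 : Matrix κ κ ℂ) * iB.map (fun x => (x : ℂ)) =
        iB.map (fun x => (x : ℂ)) * (1 : Matrix ι ι ℂ)
      rw [Matrix.one_mul, Matrix.mul_one]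
    have h3 := C.TenM.sub_inv h2 h
    rwa [one_mul, one_mul] at h3

include hg hψ hM hT in
theorem HS_tw (τ : ℂ ≃+* ℂ) {f : GL ι ℂ} (hf : f ∈ MTSub A c T iB) :
    Tors.tw τ f ∈ MTSub A c T iB := by
  obtain ⟨y, hy, h⟩ := hf
  refine ⟨tw2 τ y, MT_tw hg hψ hM τ hy, ?_⟩
  change (T (inc1 k (tw2 τ y))).1 * iB.map (fun x => (x : ℂ)) =
    iB.map (fun x => (x : ℂ)) * (Tors.tw τ f).1
  rw [← inc1_tw, ← T_tw hT]
  have h1 := congrArg (fun X : Matrix κ ι ℂ => X.map (τ : ℂ →+* ℂ)) h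
  beta_reduce at h1
  rw [Matrix.map_mul, Matrix.map_mul] at h1
  have h2 : (iB.map (fun x => (x : ℂ))).map (τ : ℂ →+* ℂ) = iB.map (fun x => (x : ℂ)) := by
    ext i j
    simp
  rw [h2] at h1
  exact h1

end MT

/-! ### The group of the sub-object is closed -/

section closed

/-- the generic matrix -/
noncomputable def Am (g : ℕ) : Matrix (Ix g) (Ix g) (MvPolynomial (VarT (Ix g)) ℂ) :=
  fun i j => X (Sum.inl (Sum.inl (i, j)))

/-- the generic inverse matrix -/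
noncomputable def Bm (g : ℕ) : Matrix (Ix g) (Ix g) (MvPolynomial (VarT (Ix g)) ℂ) :=
  fun i j => X (Sum.inl (Sum.inr (i, j)))

/-- the coordinates of `(x ⊕ 1, z)` as polynomials in the coordinates of `(x, z)` -/
noncomputable def sub (g k : ℕ) : VarT (Ix g ⊕ Fin k) → MvPolynomial (VarT (Ix g)) ℂ :=
  Sum.elim (Sum.elim (fun e => fromBlocks (Am g) 0 0 (1 : Matrix (Fin k) (Fin k) _) e.1 e.2)
    (fun e => fromBlocks (Bm g) 0 0 (1 : Matrix (Fin k) (Fin k) _) e.1 e.2))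
    (Sum.elim (fun _ => X (Sum.inr (Sum.inl ()))) fun _ => X (Sum.inr (Sum.inr ())))

theorem sub_eval (y : GL (Ix g) ℂ × ℂˣ) :
    (fun e => aeval (crdT y) (sub g k e)) = crdT (inc1 k y) := by
  have h1 : ∀ i j : Fin k, aeval (crdT y) ((1 : Matrix (Fin k) (Fin k)
      (MvPolynomial (VarT (Ix g)) ℂ)) i j) = (1 : Matrix (Fin k) (Fin k) ℂ) i j := by
    intro i j
    rw [Matrix.one_apply, Matrix.one_apply]
    split_ifs
    · exact map_one _
    · exact map_zero _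
  funext e
  rcases e with (⟨i | i, j | j⟩ | ⟨i | i, j | j⟩) | (e | e)
  · exact aeval_X _ _
  · exact map_zero _
  · exact map_zero _
  · exact h1 i j
  · exact aeval_X _ _
  · exact map_zero _
  · exact map_zero _
  · refine (h1 i j).trans ?_
    have h2 : ((1 : GL (Fin k) ℂ)⁻¹).1 = 1 := by
      rw [inv_one]
      rfl
    exact (congrFun (congrFun h2 i) j).symm
  · exact aeval_X _ _
  · exact aeval_X _ _

variable {A : AbData g N} {c : GL (Ix g) ℂ} {κ ι : Type} [Fintype κ] [DecidableEq κ] [Fintype ι]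
  [DecidableEq ι] {T : GL (Ix g ⊕ Fin k) ℂ × ℂˣ → GL κ ℂ}

theorem HS_closed (hg : 0 < g) (hψ : A.psi.det ≠ 0)
    (hM : OmegaDRB Qbar c = {f | ∃ y ∈ MT A c, f = y.1 * c}) (hT : IsRep T) (iB : Matrix κ ι ℚ)
    (pB : Matrix ι κ ℚ) (hpB : pB * iB = 1)
    (hstab : ∀ y ∈ MT A c, ∃ f : GL ι ℂ, (T (dsum y.1 1, y.2)).1 * iB.map (fun x => (x : ℂ)) =
      iB.map (fun x => (x : ℂ)) * f.1) : ClosedC (MTSub A c T iB) := by
  classical
  obtain ⟨SG, hSG⟩ := Tors.closedC_GdRB Qbar c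
  choose Pk hPk using hT.regular
  -- the polynomials
  let V := VarT (Ix g)
  let ψP : Matrix (Ix g) (Ix g) (MvPolynomial V ℂ) := (ps A).map C
  let s : MvPolynomial V ℂ := X (Sum.inr (Sum.inl ()))
  let t : MvPolynomial V ℂ := X (Sum.inr (Sum.inr ()))
  let TP : Matrix κ κ (MvPolynomial V ℂ) := fun i j =>
    aeval (sub g k) ((Pk i j).map (algebraMap ℚ ℂ))
  let pP : Matrix ι κ (MvPolynomial V ℂ) := (pB.map (fun x => (x : ℂ))).map C
  let iP : Matrix κ ι (MvPolynomial V ℂ) := (iB.map (fun x => (x : ℂ))).map C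
  let W : Set (MvPolynomial V ℂ) := {p | (∃ i j, p = (Am g * Bm g - 1) i j) ∨ p = s * t - 1 ∨
    (∃ q ∈ SG, p = rename (fun e => Sum.inl (Sum.inl e)) q) ∨
    ∃ i j, p = ((Am g)ᵀ * ψP * Am g - s • ψP) i j}
  have hpBC : pB.map (fun x => (x : ℂ)) * iB.map (fun x => (x : ℂ)) = 1 := by
    have h1 := congrArg (fun X : Matrix ι ι ℚ => X.map (algebraMap ℚ ℂ)) hpB
    beta_reduce at h1
    rw [Matrix.map_mul, Matrix.map_one _ (map_zero _) (map_one _)] at h1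
    exact h1
  -- evaluation
  have eC : ∀ {a b : Type} (X : Matrix a b ℂ) (w : V → ℂ),
      (X.map C).map (aeval (R := ℂ) w) = X := by
    intro a b X w
    ext i j
    simp
  have eA : ∀ y : GL (Ix g) ℂ × ℂˣ, (Am g).map (aeval (R := ℂ) (crdT y)) = y.1.1 := by
    intro y
    ext i j
    exact aeval_X _ _
  have eB : ∀ y : GL (Ix g) ℂ × ℂˣ, (Bm g).map (aeval (R := ℂ) (crdT y)) = y.1⁻¹.1 := by
    intro y
    ext i j
    exact aeval_X _ _
  have eT : ∀ y : GL (Ix g) ℂ × ℂˣ, TP.map (aeval (R := ℂ) (crdT y)) = (T (inc1 k y)).1 := by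
    intro y
    ext i j
    change aeval (crdT y) (aeval (sub g k) ((Pk i j).map (algebraMap ℚ ℂ))) = _
    rw [comp_aeval_apply, sub_eval, aeval_map_algebraMap]
    exact (hPk i j _).symm
  have eP : ∀ y : GL (Ix g) ℂ × ℂˣ, (pP * TP * iP).map (aeval (R := ℂ) (crdT y)) =
      pB.map (fun x => (x : ℂ)) * (T (inc1 k y)).1 * iB.map (fun x => (x : ℂ)) := by
    intro y
    rw [Matrix.map_mul, Matrix.map_mul, eT, eC, eC]
  have eψ : ∀ y : GL (Ix g) ℂ × ℂˣ,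
      ((Am g)ᵀ * ψP * Am g - s • ψP).map (aeval (R := ℂ) (crdT y)) =
        y.1.1ᵀ * ps A * y.1.1 - (y.2 : ℂ) • ps A := by
    intro y
    rw [Matrix.map_sub (aeval (crdT y) : MvPolynomial V ℂ →ₐ[ℂ] ℂ) (fun a b => map_sub _ a b),
      Matrix.map_mul, Matrix.map_mul, eC]
    have h1 : ((Am g)ᵀ).map (aeval (R := ℂ) (crdT y)) = y.1.1ᵀ := by
      rw [Matrix.transpose_map, eA]
    have h2 : (s • ψP).map (aeval (R := ℂ) (crdT y)) = (y.2 : ℂ) • ps A := by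
      ext i j
      simp only [ψP, s, Matrix.map_apply, Matrix.smul_apply, smul_eq_mul, map_mul, aeval_X,
        aeval_C]
      rfl
    rw [h1, h2, eA]
  refine ZarM.closedC_image (HS hg hψ hM hT iB) W (fun ij => (pP * TP * iP) ij.1 ij.2) fun f => ?_
  constructor
  · rintro ⟨y, hy, h⟩
    refine ⟨crdT y, ?_, ?_⟩
    · rw [mem_MT_iff hg hψ hM] at hy
      rintro p (⟨i, j, rfl⟩ | rfl | ⟨q, hq, rfl⟩ | ⟨i, j, rfl⟩)
      · have h1 : (Am g * Bm g - 1).map (aeval (R := ℂ) (crdT y)) = 0 := by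
          rw [Matrix.map_sub (aeval (crdT y) : MvPolynomial V ℂ →ₐ[ℂ] ℂ) (fun a b => map_sub _ a b),
            Matrix.map_mul, eA, eB, Matrix.map_one _ (map_zero _) (map_one _)]
          rw [sub_eq_zero]
          exact y.1.mul_inv
        exact congrFun (congrFun h1 i) j
      · rw [map_sub, map_mul, map_one, aeval_X, aeval_X, sub_eq_zero]
        change (y.2 : ℂ) * (y.2 : ℂ)⁻¹ = 1
        exact mul_inv_cancel₀ y.2.ne_zero
      · rw [aeval_rename]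
        have h1 : y.1 ∈ Tors.GdRB Qbar c := hy.1
        rw [hSG] at h1
        exact h1 q hq
      · have h1 := eψ y
        rw [hy.2, sub_self] at h1
        exact congrFun (congrFun h1 i) j
    · rintro ⟨i, j⟩
      have h1 := eP y
      have h2 : pB.map (fun x => (x : ℂ)) * (T (inc1 k y)).1 * iB.map (fun x => (x : ℂ)) =
          f.1 := by
        rw [Matrix.mul_assoc]
        have h3 : (T (inc1 k y)).1 * iB.map (fun x => (x : ℂ)) =
          iB.map (fun x => (x : ℂ)) * f.1 := h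
        rw [h3, ← Matrix.mul_assoc, hpBC, Matrix.one_mul]
      rw [h2] at h1
      exact congrFun (congrFun h1 i) j
  · rintro ⟨w, hw, hwf⟩
    -- the point
    let Aw : Matrix (Ix g) (Ix g) ℂ := fun i j => w (Sum.inl (Sum.inl (i, j)))
    let Bw : Matrix (Ix g) (Ix g) ℂ := fun i j => w (Sum.inl (Sum.inr (i, j)))
    have eAw : (Am g).map (aeval (R := ℂ) w) = Aw := by
      ext i j
      exact aeval_X _ _
    have eBw : (Bm g).map (aeval (R := ℂ) w) = Bw := by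
      ext i j
      exact aeval_X _ _
    have hAB : Aw * Bw = 1 := by
      have h1 : (Am g * Bm g - 1).map (aeval (R := ℂ) w) = 0 := by
        ext i j
        exact hw _ (Or.inl ⟨i, j, rfl⟩)
      rw [Matrix.map_sub (aeval w : MvPolynomial V ℂ →ₐ[ℂ] ℂ) (fun a b => map_sub _ a b),
            Matrix.map_mul, eAw, eBw, Matrix.map_one _ (map_zero _) (map_one _)] at h1
      exact sub_eq_zero.1 h1
    have hst : w (Sum.inr (Sum.inl ())) * w (Sum.inr (Sum.inr ())) = 1 := by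
      have h1 := hw (s * t - 1) (Or.inr (Or.inl rfl))
      rw [map_sub, map_mul, map_one, aeval_X, aeval_X] at h1
      exact sub_eq_zero.1 h1
    let y : GL (Ix g) ℂ × ℂˣ := (⟨Aw, Bw, hAB, mul_eq_one_comm.1 hAB⟩,
      ⟨w (Sum.inr (Sum.inl ())), w (Sum.inr (Sum.inr ())), hst, by rw [mul_comm]; exact hst⟩)
    have hyw : crdT y = w := by
      funext e
      rcases e with (e | e) | (e | e)
      · rfl
      · rfl
      · rfl
      · exact (eq_inv_of_mul_eq_one_right hst).symm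
    have hyMT : y ∈ MT A c := by
      rw [mem_MT_iff hg hψ hM]
      constructor
      · change y.1 ∈ Tors.GdRB Qbar c
        rw [hSG]
        intro q hq
        have h1 := hw _ (Or.inr (Or.inr (Or.inl ⟨q, hq, rfl⟩)))
        rw [aeval_rename] at h1
        exact h1
      · have h1 := eψ y
        rw [hyw] at h1
        have h2 : ((Am g)ᵀ * ψP * Am g - s • ψP).map (aeval (R := ℂ) w) = 0 := by
          ext i j
          exact hw _ (Or.inr (Or.inr (Or.inr ⟨i, j, rfl⟩)))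
        rw [h2] at h1
        exact (sub_eq_zero.1 h1.symm)
    obtain ⟨f', hf'⟩ := hstab y hyMT
    have h1 := eP y
    rw [hyw] at h1
    have h2 : pB.map (fun x => (x : ℂ)) * (T (inc1 k y)).1 * iB.map (fun x => (x : ℂ)) =
        f'.1 := by
      rw [Matrix.mul_assoc]
      have h3 : (T (inc1 k y)).1 * iB.map (fun x => (x : ℂ)) =
        iB.map (fun x => (x : ℂ)) * f'.1 := hf'
      rw [h3, ← Matrix.mul_assoc, hpBC, Matrix.one_mul]
    have h4 : f = f' := by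
      apply Units.ext
      rw [← h2, ← h1]
      ext i j
      exact (hwf (i, j)).symm
    rw [h4]
    exact ⟨y, hyMT, hf'⟩

end closed

/-! ### The period point is moved by the group -/

section move

variable {A : AbData g N} {c : GL (Ix g) ℂ} {κ ι : Type} [Fintype κ] [DecidableEq κ] [Fintype ι]
  [DecidableEq ι] {T : GL (Ix g ⊕ Fin k) ℂ × ℂˣ → GL κ ℂ}

theorem tw_fix {ι : Type} [Fintype ι] [DecidableEq ι] {r : GL ι ℂ} (hr : IsAlg r.1) {τ : ℂ ≃+* ℂ}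
    (hτ : FixesField Qbar τ) : Tors.tw τ r = r := by
  apply Units.ext
  ext i j
  exact hτ _ (hr i j)

theorem tw_c (hg : 0 < g) {ψdR : Matrix (Ix g) (Ix g) Qbar} (hpol : Polarised 1 c ψdR A.psi)
    (hM : OmegaDRB Qbar c = {f | ∃ y ∈ MT A c, f = y.1 * c}) {τ : ℂ ≃+* ℂ}
    (hτ : FixesField Qbar τ) : ∃ y ∈ MT A c, tw2 τ (c, tpi) = y * (c, tpi) := by
  have h1 : Tors.tw τ c ∈ OmegaDRB Qbar c := Tors.OmegaDRB_tw hτ (Tors.mem_OmegaDRB_self _ _)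
  rw [hM] at h1
  obtain ⟨y, hy, h2⟩ := h1
  refine ⟨y, hy, Prod.ext h2 (Units.ext ?_)⟩
  -- the multiplier
  have hm : c.1ᵀ * ps A * c.1 = (2 * Real.pi * Complex.I : ℂ) • ψdR.map (fun x => (x : ℂ)) := by
    have h := hpol.2
    rw [Mult, zpow_one] at h
    exact h
  have hdR : ψdR.map (fun x => (x : ℂ)) ≠ 0 := by
    intro h0
    rw [h0, smul_zero] at hm
    apply ps_ne hg hpol.1
    have hcc : c.1 * c⁻¹.1 = 1 := c.mul_inv
    have hcc' : c⁻¹.1ᵀ * c.1ᵀ = 1 := by rw [← Matrix.transpose_mul, hcc, Matrix.transpose_one]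
    calc ps A = (c⁻¹.1ᵀ * c.1ᵀ) * ps A * (c.1 * c⁻¹.1) := by
          rw [hcc, hcc', Matrix.one_mul, Matrix.mul_one]
      _ = c⁻¹.1ᵀ * (c.1ᵀ * ps A * c.1) * c⁻¹.1 := by simp only [Matrix.mul_assoc]
      _ = 0 := by rw [hm, Matrix.mul_zero, Matrix.zero_mul]
  have h3 := congrArg (fun X : Matrix (Ix g) (Ix g) ℂ => X.map (τ : ℂ →+* ℂ)) hm
  beta_reduce at h3
  rw [Matrix.map_mul, Matrix.map_mul] at h3
  have e1 : (ps A).map (τ : ℂ →+* ℂ) = ps A := ps_tw τ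
  have e2 : (c.1ᵀ).map (τ : ℂ →+* ℂ) = (Tors.tw τ c).1ᵀ := rfl
  have e3 : c.1.map (τ : ℂ →+* ℂ) = (Tors.tw τ c).1 := rfl
  have e4 : ((2 * Real.pi * Complex.I : ℂ) • ψdR.map (fun x => (x : ℂ))).map (τ : ℂ →+* ℂ) =
      τ (2 * Real.pi * Complex.I) • ψdR.map (fun x => (x : ℂ)) := by
    ext i j
    simp only [Matrix.map_apply, Matrix.smul_apply, smul_eq_mul]
    change τ (_ * ((ψdR i j : Qbar) : ℂ)) = _
    rw [map_mul τ, hτ _ (ψdR i j).2]
  rw [e1, e2, e3, e4, h2] at h3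
  have h4 : (y.1 * c).1ᵀ * ps A * (y.1 * c).1 =
      ((y.2 : ℂ) * (2 * Real.pi * Complex.I)) • ψdR.map (fun x => (x : ℂ)) := by
    calc (y.1 * c).1ᵀ * ps A * (y.1 * c).1 = c.1ᵀ * (y.1.1ᵀ * ps A * y.1.1) * c.1 := by
          rw [Units.val_mul, Matrix.transpose_mul]
          simp only [Matrix.mul_assoc]
      _ = c.1ᵀ * ((y.2 : ℂ) • ps A) * c.1 := by rw [show y.1.1ᵀ * ps A * y.1.1 =
          (y.2 : ℂ) • ps A from hy.2.1]
      _ = (y.2 : ℂ) • (c.1ᵀ * ps A * c.1) := by rw [Matrix.mul_smul, Matrix.smul_mul]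
      _ = _ := by rw [hm, smul_smul]
  rw [h4] at h3
  exact (smul_inj hdR h3).symm

theorem tw_n (hg : 0 < g) {ψdR : Matrix (Ix g) (Ix g) Qbar} (hpol : Polarised 1 c ψdR A.psi)
    (hM : OmegaDRB Qbar c = {f | ∃ y ∈ MT A c, f = y.1 * c}) {r : GL (Fin k) ℂ} (hr : IsAlg r.1)
    (hT : IsRep T) {n : GL ι ℂ} {iB : Matrix κ ι ℚ}
    (hn : IsSubOver Qbar (T (dsum c r, tpi)) n iB)
    (hstab : ∀ y ∈ MT A c, ∃ f : GL ι ℂ, (T (dsum y.1 1, y.2)).1 * iB.map (fun x => (x : ℂ)) =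
      iB.map (fun x => (x : ℂ)) * f.1) {τ : ℂ ≃+* ℂ} (hτ : FixesField Qbar τ) :
    ∃ f ∈ MTSub A c T iB, Tors.tw τ n = f * n := by
  obtain ⟨⟨pB, hpB⟩, idR, hdR⟩ := hn
  obtain ⟨y, hy, h⟩ := tw_c hg hpol hM hτ
  obtain ⟨f, hf⟩ := hstab y hy
  refine ⟨f, ⟨y, hy, hf⟩, ?_⟩
  have hpBC : pB.map (fun x => (x : ℂ)) * iB.map (fun x => (x : ℂ)) = 1 := by
    have h1 := congrArg (fun X : Matrix ι ι ℚ => X.map (algebraMap ℚ ℂ)) hpB
    beta_reduce at h1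
    rw [Matrix.map_mul, Matrix.map_one _ (map_zero _) (map_one _)] at h1
    exact h1
  have h1 : Tors.tw τ (T (dsum c r, tpi)) = T (inc1 k y) * T (dsum c r, tpi) := by
    rw [T_tw hT, ← hT.mul]
    congr 1
    have hA1 : Tors.tw τ c = y.1 * c := congrArg Prod.fst h
    have hA2 : Units.map ((τ : ℂ →+* ℂ) : ℂ →* ℂ) tpi = y.2 * tpi := congrArg Prod.snd h
    refine Prod.ext ?_ hA2
    change Tors.tw τ (dsum c r) = dsum y.1 1 * dsum c r
    rw [tw_dsum, tw_fix hr hτ, ← dsum_mul', one_mul, hA1]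
  have h2 := congrArg (fun X : Matrix κ ι ℂ => X.map (τ : ℂ →+* ℂ)) hdR
  beta_reduce at h2
  rw [Matrix.map_mul, Matrix.map_mul] at h2
  have e1 : (iB.map (fun x => (x : ℂ))).map (τ : ℂ →+* ℂ) = iB.map (fun x => (x : ℂ)) := by
    ext i j
    simp
  have e2 : (idR.map (fun x => (x : ℂ))).map (τ : ℂ →+* ℂ) = idR.map (fun x => (x : ℂ)) := by
    ext i j
    exact hτ _ (idR i j).2
  have e3 : (T (dsum c r, tpi)).1.map (τ : ℂ →+* ℂ) = (T (inc1 k y)).1 * (T (dsum c r, tpi)).1 :=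
    congrArg Units.val h1
  have e4 : n.1.map (τ : ℂ →+* ℂ) = (Tors.tw τ n).1 := rfl
  rw [e1, e2, e3, e4, Matrix.mul_assoc, hdR, ← Matrix.mul_assoc] at h2
  have hf' : (T (inc1 k y)).1 * iB.map (fun x => (x : ℂ)) = iB.map (fun x => (x : ℂ)) * f.1 := hf
  rw [hf', Matrix.mul_assoc] at h2
  have h3 := congrArg (fun X => pB.map (fun x => (x : ℂ)) * X) h2
  beta_reduce at h3
  rw [← Matrix.mul_assoc, hpBC, Matrix.one_mul, ← Matrix.mul_assoc, hpBC, Matrix.one_mul] at h3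
  exact Units.ext h3.symm

end move

end EqM

open EqM in
/-- Over `Qbar` the torsor `Ω^dRB_N` is `MT_N c_N`, for every object `N` obtained from `h^1(A)`, if
this is so for `h^1(A)`. -/
theorem drb_eq {g N k : ℕ} (hg : 0 < g) {A : AbData g N} (hA : A.IsAbVar Qbar) {c : GL (Ix g) ℂ}
    (hc : c.1 = A.per) (hM : OmegaDRB Qbar c = {f | ∃ y ∈ MT A c, f = y.1 * c})
    {r : GL (Fin k) ℂ} (hr : IsAlg r.1) {κ ι : Type} [Fintype κ] [DecidableEq κ] [Fintype ι]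
    [DecidableEq ι] {T : GL (Ix g ⊕ Fin k) ℂ × ℂˣ → GL κ ℂ} (hT : IsRep T) {n : GL ι ℂ}
    {iB : Matrix κ ι ℚ} (hn : IsSubOver Qbar (T (dsum c r, tpi)) n iB)
    (hstab : ∀ y ∈ MT A c, ∃ f : GL ι ℂ, (T (dsum y.1 1, y.2)).1 * iB.map (fun x => (x : ℂ)) =
      iB.map (fun x => (x : ℂ)) * f.1)
    (hsub : ∀ f ∈ MTSub A c T iB, f * n ∈ OmegaDRB Qbar n) :
    OmegaDRB Qbar n = {h | ∃ f ∈ MTSub A c T iB, h = f * n} := by
  obtain ⟨ψdR, hpol⟩ := U.specLEG Qbar g N A c le_rfl hA hc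
  obtain ⟨pB, hpB⟩ := hn.inj
  set H := HS (k := k) hg hpol.1 hM hT iB with hH
  have hHC : ClosedC (H : Set (GL ι ℂ)) := HS_closed hg hpol.1 hM hT iB pB hpB hstab
  have hHtw : ∀ τ : ℂ ≃+* ℂ, ∀ f ∈ H, Tors.tw τ f ∈ H := fun τ f hf => HS_tw hg hpol.1 hM hT τ hf
  have hHQ : ClosedOver ⊥ (H : Set (GL ι ℂ)) :=
    Tors.closedOver_of_stable ⊥ hHC fun τ _ f hf => hHtw τ f hf
  have hcl : ClosedOver Qbar {f : GL ι ℂ | f * n⁻¹ ∈ H} := by
    refine Tors.closedOver_of_stable Qbar (hHC.mul_right n⁻¹) fun τ hτ f hf => ?_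
    obtain ⟨h, hh, e⟩ := tw_n hg hpol hM hr hT hn hstab hτ
    change Tors.tw τ f * n⁻¹ ∈ H
    have h1 : Tors.tw τ f * n⁻¹ = Tors.tw τ (f * n⁻¹) * h := by
      rw [map_mul, map_inv, e]
      group
    rw [h1]
    exact H.mul_mem (hHtw τ _ hf) hh
  have htor := Tors.isTorsor_coset H hcl
  refine Set.Subset.antisymm (fun h hh => ?_) ?_
  · have h1 := Tors.OmegaDRB_subset htor (c := n) (by
      change n * n⁻¹ ∈ H
      rw [mul_inv_cancel]
      exact H.one_mem) (by rw [Tors.grp_coset]; exact hHQ) hh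
    exact ⟨h * n⁻¹, h1, by rw [inv_mul_cancel_right]⟩
  · rintro _ ⟨f, hf, rfl⟩
    exact hsub f hf

end Pool.Agent.Lib.MPf11a48.SH
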