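import Pool.Agent.Lib.MP_f11a48_ag.SH.FA.Eq

/-!
# MP_f11a48_ag, PROJECT S0: the final theorem, with the exact equality over `Qbar` (helper4)
-/

set_option autoImplicit false

open Matrix
open Pool.Agent.Lib.MPf11a48.CM hiding OmegaM
open Pool.Agent.Lib.MPf11a48.GL2T
open Pool.Agent.Lib.MPf11a48.U
open Pool.Agent.Lib.MPf11a48.CMS
open Pool.Agent.Lib.MPf11a48.C (IsRep tpi)
open Pool.Agent.Lib.MPf11a48.Tors (OmegaM ClosedOver)

namespace Pool.Agent.Lib.MPf11a48.SH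

/-- The statement of the new hand-in. -/
def TARGET3 : Prop :=
  ∀ (g N : ℕ) (_ : 0 < g) (A : AbData g N) (L : IntermediateField ℚ ℂ) (_ : L ≤ Qbar)
    (_ : A.IsAbVar L) (c : GL (Ix g) ℂ) (_ : c.1 = A.per) (_ : GL2Like c.1 A.psi)
    (F : IntermediateField ℚ ℂ) (_ : F ≤ Qbar) (_ : ConjOver F c.1 A.psi)
    (E : Sub) (_ : FiniteDimensional ℚ E) (_ : FlatOver F L E) (_ : AllTypes A c.1 E)
    (k : ℕ) (r : GL (Fin k) ℂ) (_ : IsAlg r.1) (K : IntermediateField ℚ ℂ) (_ : K ≤ L)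
    (κ ι : Type) [Fintype κ] [DecidableEq κ] [Fintype ι] [DecidableEq ι]
    (T : GL (Ix g ⊕ Fin k) ℂ × ℂˣ → GL κ ℂ) (_ : IsRep T) (n : GL ι ℂ) (iB : Matrix κ ι ℚ)
    (_ : IsSubOver L (T (dsum c r, tpi)) n iB),
    (∃ S₀ : Set (TPair Qbar (Ix g)), OmegaS S₀ = {f | ∃ y ∈ MT A c, f = y.1 * c}) ∧
    (∀ y ∈ MT A c, ∃ f : GL ι ℂ, (T (dsum y.1 1, y.2)).1 * iB.map (fun x => (x : ℂ)) =
      iB.map (fun x => (x : ℂ)) * f.1) ∧
    (∀ f ∈ MTSub A c T iB, ∀ h, Conj K (f * n) h →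
      h ∈ OmegaDRB K n ∧ (K ≤ F → h ∈ OmegaM K n)) ∧
    (∀ S : Set (TPair K ι), (∀ α ∈ S, Fixes n α) →
      (∀ h ∈ OmegaS S, ∃ f ∈ MTSub A c T iB, Conj K (f * n) h) →
      OmegaDRB K n = OmegaS S ∧ (K ≤ F → OmegaM K n = OmegaS S)) ∧
    (K = Qbar → OmegaDRB K n = {h | ∃ f ∈ MTSub A c T iB, h = f * n} ∧
      (F = Qbar → OmegaM K n = {h | ∃ f ∈ MTSub A c T iB, h = f * n}))

/-- The identity is a point of the Mumford-Tate group. -/
theorem one_mem_MT {g N : ℕ} {L : IntermediateField ℚ ℂ} (hL : L ≤ Qbar) {A : AbData g N}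
    (hA : A.IsAbVar L) {c : GL (Ix g) ℂ} (hc : c.1 = A.per) (hGL : GL2Like c.1 A.psi) :
    ((1 : GL (Ix g) ℂ), (1 : ℂˣ)) ∈ MT A c := by
  refine ⟨fun Z _ => ?_, ?_, fun χ hχ u hu => ?_⟩
  · change (1 : Matrix (Ix g) (Ix g) ℂ) * _ = _ * 1
    rw [Matrix.one_mul, Matrix.mul_one]
  · change (1 : Matrix (Ix g) (Ix g) ℂ)ᵀ * A.psi.map (fun x => (x : ℂ)) * 1 =
      (1 : ℂ) • A.psi.map (fun x => (x : ℂ))
    rw [Matrix.transpose_one, Matrix.one_mul, Matrix.mul_one, one_smul]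
  · obtain ⟨⟨J, hJ⟩, -⟩ := hda' specTL' L g N A c hL hA hc
    obtain ⟨S⟩ := CMM.str' c J _ hJ hGL
    refine Finset.prod_eq_one fun s _ => ?_
    by_cases hs : IsBar A.psi s s
    · rw [hχ.1 s hs, zpow_zero]
    · obtain ⟨v, -, hv, i, hi⟩ := RedM.exists_vec S s
      have h1 : v ᵥ* (1 : Matrix (Ix g) (Ix g) ℂ) = u s • v := hu s hs v hv
      rw [Matrix.vecMul_one] at h1
      have h2 : u s = 1 := by
        have h3 : (v ᵥ* c.1) i = u s * (v ᵥ* c.1) i := by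
          conv_lhs => rw [h1, Matrix.smul_vecMul]
          rfl
        have h4 : (u s - 1) * (v ᵥ* c.1) i = 0 := by linear_combination -h3
        exact sub_eq_zero.1 ((mul_eq_zero.1 h4).resolve_right hi)
      rw [h2, _root_.one_zpow]

theorem target3_of (hT : TARGET) : TARGET3 := by
  intro g N hg A L hL hA c hc hGL F hF hconj E hE hflat hall k r hr K hK κ ι _ _ _ _ T hT' n iB hn
  obtain ⟨⟨S₀, hS₀⟩, h1, h2, h3⟩ := hT g N hg A L hL hA c hc hGL F hF hconj E hE hflat hall k r hr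
    K hK κ ι T hT' n iB hn
  refine ⟨⟨S₀, hS₀⟩, h1, h2, h3, fun hKQ => ?_⟩
  subst hKQ
  obtain rfl : L = Qbar := le_antisymm hL hK
  have hself : ∀ y ∈ MT A c, y.1 * c ∈ OmegaDRB Qbar c := by
    intro y hy
    have hsub := MainTM.isSub_inc (g := g) Qbar c (1 : GL (Fin 0) ℂ)
    obtain ⟨-, -, h5, -⟩ := hT g N hg A Qbar le_rfl hA c hc hGL F hF hconj E hE hflat hall 0 1
      (fun i => Fin.elim0 i) Qbar le_rfl (Ix g ⊕ Fin 0) (Ix g) (fun y => y.1)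
      (MainTM.isRep_std _) c (MainTM.inc g) ⟨hsub.inj, by
        obtain ⟨i, hi⟩ := hsub.dR
        exact ⟨i, by rw [← CMS.castMap]; exact hi⟩⟩
    refine (h5 y.1 ?_ _ ?_).1
    · refine ⟨y, hy, ?_⟩
      rw [← CMS.castMap]
      exact MainTM.dsum_inc (algebraMap ℚ ℂ) y.1.1 _
    · exact ⟨RingEquiv.refl ℂ, fun _ _ => rfl, fun _ _ => rfl⟩
  have hcS : ∀ α ∈ S₀, Fixes c α := by
    have h6 : c ∈ OmegaS S₀ := by
      rw [hS₀]
      exact ⟨_, one_mem_MT hL hA hc hGL, (one_mul c).symm⟩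
    exact h6
  have hM : OmegaDRB Qbar c = {f | ∃ y ∈ MT A c, f = y.1 * c} := by
    refine Set.Subset.antisymm ?_ ?_
    · rw [← hS₀]
      exact drb_subset hcS
    · rintro _ ⟨y, hy, rfl⟩
      exact hself y hy
  have hrefl : ∀ h : GL ι ℂ, Conj Qbar h h := fun h =>
    ⟨RingEquiv.refl ℂ, fun _ _ => rfl, fun _ _ => rfl⟩
  have key := drb_eq hg hA hc hM hr hT' hn h1 fun f hf => (h2 f hf _ (hrefl _)).1
  refine ⟨key, fun hFQ => ?_⟩
  subst hFQ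
  refine Set.Subset.antisymm ?_ ?_
  · rw [← key]
    exact Tors.OmegaM_subset_OmegaDRB _ _
  · rintro _ ⟨f, hf, rfl⟩
    exact (h2 f hf _ (hrefl _)).2 le_rfl

end Pool.Agent.Lib.MPf11a48.SH
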