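import Pool.Agent.Lib.MP_f11a48_ag.SH.FA.EqG
import Pool.Agent.Lib.MP_f11a48_ag.SH.FA.Final3

/-!
# MP_f11a48_ag, PROJECT S0: over `Qbar` the torsor `Ω^dRB_N` is `MT_N c_N`, from the classes of
Shimura and Deligne only (helper4)
-/

set_option autoImplicit false

open Matrix MvPolynomial
open Pool.Agent.Lib.MPf11a48.CM hiding OmegaM tw
open Pool.Agent.Lib.MPf11a48.GL2T
open Pool.Agent.Lib.MPf11a48.U
open Pool.Agent.Lib.MPf11a48.CMS
open Pool.Agent.Lib.MPf11a48.C (IsRep tpi crdT VarT)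
open Pool.Agent.Lib.MPf11a48.Tors (OmegaM ClosedOver ClosedC IsTorsor grp GdRBS ent FixesField)

namespace Pool.Agent.Lib.MPf11a48.SH

namespace Eq2M

open EqM EqGM

/-! ### Classes and automorphisms -/

section fix

variable {L : IntermediateField ℚ ℂ} {ι : Type} [Fintype ι] [DecidableEq ι]

/-- the Betti component of a class, as a complex vector -/
noncomputable def bv (α : TPair L ι) : TIdx ι α.n α.m → ℂ := fun I => ((α.B I : ℚ) : ℂ)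

theorem fixes_mul {c x : GL ι ℂ} {α : TPair L ι} (hc : Fixes c α) :
    Fixes (x * c) α ↔ tens α.n α.m x.1 x⁻¹.1 *ᵥ bv α = bv α := by
  rw [fixes_iff] at hc ⊢
  have e : (x * c)⁻¹.1 = c⁻¹.1 * x⁻¹.1 := by
    rw [_root_.mul_inv_rev]
    rfl
  have e1 : (x * c).1 = x.1 * c.1 := rfl
  rw [e, e1, tens_mul, ← mulVec_mulVec, hc]
  rfl

theorem tens_tw (τ : ℂ ≃+* ℂ) (n m : ℕ) (x : GL ι ℂ) (I J : TIdx ι n m) :
    tens n m (Tors.tw τ x).1 (Tors.tw τ x)⁻¹.1 I J = τ (tens n m x.1 x⁻¹.1 I J) := by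
  have e : (Tors.tw τ x)⁻¹.1 = x⁻¹.1.map τ := by
    rw [← map_inv]
    rfl
  rw [e]
  simp only [tens, map_mul, map_prod]
  rfl

theorem fix_tw (τ : ℂ ≃+* ℂ) {x : GL ι ℂ} {α : TPair L ι}
    (h : tens α.n α.m x.1 x⁻¹.1 *ᵥ bv α = bv α) :
    tens α.n α.m (Tors.tw τ x).1 (Tors.tw τ x)⁻¹.1 *ᵥ bv α = bv α := by
  funext I
  have h1 := congrArg τ (congrFun h I)
  simp only [Matrix.mulVec, dotProduct, map_sum, map_mul] at h1 ⊢
  have h2 : ∀ J, τ (bv α J) = bv α J := fun J => by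
    change τ ((α.B J : ℚ) : ℂ) = ((α.B J : ℚ) : ℂ)
    exact map_ratCast τ _
  rw [h2] at h1
  rw [← h1]
  refine Finset.sum_congr rfl fun J _ => ?_
  rw [tens_tw, h2]

end fix

variable {g N : ℕ} {A : AbData g N} {c : GL (Ix g) ℂ} {S₀ : Set (TPair Qbar (Ix g))}

/-- how automorphisms over `L` move the multiplier -/
theorem sim_tw {L : IntermediateField ℚ ℂ} {ψdR : Matrix (Ix g) (Ix g) L}
    (hpol : Polarised 1 c ψdR A.psi) {τ : ℂ ≃+* ℂ} (hτ : FixesField L τ) :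
    (Tors.tw τ c * c⁻¹).1ᵀ * ps A * (Tors.tw τ c * c⁻¹).1 =
      (τ (2 * Real.pi * Complex.I) * (2 * Real.pi * Complex.I)⁻¹) • ps A := by
  have hm : c.1ᵀ * ps A * c.1 = (2 * Real.pi * Complex.I : ℂ) • ψdR.map (fun x => (x : ℂ)) := by
    have h := hpol.2
    rw [Mult, zpow_one] at h
    exact h
  have htpi : (2 * Real.pi * Complex.I : ℂ) ≠ 0 := Complex.two_pi_I_ne_zero
  have h3 := congrArg (fun X : Matrix (Ix g) (Ix g) ℂ => X.map (τ : ℂ →+* ℂ)) hm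
  beta_reduce at h3
  rw [Matrix.map_mul, Matrix.map_mul] at h3
  have e1 : (ps A).map (τ : ℂ →+* ℂ) = ps A := ps_tw τ
  have e2 : (c.1ᵀ).map (τ : ℂ →+* ℂ) = (Tors.tw τ c).1ᵀ := rfl
  have e3 : c.1.map (τ : ℂ →+* ℂ) = (Tors.tw τ c).1 := rfl
  have e4 : ((2 * Real.pi * Complex.I : ℂ) • ψdR.map (fun x => (x : ℂ))).map (τ : ℂ →+* ℂ) =
      τ (2 * Real.pi * Complex.I) • ψdR.map (fun x => (x : ℂ)) := by
    ext i j
    simp only [Matrix.map_apply, Matrix.smul_apply, smul_eq_mul]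
    change τ (_ * ((ψdR i j : L) : ℂ)) = _
    rw [map_mul τ, hτ _ (ψdR i j).2]
  rw [e1, e2, e3, e4] at h3
  have hcc : c.1 * c⁻¹.1 = 1 := c.mul_inv
  have hcc' : c⁻¹.1ᵀ * c.1ᵀ = 1 := by rw [← Matrix.transpose_mul, hcc, Matrix.transpose_one]
  have h4 : ψdR.map (fun x => (x : ℂ)) = (2 * Real.pi * Complex.I : ℂ)⁻¹ •
      (c.1ᵀ * ps A * c.1) := by
    rw [hm, smul_smul, inv_mul_cancel₀ htpi, one_smul]
  calc (Tors.tw τ c * c⁻¹).1ᵀ * ps A * (Tors.tw τ c * c⁻¹).1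
      = c⁻¹.1ᵀ * ((Tors.tw τ c).1ᵀ * ps A * (Tors.tw τ c).1) * c⁻¹.1 := by
        rw [Units.val_mul, Matrix.transpose_mul]
        simp only [Matrix.mul_assoc]
    _ = (τ (2 * Real.pi * Complex.I) * (2 * Real.pi * Complex.I)⁻¹) •
        ((c⁻¹.1ᵀ * c.1ᵀ) * ps A * (c.1 * c⁻¹.1)) := by
        rw [h3, h4, smul_smul, Matrix.mul_smul, Matrix.smul_mul]
        simp only [Matrix.mul_assoc]
    _ = _ := by rw [hcc', hcc, Matrix.one_mul, Matrix.mul_one]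

variable (hg : 0 < g) (hψ : A.psi.det ≠ 0) (hS₀ : OmegaS S₀ = {f | ∃ y ∈ MT A c, f = y.1 * c})

include hg hψ hS₀ in
theorem mem_iff (y : GL (Ix g) ℂ × ℂˣ) : y ∈ MT A c ↔
    y.1 * c ∈ OmegaS S₀ ∧ y.1.1ᵀ * ps A * y.1.1 = (y.2 : ℂ) • ps A := by
  constructor
  · intro hy
    refine ⟨?_, hy.2.1⟩
    rw [hS₀]
    exact ⟨y, hy, rfl⟩
  · rintro ⟨h1, h2⟩
    rw [hS₀] at h1
    obtain ⟨y', hy', e⟩ := h1
    have e1 : y.1 = y'.1 := mul_right_cancel e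
    have h3 : y'.1.1ᵀ * ps A * y'.1.1 = (y'.2 : ℂ) • ps A := hy'.2.1
    rw [← e1, h2] at h3
    have e2 : y.2 = y'.2 := Units.ext (smul_inj (ps_ne hg hψ) h3)
    have e3 : y = y' := Prod.ext e1 e2
    rw [e3]
    exact hy'

/-- `MT` as a subgroup -/
noncomputable def MTS2 (hg : 0 < g) (hψ : A.psi.det ≠ 0)
    (hS₀ : OmegaS S₀ = {f | ∃ y ∈ MT A c, f = y.1 * c}) (hcS : c ∈ OmegaS S₀) :
    Subgroup (GL (Ix g) ℂ × ℂˣ) where
  carrier := MT A c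
  one_mem' := by
    rw [mem_iff hg hψ hS₀]
    refine ⟨by change (1 : GL (Ix g) ℂ) * c ∈ _; rw [one_mul]; exact hcS, ?_⟩
    change (1 : Matrix (Ix g) (Ix g) ℂ)ᵀ * ps A * 1 = (1 : ℂ) • ps A
    rw [Matrix.transpose_one, Matrix.one_mul, Matrix.mul_one, one_smul]
  mul_mem' := by
    intro x y hx hy
    rw [mem_iff hg hψ hS₀] at hx hy ⊢
    constructor
    · have h1 := omegaS_heap S₀ _ hx.1 _ hcS _ hy.1
      have h2 : x.1 * c * c⁻¹ * (y.1 * c) = (x * y).1 * c := by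
        change x.1 * c * c⁻¹ * (y.1 * c) = x.1 * y.1 * c
        group
      rwa [h2] at h1
    · change (x.1.1 * y.1.1)ᵀ * ps A * (x.1.1 * y.1.1) = ((x.2 : ℂ) * (y.2 : ℂ)) • ps A
      calc (x.1.1 * y.1.1)ᵀ * ps A * (x.1.1 * y.1.1)
          = y.1.1ᵀ * (x.1.1ᵀ * ps A * x.1.1) * y.1.1 := by
            rw [Matrix.transpose_mul]
            simp only [Matrix.mul_assoc]
        _ = (x.2 : ℂ) • (y.1.1ᵀ * ps A * y.1.1) := by
            rw [hx.2, Matrix.mul_smul, Matrix.smul_mul]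
        _ = _ := by rw [hy.2, smul_smul]
  inv_mem' := by
    intro x hx
    rw [mem_iff hg hψ hS₀] at hx ⊢
    constructor
    · have h1 := omegaS_heap S₀ _ hcS _ hx.1 _ hcS
      have h2 : c * (x.1 * c)⁻¹ * c = x⁻¹.1 * c := by
        change c * (x.1 * c)⁻¹ * c = x.1⁻¹ * c
        group
      rwa [h2] at h1
    · have hxx : x.1.1 * x.1⁻¹.1 = 1 := x.1.mul_inv
      have hxx' : x.1⁻¹.1ᵀ * x.1.1ᵀ = 1 := by
        rw [← Matrix.transpose_mul, hxx, Matrix.transpose_one]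
      change x.1⁻¹.1ᵀ * ps A * x.1⁻¹.1 = ((x.2⁻¹ : ℂˣ) : ℂ) • ps A
      have h1 : ps A = ((x.2⁻¹ : ℂˣ) : ℂ) • (x.1.1ᵀ * ps A * x.1.1) := by
        rw [hx.2, smul_smul, Units.inv_mul, one_smul]
      calc x.1⁻¹.1ᵀ * ps A * x.1⁻¹.1
          = x.1⁻¹.1ᵀ * (((x.2⁻¹ : ℂˣ) : ℂ) • (x.1.1ᵀ * ps A * x.1.1)) * x.1⁻¹.1 := by rw [← h1]
        _ = ((x.2⁻¹ : ℂˣ) : ℂ) • ((x.1⁻¹.1ᵀ * x.1.1ᵀ) * ps A * (x.1.1 * x.1⁻¹.1)) := by
            rw [Matrix.mul_smul, Matrix.smul_mul]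
            simp only [Matrix.mul_assoc]
        _ = _ := by rw [hxx', hxx, Matrix.one_mul, Matrix.mul_one]

include hg hψ hS₀ in
theorem MT_tw2 (hcS : c ∈ OmegaS S₀) (τ : ℂ ≃+* ℂ) {y : GL (Ix g) ℂ × ℂˣ} (hy : y ∈ MT A c) :
    tw2 τ y ∈ MT A c := by
  rw [mem_iff hg hψ hS₀] at hy ⊢
  constructor
  · intro α hα
    have h1 := (fixes_mul (hcS α hα)).1 (hy.1 α hα)
    exact (fixes_mul (hcS α hα)).2 (fix_tw τ h1)
  · have h1 := congrArg (fun X : Matrix (Ix g) (Ix g) ℂ => X.map (τ : ℂ →+* ℂ)) hy.2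
    beta_reduce at h1
    rw [Matrix.map_mul, Matrix.map_mul] at h1
    have h2 : (ps A).map (τ : ℂ →+* ℂ) = ps A := ps_tw τ
    have h3 : (y.1.1ᵀ).map (τ : ℂ →+* ℂ) = (Tors.tw τ y.1).1ᵀ := rfl
    have h4 : y.1.1.map (τ : ℂ →+* ℂ) = (Tors.tw τ y.1).1 := rfl
    have h5 : ((y.2 : ℂ) • ps A).map (τ : ℂ →+* ℂ) = τ (y.2 : ℂ) • ps A := by
      ext i j
      have h6 := congrFun (congrFun h2 i) j
      simp only [Matrix.map_apply, Matrix.smul_apply, smul_eq_mul, map_mul] at h6 ⊢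
      rw [h6]
      rfl
    rw [h2, h3, h4, h5] at h1
    exact h1

include hg hψ hS₀ in
theorem MT_closed : ∃ SW : Set (MvPolynomial (VarT (Ix g)) ℂ),
    ∀ y, y ∈ MT A c ↔ ∀ p ∈ SW, aeval (crdT y) p = 0 := by
  classical
  have hcl : ClosedOver Qbar (OmegaS S₀) := omegaS_closed S₀
  have hcl' : ClosedC {x : GL (Ix g) ℂ | x * c ∈ OmegaS S₀} := hcl.closedC.mul_right c
  obtain ⟨SG, hSG⟩ := hcl'
  let V := VarT (Ix g)
  let ψP : Matrix (Ix g) (Ix g) (MvPolynomial V ℂ) := (ps A).map C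
  let s : MvPolynomial V ℂ := X (Sum.inr (Sum.inl ()))
  have eψ : ∀ y : GL (Ix g) ℂ × ℂˣ,
      ((EqGM.Am (Ix g))ᵀ * ψP * EqGM.Am (Ix g) - s • ψP).map (aeval (R := ℂ) (crdT y)) =
        y.1.1ᵀ * ps A * y.1.1 - (y.2 : ℂ) • ps A := by
    intro y
    have eA : (EqGM.Am (Ix g)).map (aeval (R := ℂ) (crdT y)) = y.1.1 := by
      ext i j
      exact aeval_X _ _
    have eC : ψP.map (aeval (R := ℂ) (crdT y)) = ps A := by
      ext i j
      simp [ψP]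
    rw [Matrix.map_sub (aeval (crdT y) : MvPolynomial V ℂ →ₐ[ℂ] ℂ) (fun a b => map_sub _ a b),
      Matrix.map_mul, Matrix.map_mul, eC]
    have h1 : ((EqGM.Am (Ix g))ᵀ).map (aeval (R := ℂ) (crdT y)) = y.1.1ᵀ := by
      rw [Matrix.transpose_map, eA]
    have h2 : (s • ψP).map (aeval (R := ℂ) (crdT y)) = (y.2 : ℂ) • ps A := by
      ext i j
      simp only [ψP, s, Matrix.map_apply, Matrix.smul_apply, smul_eq_mul, map_mul, aeval_X,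
        aeval_C]
      rfl
    rw [h1, h2, eA]
  refine ⟨{p | (∃ q ∈ SG, p = rename (fun e => Sum.inl (Sum.inl e)) q) ∨
    ∃ i j, p = ((EqGM.Am (Ix g))ᵀ * ψP * EqGM.Am (Ix g) - s • ψP) i j}, fun y => ?_⟩
  rw [mem_iff hg hψ hS₀]
  constructor
  · rintro ⟨h1, h2⟩ p (⟨q, hq, rfl⟩ | ⟨i, j, rfl⟩)
    · rw [aeval_rename]
      have h1 : y.1 ∈ {x : GL (Ix g) ℂ | x * c ∈ OmegaS S₀} := h1
      rw [hSG] at h1
      exact h1 q hq
    · have h3 := eψ y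
      rw [h2, sub_self] at h3
      exact congrFun (congrFun h3 i) j
  · intro h
    constructor
    · change y.1 ∈ {x : GL (Ix g) ℂ | x * c ∈ OmegaS S₀}
      rw [hSG]
      intro q hq
      have h1 := h _ (Or.inl ⟨q, hq, rfl⟩)
      rw [aeval_rename] at h1
      exact h1
    · have h1 := eψ y
      have h2 : ((EqGM.Am (Ix g))ᵀ * ψP * EqGM.Am (Ix g) - s • ψP).map
          (aeval (R := ℂ) (crdT y)) = 0 := by
        ext i j
        exact h _ (Or.inr ⟨i, j, rfl⟩)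
      rw [h2] at h1
      exact (sub_eq_zero.1 h1.symm)

end Eq2M

open EqM EqGM Eq2M in
/-- Over `Qbar` the torsor `Ω^dRB_N` is `MT_N c_N`, for every object `N` obtained from `h^1(A)` for
which it contains `MT_N c_N`, if the Mumford-Tate group of `A` is cut out by classes over `Qbar`. -/
theorem drb_eq2 {g N k : ℕ} (hg : 0 < g) {A : AbData g N} (hA : A.IsAbVar Qbar) {c : GL (Ix g) ℂ}
    (hc : c.1 = A.per) (hGL : GL2Like c.1 A.psi) {S₀ : Set (TPair Qbar (Ix g))}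
    (hS₀ : OmegaS S₀ = {f | ∃ y ∈ MT A c, f = y.1 * c})
    {r : GL (Fin k) ℂ} (hr : IsAlg r.1) {κ ι : Type} [Fintype κ] [DecidableEq κ] [Fintype ι]
    [DecidableEq ι] {T : GL (Ix g ⊕ Fin k) ℂ × ℂˣ → GL κ ℂ} (hT : IsRep T) {n : GL ι ℂ}
    {iB : Matrix κ ι ℚ} (hn : IsSubOver Qbar (T (dsum c r, tpi)) n iB)
    (hstab : ∀ y ∈ MT A c, ∃ f : GL ι ℂ, (T (dsum y.1 1, y.2)).1 * iB.map (fun x => (x : ℂ)) =
      iB.map (fun x => (x : ℂ)) * f.1)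
    (hsub : ∀ f ∈ MTSub A c T iB, f * n ∈ OmegaDRB Qbar n) :
    OmegaDRB Qbar n = {h | ∃ f ∈ MTSub A c T iB, h = f * n} := by
  obtain ⟨ψdR, hpol⟩ := U.specLEG Qbar g N A c le_rfl hA hc
  have hcS : c ∈ OmegaS S₀ := by
    rw [hS₀]
    exact ⟨_, one_mem_MT le_rfl hA hc hGL, (one_mul c).symm⟩
  obtain ⟨SW, hSW⟩ := MT_closed hg hpol.1 hS₀
  have hm : ∀ τ : ℂ ≃+* ℂ, FixesField Qbar τ → tw2 τ (c, tpi) * (c, tpi)⁻¹ ∈ MT A c := by
    intro τ hτ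
    rw [mem_iff hg hpol.1 hS₀]
    constructor
    · change Tors.tw τ c * c⁻¹ * c ∈ OmegaS S₀
      rw [inv_mul_cancel_right]
      have hcl : ClosedOver Qbar (OmegaS S₀) := omegaS_closed S₀
      exact hcl.tw_mem hτ hcS
    · exact sim_tw hpol hτ
  refine Set.Subset.antisymm (fun h hh => ?_) ?_
  · obtain ⟨f, ⟨y, hy, hf⟩, e⟩ := EqGM.eqg (W := MTS2 hg hpol.1 hS₀ hcS) hSW
      (fun τ y hy => MT_tw2 hg hpol.1 hS₀ hcS τ hy) (EqGM.isRep_inc hT) hm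
      (EqGM.isSub_inc hT hr hn) hstab hh
    exact ⟨f, ⟨y, hy, hf⟩, e⟩
  · rintro _ ⟨f, hf, rfl⟩
    exact hsub f hf

end Pool.Agent.Lib.MPf11a48.SH
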