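import Pool.Agent.Lib.MP_f11a48_ag.SH.FA.Eq

/-!
# MP_f11a48_ag, PROJECT S0: the torsor `Ω^dRB_N` of a sub-object `N` of a tensor construction
(helper4)

`eqg`: let `W` be a closed `ℚ`-subgroup of `GL_μ × G_m` and `m` a point of `GL_μ × G_m` (periods) with
`τ(m) m⁻¹ ∈ W` for all automorphisms `τ` of `ℂ` over `L`. If `N` is a sub-object over `L` of `T(m)`,
stable under `W`, then `Ω^dRB_N ⊆ W_N n`.
-/

set_option autoImplicit false

open Matrix MvPolynomial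
open Pool.Agent.Lib.MPf11a48.CM hiding OmegaM tw
open Pool.Agent.Lib.MPf11a48.GL2T
open Pool.Agent.Lib.MPf11a48.U
open Pool.Agent.Lib.MPf11a48.CMS
open Pool.Agent.Lib.MPf11a48.C (IsRep tpi crdT VarT)
open Pool.Agent.Lib.MPf11a48.Tors (OmegaM ClosedOver ClosedC IsTorsor grp GdRBS ent FixesField)

namespace Pool.Agent.Lib.MPf11a48.SH

namespace EqGM

open EqM

section gen

variable {μ κ ι : Type} [Fintype μ] [DecidableEq μ] [Fintype κ] [DecidableEq κ] [Fintype ι]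
  [DecidableEq ι] {T : GL μ ℂ × ℂˣ → GL κ ℂ}

theorem T_one (hT : IsRep T) : T 1 = 1 := by
  have h := hT.mul 1 1
  rw [mul_one] at h
  exact (mul_eq_left.1 h.symm)

theorem T_inv (hT : IsRep T) (x : GL μ ℂ × ℂˣ) : T x⁻¹ = (T x)⁻¹ := by
  rw [eq_inv_iff_mul_eq_one, ← hT.mul, inv_mul_cancel, T_one hT]

theorem mapQ_one (iB : Matrix κ ι ℚ) : (1 : GL κ ℂ).1 * iB.map (fun x => (x : ℂ)) =
    iB.map (fun x => (x : ℂ)) * (1 : GL ι ℂ).1 := by
  change (1 : Matrix κ κ ℂ) * iB.map (fun x => (x : ℂ)) =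
    iB.map (fun x => (x : ℂ)) * (1 : Matrix ι ι ℂ)
  rw [Matrix.one_mul, Matrix.mul_one]

/-- the group of the sub-object -/
noncomputable def WS (W : Subgroup (GL μ ℂ × ℂˣ)) (hT : IsRep T) (iB : Matrix κ ι ℚ) :
    Subgroup (GL ι ℂ) where
  carrier := {f | ∃ y ∈ W, (T y).1 * iB.map (fun x => (x : ℂ)) =
    iB.map (fun x => (x : ℂ)) * f.1}
  one_mem' := ⟨1, W.one_mem, by rw [T_one hT]; exact mapQ_one iB⟩
  mul_mem' := by
    rintro f f' ⟨y, hy, h⟩ ⟨y', hy', h'⟩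
    exact ⟨y * y', W.mul_mem hy hy', by rw [hT.mul]; exact C.TenM.sub_mul h h'⟩
  inv_mem' := by
    rintro f ⟨y, hy, h⟩
    refine ⟨y⁻¹, W.inv_mem hy, ?_⟩
    rw [T_inv hT]
    have h3 := C.TenM.sub_inv (mapQ_one iB) h
    rwa [one_mul, one_mul] at h3

theorem mapQ_tw (iB : Matrix κ ι ℚ) (τ : ℂ ≃+* ℂ) :
    (iB.map (fun x => (x : ℂ))).map (τ : ℂ →+* ℂ) = iB.map (fun x => (x : ℂ)) := by
  ext i j
  simp

theorem WS_tw {W : Subgroup (GL μ ℂ × ℂˣ)} (hW : ∀ τ : ℂ ≃+* ℂ, ∀ y ∈ W, tw2 τ y ∈ W)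
    (hT : IsRep T) {iB : Matrix κ ι ℚ} (τ : ℂ ≃+* ℂ) {f : GL ι ℂ} (hf : f ∈ WS W hT iB) :
    Tors.tw τ f ∈ WS W hT iB := by
  obtain ⟨y, hy, h⟩ := hf
  refine ⟨tw2 τ y, hW τ y hy, ?_⟩
  rw [← T_tw hT]
  have h1 := congrArg (fun X : Matrix κ ι ℂ => X.map (τ : ℂ →+* ℂ)) h
  beta_reduce at h1
  rw [Matrix.map_mul, Matrix.map_mul, mapQ_tw] at h1
  exact h1

theorem left_inv {iB : Matrix κ ι ℚ} {pB : Matrix ι κ ℚ} (hpB : pB * iB = 1) :
    pB.map (fun x => (x : ℂ)) * iB.map (fun x => (x : ℂ)) = 1 := by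
  have h1 := congrArg (fun X : Matrix ι ι ℚ => X.map (algebraMap ℚ ℂ)) hpB
  beta_reduce at h1
  rw [Matrix.map_mul, Matrix.map_one _ (map_zero _) (map_one _)] at h1
  exact h1

/-- the generic matrix -/
noncomputable def Am (μ : Type) : Matrix μ μ (MvPolynomial (VarT μ) ℂ) :=
  fun i j => X (Sum.inl (Sum.inl (i, j)))

/-- the generic inverse matrix -/
noncomputable def Bm (μ : Type) : Matrix μ μ (MvPolynomial (VarT μ) ℂ) :=
  fun i j => X (Sum.inl (Sum.inr (i, j)))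

theorem WS_closed {W : Subgroup (GL μ ℂ × ℂˣ)} {SW : Set (MvPolynomial (VarT μ) ℂ)}
    (hSW : ∀ y, y ∈ W ↔ ∀ p ∈ SW, aeval (crdT y) p = 0) (hT : IsRep T) (iB : Matrix κ ι ℚ)
    (pB : Matrix ι κ ℚ) (hpB : pB * iB = 1)
    (hstab : ∀ y ∈ W, ∃ f : GL ι ℂ, (T y).1 * iB.map (fun x => (x : ℂ)) =
      iB.map (fun x => (x : ℂ)) * f.1) : ClosedC (WS W hT iB : Set (GL ι ℂ)) := by
  classical
  choose Pk hPk using hT.regular
  -- the polynomials
  let V := VarT μ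
  let s : MvPolynomial V ℂ := X (Sum.inr (Sum.inl ()))
  let t : MvPolynomial V ℂ := X (Sum.inr (Sum.inr ()))
  let TP : Matrix κ κ (MvPolynomial V ℂ) := fun i j => (Pk i j).map (algebraMap ℚ ℂ)
  let pP : Matrix ι κ (MvPolynomial V ℂ) := (pB.map (fun x => (x : ℂ))).map C
  let iP : Matrix κ ι (MvPolynomial V ℂ) := (iB.map (fun x => (x : ℂ))).map C
  let W' : Set (MvPolynomial V ℂ) := {p | (∃ i j, p = (Am μ * Bm μ - 1) i j) ∨ p = s * t - 1 ∨
    p ∈ SW}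
  have hpBC : pB.map (fun x => (x : ℂ)) * iB.map (fun x => (x : ℂ)) = 1 := left_inv hpB
  -- evaluation
  have eC : ∀ {a b : Type} (X : Matrix a b ℂ) (w : V → ℂ),
      (X.map C).map (aeval (R := ℂ) w) = X := by
    intro a b X w
    ext i j
    simp
  have eA : ∀ y : GL μ ℂ × ℂˣ, (Am μ).map (aeval (R := ℂ) (crdT y)) = y.1.1 := by
    intro y
    ext i j
    exact aeval_X _ _
  have eB : ∀ y : GL μ ℂ × ℂˣ, (Bm μ).map (aeval (R := ℂ) (crdT y)) = y.1⁻¹.1 := by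
    intro y
    ext i j
    exact aeval_X _ _
  have eT : ∀ y : GL μ ℂ × ℂˣ, TP.map (aeval (R := ℂ) (crdT y)) = (T y).1 := by
    intro y
    ext i j
    change aeval (crdT y) ((Pk i j).map (algebraMap ℚ ℂ)) = _
    rw [aeval_map_algebraMap]
    exact (hPk i j _).symm
  have eP : ∀ y : GL μ ℂ × ℂˣ, (pP * TP * iP).map (aeval (R := ℂ) (crdT y)) =
      pB.map (fun x => (x : ℂ)) * (T y).1 * iB.map (fun x => (x : ℂ)) := by
    intro y
    rw [Matrix.map_mul, Matrix.map_mul, eT, eC, eC]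
  refine ZarM.closedC_image (WS W hT iB) W' (fun ij => (pP * TP * iP) ij.1 ij.2) fun f => ?_
  constructor
  · rintro ⟨y, hy, h⟩
    refine ⟨crdT y, ?_, ?_⟩
    · rintro p (⟨i, j, rfl⟩ | rfl | hp)
      · have h1 : (Am μ * Bm μ - 1).map (aeval (R := ℂ) (crdT y)) = 0 := by
          rw [Matrix.map_sub (aeval (crdT y) : MvPolynomial V ℂ →ₐ[ℂ] ℂ) (fun a b => map_sub _ a b),
            Matrix.map_mul, eA, eB, Matrix.map_one _ (map_zero _) (map_one _)]
          rw [sub_eq_zero]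
          exact y.1.mul_inv
        exact congrFun (congrFun h1 i) j
      · rw [map_sub, map_mul, map_one, aeval_X, aeval_X, sub_eq_zero]
        change (y.2 : ℂ) * (y.2 : ℂ)⁻¹ = 1
        exact mul_inv_cancel₀ y.2.ne_zero
      · exact (hSW y).1 hy p hp
    · rintro ⟨i, j⟩
      have h1 := eP y
      have h2 : pB.map (fun x => (x : ℂ)) * (T y).1 * iB.map (fun x => (x : ℂ)) =
          f.1 := by
        rw [Matrix.mul_assoc, h, ← Matrix.mul_assoc, hpBC, Matrix.one_mul]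
      rw [h2] at h1
      exact congrFun (congrFun h1 i) j
  · rintro ⟨w, hw, hwf⟩
    -- the point
    let Aw : Matrix μ μ ℂ := fun i j => w (Sum.inl (Sum.inl (i, j)))
    let Bw : Matrix μ μ ℂ := fun i j => w (Sum.inl (Sum.inr (i, j)))
    have eAw : (Am μ).map (aeval (R := ℂ) w) = Aw := by
      ext i j
      exact aeval_X _ _
    have eBw : (Bm μ).map (aeval (R := ℂ) w) = Bw := by
      ext i j
      exact aeval_X _ _
    have hAB : Aw * Bw = 1 := by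
      have h1 : (Am μ * Bm μ - 1).map (aeval (R := ℂ) w) = 0 := by
        ext i j
        exact hw _ (Or.inl ⟨i, j, rfl⟩)
      rw [Matrix.map_sub (aeval w : MvPolynomial V ℂ →ₐ[ℂ] ℂ) (fun a b => map_sub _ a b),
            Matrix.map_mul, eAw, eBw, Matrix.map_one _ (map_zero _) (map_one _)] at h1
      exact sub_eq_zero.1 h1
    have hst : w (Sum.inr (Sum.inl ())) * w (Sum.inr (Sum.inr ())) = 1 := by
      have h1 := hw (s * t - 1) (Or.inr (Or.inl rfl))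
      rw [map_sub, map_mul, map_one, aeval_X, aeval_X] at h1
      exact sub_eq_zero.1 h1
    let y : GL μ ℂ × ℂˣ := (⟨Aw, Bw, hAB, mul_eq_one_comm.1 hAB⟩,
      ⟨w (Sum.inr (Sum.inl ())), w (Sum.inr (Sum.inr ())), hst, by rw [mul_comm]; exact hst⟩)
    have hyw : crdT y = w := by
      funext e
      rcases e with (e | e) | (e | e)
      · rfl
      · rfl
      · rfl
      · exact (eq_inv_of_mul_eq_one_right hst).symm
    have hyW : y ∈ W := by
      rw [hSW, hyw]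
      exact fun p hp => hw p (Or.inr (Or.inr hp))
    obtain ⟨f', hf'⟩ := hstab y hyW
    have h1 := eP y
    rw [hyw] at h1
    have h2 : pB.map (fun x => (x : ℂ)) * (T y).1 * iB.map (fun x => (x : ℂ)) =
        f'.1 := by
      rw [Matrix.mul_assoc, hf', ← Matrix.mul_assoc, hpBC, Matrix.one_mul]
    have h4 : f = f' := by
      apply Units.ext
      rw [← h2, ← h1]
      ext i j
      exact (hwf (i, j)).symm
    rw [h4]
    exact ⟨y, hyW, hf'⟩

/-- how automorphisms move the period matrix of the sub-object -/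
theorem tw_sub {L : IntermediateField ℚ ℂ} (hT : IsRep T) {m : GL μ ℂ × ℂˣ} {n : GL ι ℂ}
    {iB : Matrix κ ι ℚ} (hn : IsSubOver L (T m) n iB) {τ : ℂ ≃+* ℂ} (hτ : FixesField L τ)
    {f : GL ι ℂ} (hf : (T (tw2 τ m * m⁻¹)).1 * iB.map (fun x => (x : ℂ)) =
      iB.map (fun x => (x : ℂ)) * f.1) : Tors.tw τ n = f * n := by
  obtain ⟨⟨pB, hpB⟩, idR, hdR⟩ := hn
  have hpBC := left_inv hpB
  have h1 : Tors.tw τ (T m) = T (tw2 τ m * m⁻¹) * T m := by
    rw [T_tw hT, ← hT.mul, inv_mul_cancel_right]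
  have h2 := congrArg (fun X : Matrix κ ι ℂ => X.map (τ : ℂ →+* ℂ)) hdR
  beta_reduce at h2
  rw [Matrix.map_mul, Matrix.map_mul] at h2
  have e2 : (idR.map (fun x => (x : ℂ))).map (τ : ℂ →+* ℂ) = idR.map (fun x => (x : ℂ)) := by
    ext i j
    exact hτ _ (idR i j).2
  have e3 : (T m).1.map (τ : ℂ →+* ℂ) = (T (tw2 τ m * m⁻¹)).1 * (T m).1 :=
    congrArg Units.val h1
  have e4 : n.1.map (τ : ℂ →+* ℂ) = (Tors.tw τ n).1 := rfl
  rw [mapQ_tw, e2, e3, e4, Matrix.mul_assoc, hdR, ← Matrix.mul_assoc, hf, Matrix.mul_assoc] at h2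
  have h3 := congrArg (fun X => pB.map (fun x => (x : ℂ)) * X) h2
  beta_reduce at h3
  rw [← Matrix.mul_assoc, hpBC, Matrix.one_mul, ← Matrix.mul_assoc, hpBC, Matrix.one_mul] at h3
  exact Units.ext h3.symm

/-- The torsor of a sub-object. -/
theorem eqg {W : Subgroup (GL μ ℂ × ℂˣ)} {SW : Set (MvPolynomial (VarT μ) ℂ)}
    (hSW : ∀ y, y ∈ W ↔ ∀ p ∈ SW, aeval (crdT y) p = 0)
    (hW : ∀ τ : ℂ ≃+* ℂ, ∀ y ∈ W, tw2 τ y ∈ W) (hT : IsRep T) {L : IntermediateField ℚ ℂ}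
    {m : GL μ ℂ × ℂˣ} (hm : ∀ τ : ℂ ≃+* ℂ, FixesField L τ → tw2 τ m * m⁻¹ ∈ W) {n : GL ι ℂ}
    {iB : Matrix κ ι ℚ} (hn : IsSubOver L (T m) n iB)
    (hstab : ∀ y ∈ W, ∃ f : GL ι ℂ, (T y).1 * iB.map (fun x => (x : ℂ)) =
      iB.map (fun x => (x : ℂ)) * f.1) {h : GL ι ℂ} (hh : h ∈ OmegaDRB L n) :
    ∃ f : GL ι ℂ, (∃ y ∈ W, (T y).1 * iB.map (fun x => (x : ℂ)) =
      iB.map (fun x => (x : ℂ)) * f.1) ∧ h = f * n := by
  obtain ⟨pB, hpB⟩ := hn.inj
  set H := WS W hT iB with hH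
  have hHC : ClosedC (H : Set (GL ι ℂ)) := WS_closed hSW hT iB pB hpB hstab
  have hHtw : ∀ τ : ℂ ≃+* ℂ, ∀ f ∈ H, Tors.tw τ f ∈ H := fun τ f hf => WS_tw hW hT τ hf
  have hHQ : ClosedOver ⊥ (H : Set (GL ι ℂ)) :=
    Tors.closedOver_of_stable ⊥ hHC fun τ _ f hf => hHtw τ f hf
  have hcl : ClosedOver L {f : GL ι ℂ | f * n⁻¹ ∈ H} := by
    refine Tors.closedOver_of_stable L (hHC.mul_right n⁻¹) fun τ hτ f hf => ?_
    obtain ⟨h, hh⟩ := hstab _ (hm τ hτ)
    have e := tw_sub hT hn hτ hh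
    change Tors.tw τ f * n⁻¹ ∈ H
    have h1 : Tors.tw τ f * n⁻¹ = Tors.tw τ (f * n⁻¹) * h := by
      rw [map_mul, map_inv, e]
      group
    rw [h1]
    exact H.mul_mem (hHtw τ _ hf) ⟨_, hm τ hτ, hh⟩
  have htor := Tors.isTorsor_coset H hcl
  have h1 := Tors.OmegaDRB_subset htor (c := n) (by
    change n * n⁻¹ ∈ H
    rw [mul_inv_cancel]
    exact H.one_mem) (by rw [Tors.grp_coset]; exact hHQ) hh
  exact ⟨h * n⁻¹, h1, by rw [inv_mul_cancel_right]⟩

end gen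

/-! ### Adding an object with algebraic periods -/

section add

variable {μ ν κ : Type} [Fintype μ] [DecidableEq μ] [Fintype ν] [DecidableEq ν] [Fintype κ]
  [DecidableEq κ]

theorem ds_mul (x x' : GL μ ℂ) (r r' : GL ν ℂ) :
    dsum (x * x') (r * r') = dsum x r * dsum x' r' := by
  apply Units.ext
  change Matrix.fromBlocks (x.1 * x'.1) 0 0 (r.1 * r'.1) =
    Matrix.fromBlocks x.1 0 0 r.1 * Matrix.fromBlocks x'.1 0 0 r'.1
  rw [Matrix.fromBlocks_multiply]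
  simp only [Matrix.mul_zero, Matrix.zero_mul, add_zero, zero_add]

theorem ds_one : dsum (1 : GL μ ℂ) (1 : GL ν ℂ) = 1 := by
  apply Units.ext
  exact Matrix.fromBlocks_one

theorem tw_ds (τ : ℂ ≃+* ℂ) (x : GL μ ℂ) (r : GL ν ℂ) :
    Tors.tw τ (dsum x r) = dsum (Tors.tw τ x) (Tors.tw τ r) := by
  apply Units.ext
  ext i j
  rcases i with i | i <;> rcases j with j | j
  all_goals first
    | rfl
    | exact map_zero τ

/-- the homomorphism `(x, z) ↦ (x ⊕ 1, z)` -/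
noncomputable def inc (μ ν : Type) [Fintype μ] [DecidableEq μ] [Fintype ν] [DecidableEq ν] :
    GL μ ℂ × ℂˣ →* GL (μ ⊕ ν) ℂ × ℂˣ where
  toFun y := (dsum y.1 1, y.2)
  map_one' := Prod.ext ds_one rfl
  map_mul' x y := by
    refine Prod.ext ?_ rfl
    change dsum (x.1 * y.1) 1 = dsum x.1 1 * dsum y.1 1
    rw [← ds_mul, one_mul]

/-- the coordinates of `(x ⊕ 1, z)` as polynomials in the coordinates of `(x, z)` -/
noncomputable def sub (μ ν : Type) [DecidableEq ν] : VarT (μ ⊕ ν) → MvPolynomial (VarT μ) ℚ :=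
  Sum.elim (Sum.elim
    (fun e => fromBlocks (fun i j => X (Sum.inl (Sum.inl (i, j)))) 0 0
      (1 : Matrix ν ν _) e.1 e.2)
    (fun e => fromBlocks (fun i j => X (Sum.inl (Sum.inr (i, j)))) 0 0
      (1 : Matrix ν ν _) e.1 e.2))
    (Sum.elim (fun _ => X (Sum.inr (Sum.inl ()))) fun _ => X (Sum.inr (Sum.inr ())))

theorem sub_eval (y : GL μ ℂ × ℂˣ) :
    (fun e => aeval (crdT y) (sub μ ν e)) = crdT (inc μ ν y) := by
  have h1 : ∀ i j : ν, aeval (crdT y) ((1 : Matrix ν ν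
      (MvPolynomial (VarT μ) ℚ)) i j) = (1 : Matrix ν ν ℂ) i j := by
    intro i j
    rw [Matrix.one_apply, Matrix.one_apply]
    split_ifs
    · exact map_one _
    · exact map_zero _
  funext e
  rcases e with (⟨i | i, j | j⟩ | ⟨i | i, j | j⟩) | (e | e)
  · exact aeval_X _ _
  · exact map_zero _
  · exact map_zero _
  · exact h1 i j
  · exact aeval_X _ _
  · exact map_zero _
  · exact map_zero _
  · refine (h1 i j).trans ?_
    have h2 : ((1 : GL ν ℂ)⁻¹).1 = 1 := by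
      rw [inv_one]
      rfl
    exact (congrFun (congrFun h2 i) j).symm
  · exact aeval_X _ _
  · exact aeval_X _ _

theorem isRep_inc {T : GL (μ ⊕ ν) ℂ × ℂˣ → GL κ ℂ} (hT : IsRep T) :
    IsRep fun y : GL μ ℂ × ℂˣ => T (dsum y.1 1, y.2) where
  regular i j := by
    obtain ⟨p, hp⟩ := hT.regular i j
    refine ⟨aeval (sub μ ν) p, fun y => ?_⟩
    rw [comp_aeval_apply, sub_eval]
    exact hp _
  mul x y := by
    rw [← hT.mul]
    congr 1
    exact map_mul (inc μ ν) x y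

/-- the entries of a representation at a point over `L` are in `L` -/
theorem rep_mem {T : GL (μ ⊕ ν) ℂ × ℂˣ → GL κ ℂ} (hT : IsRep T) {L : IntermediateField ℚ ℂ}
    {r : GL ν ℂ} (hr : ∀ i j, r.1 i j ∈ L) (i j : κ) :
    (T (dsum (1 : GL μ ℂ) r, 1)).1 i j ∈ L := by
  have hr' : ∀ i j, r⁻¹.1 i j ∈ L := by
    intro i j
    have h1 : r⁻¹.1 = (r.1.det)⁻¹ • r.1.adjugate := by
      rw [Matrix.coe_units_inv, Matrix.inv_def, Ring.inverse_eq_inv']
    have h2 : r.1 = (show Matrix ν ν L from fun i j => ⟨r.1 i j, hr i j⟩).map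
        (algebraMap L ℂ) := by
      ext i j
      rfl
    rw [h1]
    refine L.mul_mem (L.inv_mem ?_) ?_
    · rw [h2, ← RingHom.mapMatrix_apply, ← RingHom.map_det]
      exact Subtype.prop _
    · rw [h2, ← RingHom.mapMatrix_apply, ← RingHom.map_adjugate]
      exact Subtype.prop _
  obtain ⟨p, hp0⟩ := hT.regular i j
  rw [hp0]
  clear hp0
  have h0 : ∀ a b : μ, (1 : Matrix μ μ ℂ) a b ∈ L := by
    intro a b
    rw [Matrix.one_apply]
    split_ifs
    · exact L.one_mem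
    · exact L.zero_mem
  have h1 : ∀ e, crdT (dsum (1 : GL μ ℂ) r, (1 : ℂˣ)) e ∈ L := by
    rintro ((⟨a | a, b | b⟩ | ⟨a | a, b | b⟩) | (e | e))
    · exact h0 a b
    · exact L.zero_mem
    · exact L.zero_mem
    · exact hr a b
    · have h2 : ((1 : GL μ ℂ)⁻¹).1 = 1 := by
        rw [inv_one]
        rfl
      change ((1 : GL μ ℂ)⁻¹).1 a b ∈ L
      rw [h2]
      exact h0 a b
    · exact L.zero_mem
    · exact L.zero_mem
    · exact hr' a b
    · exact L.one_mem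
    · change ((1 : ℂˣ) : ℂ)⁻¹ ∈ L
      rw [Units.val_one, inv_one]
      exact L.one_mem
  induction p using MvPolynomial.induction_on with
  | C a =>
    rw [aeval_C]
    exact L.algebraMap_mem a
  | add p q hp hq => rw [map_add]; exact L.add_mem hp hq
  | mul_X p i hp => rw [map_mul, aeval_X]; exact L.mul_mem hp (h1 i)

/-- A sub-object of `T(M ⊕ R)`, where `R` has periods in `L`, is a sub-object of `T'(M)`. -/
theorem isSub_inc {ι : Type} [Fintype ι] [DecidableEq ι] {T : GL (μ ⊕ ν) ℂ × ℂˣ → GL κ ℂ}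
    (hT : IsRep T) {L : IntermediateField ℚ ℂ} {r : GL ν ℂ} (hr : ∀ i j, r.1 i j ∈ L)
    {x : GL μ ℂ} {z : ℂˣ} {n : GL ι ℂ} {iB : Matrix κ ι ℚ}
    (hn : IsSubOver L (T (dsum x r, z)) n iB) :
    IsSubOver L ((fun y : GL μ ℂ × ℂˣ => T (dsum y.1 1, y.2)) (x, z)) n iB := by
  obtain ⟨hinj, idR, hdR⟩ := hn
  refine ⟨hinj, (show Matrix κ κ L from fun i j =>
    ⟨(T (dsum (1 : GL μ ℂ) r, 1)).1 i j, rep_mem hT hr i j⟩) * idR, ?_⟩
  rw [← hdR]
  have h1 : T (dsum x r, z) = T (dsum x 1, z) * T (dsum (1 : GL μ ℂ) r, 1) := by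
    rw [← hT.mul]
    congr 1
    refine Prod.ext ?_ (mul_one z).symm
    change dsum x r = dsum x 1 * dsum 1 r
    rw [← ds_mul, mul_one, one_mul]
  rw [h1]
  change (T (dsum x 1, z)).1 * _ = (T (dsum x 1, z)).1 * (T (dsum (1 : GL μ ℂ) r, 1)).1 *
    idR.map (fun x => (x : ℂ))
  rw [Matrix.mul_assoc]
  congr 1
  ext i j
  simp only [Matrix.map_apply, Matrix.mul_apply]
  push_cast
  rfl

end add

end EqGM

end Pool.Agent.Lib.MPf11a48.SH
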