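import Pool.Agent.Lib.MP_f11a48_ag.SH.FA.Final

/-!
# MP_f11a48_ag, PROJECT S0: an additional clause of the final theorem

Over `Qbar` the torsor `Ω^dRB_N` is the Zariski closure of `MT_N c_N`.
-/

set_option autoImplicit false

open Matrix
open Pool.Agent.Lib.MPf11a48.CM hiding OmegaM
open Pool.Agent.Lib.MPf11a48.GL2T
open Pool.Agent.Lib.MPf11a48.U
open Pool.Agent.Lib.MPf11a48.CMS
open Pool.Agent.Lib.MPf11a48.C (IsRep tpi)
open Pool.Agent.Lib.MPf11a48.Tors (OmegaM ClosedOver)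

namespace Pool.Agent.Lib.MPf11a48.SH

/-- Proof (150 lines). `Tors.OmegaDRB_subset` (helper4/Main.lean): `Ω^dRB_N ⊆ T` for every
`Qbar`-torsor `T ∋ n` whose group is closed over `ℚ`.
(1) `M₁ = {x | ∃ z, (x, z) ∈ MT}` is `{x | x c ∈ Ω_{S₀}}`: a group (heap property of `Ω_{S₀}`, and
`1 ∈ M₁`), and `Ω^dRB_c = M₁ c` (`⊆` as all classes of `S₀` are fixed by `Ω^dRB_c`, `⊇` is `hsup`), so
`M₁ = grp (OmegaDRB Qbar c)` is closed over `ℚ` (`Tors.closedOver_GdRB`), hence stable under all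
automorphisms `τ` of `ℂ`. The factor `z` is determined by `x` (`x^T ψ x = z ψ`, `ψ ≠ 0`), so `MT` is a
group stable under all `τ`.
(2) `H = MTSub` is a group stable under all `τ` (`T` is a homomorphism over `ℚ`, `iB` has a rational
left inverse; `hstab`).
(3) For `τ` over `Qbar`: `τ c ∈ Ω_{S₀}` so `τ c = y c`, `(y, z) ∈ MT`, `z = τ(2πi)/(2πi)` by the
Legendre relation (`specLEG` of U: `c^T ψ c = 2πi ψ_dR`), and `τ n = f n` with `f ∈ H`,
`T (y ⊕ 1, z) iB = iB f`.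
(4) `Hbar` = the Zariski closure of `H` over `ℂ`: a group (standard), stable under all `τ`, so closed
over `ℚ` (`Tors.closedOver_of_stable`). `T = Hbar n` is closed, stable under the `τ` over `Qbar` by
(3), so it is closed over `Qbar`; it is a torsor with group `Hbar`. So `Ω^dRB_N ⊆ Hbar n`, and
`Hbar n` is contained in every `Z` closed over `Qbar` with `H n ⊆ Z`.
(5) `⊇`: `Ω^dRB_N` is closed over `Qbar` and contains `H n` (`hsub`). -/
def SpecEQ : Prop :=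
  ∀ (g N : ℕ) (_ : 0 < g) (A : AbData g N) (_ : A.IsAbVar Qbar) (c : GL (Ix g) ℂ) (_ : c.1 = A.per)
    (S₀ : Set (TPair Qbar (Ix g))) (_ : OmegaS S₀ = {f | ∃ y ∈ MT A c, f = y.1 * c})
    (_ : ∀ y ∈ MT A c, y.1 * c ∈ OmegaDRB Qbar c)
    (k : ℕ) (r : GL (Fin k) ℂ) (_ : IsAlg r.1)
    (κ ι : Type) [Fintype κ] [DecidableEq κ] [Fintype ι] [DecidableEq ι]
    (T : GL (Ix g ⊕ Fin k) ℂ × ℂˣ → GL κ ℂ) (_ : IsRep T) (n : GL ι ℂ) (iB : Matrix κ ι ℚ)
    (_ : IsSubOver Qbar (T (dsum c r, tpi)) n iB)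
    (_ : ∀ y ∈ MT A c, ∃ f : GL ι ℂ, (T (dsum y.1 1, y.2)).1 * iB.map (fun x => (x : ℂ)) =
      iB.map (fun x => (x : ℂ)) * f.1)
    (_ : ∀ f ∈ MTSub A c T iB, f * n ∈ OmegaDRB Qbar n),
    OmegaDRB Qbar n = {h | ∀ Z : Set (GL ι ℂ), ClosedOver Qbar Z →
      (∀ f ∈ MTSub A c T iB, f * n ∈ Z) → h ∈ Z}

end Pool.Agent.Lib.MPf11a48.SH
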