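import Pool.Agent.Lib.MP_f11a48_ag.SH.Spec
import Pool.Agent.Lib.MP_f11a48_ag.SH.D.Main

/-!
# MP_f11a48_ag, PROJECT S0: the relation between the periods of four CM types
-/

set_option autoImplicit false

open Matrix
open Pool.Agent.Lib.MPf11a48.CM hiding OmegaM
open Pool.Agent.Lib.MPf11a48.GL2T
open Pool.Agent.Lib.MPf11a48.U
open Pool.Agent.Lib.MPf11a48.CMS

namespace Pool.Agent.Lib.MPf11a48.SH

section Prep

variable {K : Type} [Field K] [NumberField K] {T : Type} [Fintype T] [DecidableEq T] {n : ℕ}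
  (F : Fam K T n)

theorem zero_mem_X : (0 : Fin n → ℂ) ∈ F.X := by
  intro d
  simpa using F.c_D d

theorem isOpen_X : IsOpen F.X := by
  have : F.X = ⋂ d, {z : Fin n → ℂ | ‖z d‖ ^ 2 < (F.sg (Sum.inr d) F.c).re} := by
    ext z
    simp only [Fam.X, Set.mem_ofPred_eq, Set.mem_iInter]
  rw [this]
  refine isOpen_iInter_of_finite fun d => ?_
  exact isOpen_lt (by fun_prop) continuous_const

theorem convex_X : Convex ℝ F.X := by
  intro x hx y hy a b ha hb hab d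
  have h1 := hx d
  have h2 := hy d
  have h3 : ‖(a • x + b • y) d‖ ≤ a * ‖x d‖ + b * ‖y d‖ := by
    rw [Pi.add_apply, Pi.smul_apply, Pi.smul_apply]
    refine (norm_add_le _ _).trans ?_
    rw [norm_smul, norm_smul, Real.norm_of_nonneg ha, Real.norm_of_nonneg hb]
  have h4 : ‖(a • x + b • y) d‖ ^ 2 ≤ (a * ‖x d‖ + b * ‖y d‖) ^ 2 :=
    pow_le_pow_left₀ (norm_nonneg _) h3 2
  have h5 : (a * ‖x d‖ + b * ‖y d‖) ^ 2 ≤ a * ‖x d‖ ^ 2 + b * ‖y d‖ ^ 2 := by
    have hb' : b = 1 - a := by linarith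
    subst hb'
    nlinarith [mul_nonneg ha hb, sq_nonneg (‖x d‖ - ‖y d‖),
      mul_nonneg (mul_nonneg ha hb) (sq_nonneg (‖x d‖ - ‖y d‖))]
  refine lt_of_le_of_lt (h4.trans h5) ?_
  rcases ha.eq_or_lt with h0 | h0
  · have : b = 1 := by linarith
    subst this
    rw [← h0]
    simpa using h2
  · nlinarith

theorem exists_level (u : K × K) : ∃ m : ℕ, 0 < m ∧ ∀ k : ℕ, ((k * m : ℕ) : ℚ) • u ∈ F.Lam := by
  classical
  refine ⟨∏ i, (F.b.repr u i).den, Finset.prod_pos fun i _ => (F.b.repr u i).den_pos, ?_⟩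
  intro k i
  refine ⟨k * (∏ j ∈ Finset.univ.erase i, ((F.b.repr u j).den : ℤ)) * (F.b.repr u i).num, ?_⟩
  rw [map_smul, Finsupp.smul_apply, smul_eq_mul]
  rw [← Finset.mul_prod_erase Finset.univ (fun j => (F.b.repr u j).den) (Finset.mem_univ i)]
  push_cast
  have h := Rat.den_mul_eq_num (F.b.repr u i)
  calc (k : ℚ) * ((F.b.repr u i).den * ∏ j ∈ Finset.univ.erase i, ((F.b.repr u j).den : ℚ)) *
        F.b.repr u i = k * (∏ j ∈ Finset.univ.erase i, ((F.b.repr u j).den : ℚ)) *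
          ((F.b.repr u i).den * F.b.repr u i) := by ring
    _ = _ := by rw [h]

theorem exists_level_fin {α : Type} [Finite α] (u : α → K × K) :
    ∃ m : ℕ, 0 < m ∧ ∀ i, (m : ℚ) • u i ∈ F.Lam := by
  classical
  cases nonempty_fintype α
  choose m hm hu using fun i => exists_level F (u i)
  refine ⟨∏ i, m i, Finset.prod_pos fun i _ => hm i, fun i => ?_⟩
  have := hu i (∏ j ∈ Finset.univ.erase i, m j)
  rwa [mul_comm, Finset.mul_prod_erase Finset.univ m (Finset.mem_univ i)] at this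

end Prep

theorem face_of (hCOC : SpecCOC) (hDEN : SpecDEN) (hANA : SpecANA) (hTRF : SpecTRF)
    (hNDG : SpecNDG) (hVAL : SpecVAL) : SpecFACE := by
  classical
  intro L g N A hL hA K _ _ T _ _ n F s p₁ p₂ p₃ p₄ h₁ h₂ h₃ h₄
  obtain ⟨⟨u₀, hu₀⟩, ⟨u₁, v₁, huv⟩, hnd⟩ := hNDG K T n F 0 (zero_mem_X F)
  -- the functions
  set g0 : (Fin n → ℂ) → ℂ := fun z => F.Kl z u₀ ^ 2 with hg0
  have hana : ∀ u, AnalyticOnNhd ℂ (fun z => F.Kl z u) F.X := fun u => (hANA K T n F u u).1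
  have hdiff : ∀ u, DifferentiableAt ℂ (fun z => F.Kl z u) 0 := fun u =>
    (hana u 0 (zero_mem_X F)).differentiableAt
  have hsel := D.specSEL n {f | ∃ u, f = fun z => F.Kl z u * F.Kl z u₀} g0 0
    (by simpa [hg0] using hu₀) (by
      intro v hv
      refine hnd u₀ hu₀ v fun u => ?_
      have h := hv _ ⟨u, rfl⟩
      have e1 : fderiv ℂ (fun z => F.Kl z u * F.Kl z u₀) 0 v =
          F.Kl 0 u * fderiv ℂ (fun y => F.Kl y u₀) 0 v +
            F.Kl 0 u₀ * fderiv ℂ (fun y => F.Kl y u) 0 v := by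
        have := (((hdiff u).hasFDerivAt).mul ((hdiff u₀).hasFDerivAt)).fderiv
        rw [show (fun z => F.Kl z u * F.Kl z u₀) = (fun z => F.Kl z u) * fun z => F.Kl z u₀ from rfl,
          this]
        simp
      have e2 : fderiv ℂ g0 0 v = 2 * F.Kl 0 u₀ * fderiv ℂ (fun y => F.Kl y u₀) 0 v := by
        have := (((hdiff u₀).hasFDerivAt).mul ((hdiff u₀).hasFDerivAt)).fderiv
        rw [show g0 = (fun z => F.Kl z u₀) * fun z => F.Kl z u₀ by
          funext z; simp [hg0, sq], this]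
        simp
        ring
      rw [e1, e2] at h
      have h3 : F.Kl 0 u₀ ^ 2 * (F.Kl 0 u₀ * fderiv ℂ (fun y => F.Kl y u) 0 v -
          F.Kl 0 u * fderiv ℂ (fun y => F.Kl y u₀) 0 v) = 0 := by
        have : g0 0 = F.Kl 0 u₀ ^ 2 := rfl
        rw [this] at h
        linear_combination h
      rcases mul_eq_zero.1 h3 with h4 | h4
      · exact absurd h4 (pow_ne_zero 2 hu₀)
      · linear_combination h4)
  obtain ⟨gg, hgg0, hggs, hggn⟩ := hsel
  have hU : ∀ i : Fin n, ∃ u, gg i.succ = fun z => F.Kl z u * F.Kl z u₀ := by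
    intro i
    rcases hggs i with h | h
    · exact h
    · exact ⟨u₀, by rw [h, hg0]; funext z; ring⟩
  choose U hUg using hU
  -- the level
  obtain ⟨m, hm, hlev⟩ := exists_level_fin F
    (Sum.elim U ![u₀, u₁, v₁] : Fin n ⊕ Fin 3 → K × K)
  have hl0 : (m : ℚ) • u₀ ∈ F.Lam := by simpa using hlev (Sum.inr 0)
  have hl1 : (m : ℚ) • u₁ ∈ F.Lam := by simpa using hlev (Sum.inr 1)
  have hl2 : (m : ℚ) • v₁ ∈ F.Lam := by simpa using hlev (Sum.inr 2)
  have hlU : ∀ i, (m : ℚ) • U i ∈ F.Lam := fun i => by simpa using hlev (Sum.inl i)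
  obtain ⟨Nrm, hNc, hNp, hN⟩ := hTRF K T n F
  obtain ⟨M, hM, hT⟩ := hN m hm
  obtain ⟨C, hCc, hCX, hC⟩ := hCOC K T n F M hM
  choose cf hcf using hT
  let S : D.Setup n :=
    { X := F.X
      K := C
      φ := fun z => (Nrm z ^ 2)⁻¹
      G := F.Gam M
      act := fun γ z => γ.act z
      fac := fun γ z => if h : z ∈ F.X ∧ γ.act z ∈ F.X then cf γ z h.1 h.2 ^ 2 else 1
      open_X := isOpen_X F
      conn_X := (convex_X F).isPreconnected
      nonempty_X := ⟨0, zero_mem_X F⟩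
      compact_K := hCc
      K_sub := hCX
      cont_φ := (hNc.pow 2).inv₀ fun z hz => pow_ne_zero 2 (hNp z hz).ne'
      pos_φ := fun z hz => inv_pos.2 (pow_pos (hNp z hz) 2)
      cocompact := hC
      inv_φ := by
        intro γ z hz hγ
        have h : z ∈ F.X ∧ γ.act z ∈ F.X := ⟨hz, hCX hγ⟩
        rw [dif_pos h]
        have h1 := (hcf γ z h.1 h.2).1
        have h2 := hNp z hz
        have h3 := hNp _ h.2
        have h4 : ‖cf γ z h.1 h.2‖ ≠ 0 := by
          intro h0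
          rw [h0, zero_mul] at h1
          exact h3.ne h1
        rw [← h1, norm_pow, mul_pow, mul_inv, ← mul_assoc, mul_inv_cancel₀ (pow_ne_zero 2 h4),
          one_mul] }
  have hform : ∀ u v : K × K, (m : ℚ) • u ∈ F.Lam → (m : ℚ) • v ∈ F.Lam →
      S.Form (fun z => F.Kl z u * F.Kl z v) := by
    intro u v hu hv
    refine ⟨(hana u).mul (hana v), ?_⟩
    intro γ z hz hγ
    have h : z ∈ F.X ∧ γ.act z ∈ F.X := ⟨hz, hCX hγ⟩
    change F.Kl (γ.act z) u * F.Kl (γ.act z) v = (if h : z ∈ F.X ∧ γ.act z ∈ F.X then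
      cf γ z h.1 h.2 ^ 2 else 1) * (F.Kl z u * F.Kl z v)
    rw [dif_pos h, (hcf γ z h.1 h.2).2.1 u hu, (hcf γ z h.1 h.2).2.1 v hv]
    ring
  have hformH : S.Form (fun z => F.HD z u₁ v₁) := by
    refine ⟨(hANA K T n F u₁ v₁).2, ?_⟩
    intro γ z hz hγ
    have h : z ∈ F.X ∧ γ.act z ∈ F.X := ⟨hz, hCX hγ⟩
    change F.HD (γ.act z) u₁ v₁ = (if h : z ∈ F.X ∧ γ.act z ∈ F.X then
      cf γ z h.1 h.2 ^ 2 else 1) * F.HD z u₁ v₁
    rw [dif_pos h, (hcf γ z h.1 h.2).2.2 u₁ v₁ hl1 hl2]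
  have hformg0 : S.Form g0 := by
    have := hform u₀ u₀ hl0 hl0
    rwa [show (fun z => F.Kl z u₀ * F.Kl z u₀) = g0 by rw [hg0]; funext z; ring] at this
  have hd : ∀ p : T ⊕ Fin n → ℂ, ∀ t : Set (Fin n), CMPiece A (F.typ t) p →
      p (Sum.inl F.t0) ≠ 0 := fun p t h => h.1 _
  have key := D.fin_all n S (fun z => F.HD z u₁ v₁) g0 (Set.range fun i : Fin n => gg i.succ) 0
    hformH hformg0 (by
      rintro _ ⟨i, rfl⟩
      dsimp only
      rw [hUg i]
      exact hform _ _ (hlU i) hl0)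
    ⟨0, zero_mem_X F, huv⟩ (zero_mem_X F) (pow_ne_zero 2 hu₀) (by
      intro v hv
      refine hggn v fun i => ?_
      rcases Fin.eq_zero_or_eq_succ i with h | ⟨j, h⟩
      · subst h; ring
      · subst h
        rw [hgg0]
        exact hv _ ⟨j, rfl⟩)
    ![F.P ∅, F.P s] ![p₁ (Sum.inl F.t0) * p₂ (Sum.inl F.t0), p₃ (Sum.inl F.t0) * p₄ (Sum.inl F.t0)]
    (by
      intro ν
      fin_cases ν
      · exact fun z hz => hz.1
      · exact fun z hz => hz.1)
    (by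
      intro ν
      fin_cases ν
      · exact hDEN K T n F ∅
      · exact hDEN K T n F s)
    (by
      intro ν
      fin_cases ν
      · exact mul_ne_zero (hd _ _ h₁) (hd _ _ h₂)
      · exact mul_ne_zero (hd _ _ h₃) (hd _ _ h₄))
    (by
      have hgen : ∀ (t : Set (Fin n)) (p q : T ⊕ Fin n → ℂ), CMPiece A (F.typ t) p →
          CMPiece A (F.typ tᶜ) q → ∀ z ∈ F.P t, ∃ ρ : ℂ, ρ ≠ 0 ∧ IsAlgebraic ℚ (g0 z / ρ) ∧
          (∀ f ∈ Set.range fun i : Fin n => gg i.succ, IsAlgebraic ℚ (f z / ρ)) ∧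
          IsAlgebraic ℚ (F.HD z u₁ v₁ / ((p (Sum.inl F.t0) * q (Sum.inl F.t0)) * ρ)) := by
        intro t p q hp hq z hz
        obtain ⟨Om, hOm, hk, hh⟩ := hVAL L g N A hL hA K T n F t p q hp hq z hz
        have halg : ∀ x ∈ Qbar, IsAlgebraic ℚ x := fun x hx => mem_algebraicClosure_iff.1 hx
        refine ⟨Om ^ 2, pow_ne_zero 2 hOm, ?_, ?_, ?_⟩
        · have := (halg _ (hk u₀)).pow 2
          rwa [div_pow] at this
        · rintro _ ⟨i, rfl⟩
          dsimp only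
          rw [hUg i]
          have := (halg _ (hk (U i))).mul (halg _ (hk u₀))
          rwa [div_mul_div_comm, ← sq] at this
        · have := halg _ (hh u₁ v₁)
          rwa [mul_comm (Om ^ 2)] at this
      intro ν
      fin_cases ν
      · exact hgen ∅ p₁ p₂ h₁ (by rwa [Set.compl_empty])
      · exact hgen s p₃ p₄ h₃ h₄)
  exact mem_algebraicClosure_iff.2 key

end Pool.Agent.Lib.MPf11a48.SH
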