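import Pool.Agent.Lib.MP_f11a48_ag.SH.FA.Face
import Pool.Agent.Lib.MP_f11a48_ag.CMK.AllK

/-!
# MP_f11a48_ag, PROJECT S0: the final theorem, from `SpecS0`

`TARGET` is the statement of the new version of the hand-in `CMMotives`: it is the statement of the
present hand-in without the hypothesis on `S₀`, with a new first clause.
-/

set_option autoImplicit false

open Matrix
open Pool.Agent.Lib.MPf11a48.CM hiding OmegaM
open Pool.Agent.Lib.MPf11a48.GL2T
open Pool.Agent.Lib.MPf11a48.U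
open Pool.Agent.Lib.MPf11a48.CMS
open Pool.Agent.Lib.MPf11a48.C (IsRep tpi)
open Pool.Agent.Lib.MPf11a48.Tors (OmegaM)

namespace Pool.Agent.Lib.MPf11a48.SH

/-- The statement of the new hand-in. Let `A` be a polarised abelian variety over `L ⊆ Qbar`, `c` the
period matrix of `h^1(A)`, and suppose that the simple factors of `A` over `Qbar` are of
`GL_2`-type or have complex multiplication, that `E` is a number field with `FlatOver F L E` which
contains the reflex fields of the simple factors with complex multiplication, and that all CM types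
of `E` occur in `A`. Then some de Rham-Betti classes of `h^1(A)` over `Qbar` cut out exactly the
torsor of the Mumford-Tate group, and for all objects `N` ... (as in the present hand-in). -/
def TARGET : Prop :=
  ∀ (g N : ℕ) (_ : 0 < g) (A : AbData g N) (L : IntermediateField ℚ ℂ) (_ : L ≤ Qbar)
    (_ : A.IsAbVar L) (c : GL (Ix g) ℂ) (_ : c.1 = A.per) (_ : GL2Like c.1 A.psi)
    (F : IntermediateField ℚ ℂ) (_ : F ≤ Qbar) (_ : ConjOver F c.1 A.psi)
    (E : Sub) (_ : FiniteDimensional ℚ E) (_ : FlatOver F L E) (_ : AllTypes A c.1 E)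
    (k : ℕ) (r : GL (Fin k) ℂ) (_ : IsAlg r.1) (K : IntermediateField ℚ ℂ) (_ : K ≤ L)
    (κ ι : Type) [Fintype κ] [DecidableEq κ] [Fintype ι] [DecidableEq ι]
    (T : GL (Ix g ⊕ Fin k) ℂ × ℂˣ → GL κ ℂ) (_ : IsRep T) (n : GL ι ℂ) (iB : Matrix κ ι ℚ)
    (_ : IsSubOver L (T (dsum c r, tpi)) n iB),
    (∃ S₀ : Set (TPair Qbar (Ix g)), OmegaS S₀ = {f | ∃ y ∈ MT A c, f = y.1 * c}) ∧
    (∀ y ∈ MT A c, ∃ f : GL ι ℂ, (T (dsum y.1 1, y.2)).1 * iB.map (fun x => (x : ℂ)) =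
      iB.map (fun x => (x : ℂ)) * f.1) ∧
    (∀ f ∈ MTSub A c T iB, ∀ h, Conj K (f * n) h →
      h ∈ OmegaDRB K n ∧ (K ≤ F → h ∈ OmegaM K n)) ∧
    ∀ S : Set (TPair K ι), (∀ α ∈ S, Fixes n α) →
      (∀ h ∈ OmegaS S, ∃ f ∈ MTSub A c T iB, Conj K (f * n) h) →
      OmegaDRB K n = OmegaS S ∧ (K ≤ F → OmegaM K n = OmegaS S)

/-- Part CLS, with the second inclusion. -/
def SpecCLSE : Prop :=
  ∀ (L : IntermediateField ℚ ℂ) (g N : ℕ) (A : AbData g N) (c : GL (Ix g) ℂ), 0 < g → L ≤ Qbar →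
    A.IsAbVar L → c.1 = A.per →
    GL2Like c.1 A.psi → ∀ p, IsPer A c p →
    (∀ χ : EmbC c.1 → ℤ, HodgeRel A.psi (Tan A c.1) χ → ∏ s : EmbC c.1, p s ^ χ s ∈ Qbar) →
    ∃ S₀ : Set (TPair Qbar (Ix g)), (∀ α ∈ S₀, Fixes c α) ∧
      OmegaS S₀ = {f | ∃ y ∈ MT A c, f = y.1 * c}

/-- The final theorem. -/
theorem target_of (hPER : SpecPER) (hHOD : SpecHOD) (hCLS : SpecCLSE) : TARGET := by
  intro g N hg A L hL hA c hc hGL F hF hconj E hE hflat hall k r hr K hK κ ι _ _ _ _ T hT n iB hn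
  obtain ⟨p, hp⟩ := hPER L g N A c hg hL hA hc hGL
  obtain ⟨S₀, hS₀, hMT⟩ := hCLS L g N A c hg hL hA hc hGL p hp
    (hHOD L g N A c hg hL hA hc hGL E hE hall p hp)
  obtain ⟨-, h⟩ := mainK g N hg A L hL hA c hc
  refine ⟨⟨S₀, hMT⟩, ?_⟩
  exact (h hGL F hF hconj).1 (Or.inr ⟨⟨S₀, hS₀, fun f hf => by rwa [hMT] at hf⟩, E,
    ⟨hE, Or.inl hflat⟩, hall⟩) k r hr K hK κ ι T hT n iB hn

end Pool.Agent.Lib.MPf11a48.SH
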