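import Pool.Agent.Lib.MP_f11a48_ag.SH.FA.Typ
import Pool.Agent.Lib.MP_f11a48_ag.SH.FA.Eq
import Pool.Agent.Lib.MP_f11a48_ag.CMK.AllK

/-!
# MP_f11a48_ag, PROJECT S0: if the centre is separated, the Mumford-Tate group is the Lefschetz group

(helper4)
-/

set_option autoImplicit false

open Matrix
open Pool.Agent.Lib.MPf11a48.CM hiding OmegaM GalQ
open Pool.Agent.Lib.MPf11a48.GL2T
open Pool.Agent.Lib.MPf11a48.U
open Pool.Agent.Lib.MPf11a48.CMS
open Pool.Agent.Lib.MPf11a48.C (IsRep tpi)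
open Pool.Agent.Lib.MPf11a48.Tors (OmegaM ClosedOver)

namespace Pool.Agent.Lib.MPf11a48.SH

namespace LefM

open ClsM

section

variable {ι : Type} [Fintype ι] [DecidableEq ι] {c : Matrix ι ι ℂ} {ψ : Matrix ι ι ℚ}
  {T : Set (EmbC c)}

open scoped Classical in
/-- the odd relations, transformed by an automorphism -/
theorem oddH_act (hT : CMM.HalfSet ψ T) {f : EmbC c → ℚ} (hf : f ∈ CMM.OddH ψ T) (γ : GalQ) :
    (fun s => f (CMS.act γ s)) ∈ CMM.OddH ψ T := by
  have key : ∀ δ : GalQ, (∑ s : EmbC c, if CMS.act δ s ∈ T then f (CMS.act γ s) else 0) = 0 := by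
    intro δ
    have h1 : (∑ s : EmbC c, if CMS.act (δ * γ⁻¹) s ∈ T then f s else 0) = 0 :=
      hf.2 (δ * γ⁻¹ : GalQ)
    refine Eq.trans ?_ h1
    refine Fintype.sum_equiv (SH.A.RelM.eqv (c := c) γ) _ _ fun s => ?_
    change (if CMS.act δ s ∈ T then f (CMS.act γ s) else 0) =
      if CMS.act (δ * γ⁻¹) (CMS.act γ s) ∈ T then f (CMS.act γ s) else 0
    rw [SH.A.RelM.act_mul, SH.A.RelM.act_inv_act]
  exact ⟨fun s s' h => hf.1 _ _ (hT.2.2.2.2.1 γ _ _ h), fun δ => key δ⟩

theorem sum_delta (s s' t t' : EmbC c) (P : EmbC c → Prop) [DecidablePred P] :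
    (∑ r : EmbC c, if P r then (delta s s' - delta t t') r else 0) =
      (if P s then (1 : ℚ) else 0) - (if P s' then 1 else 0) - (if P t then 1 else 0) +
        (if P t' then 1 else 0) := by
  classical
  have h1 : ∀ a : EmbC c, (∑ r : EmbC c, if P r then (Pi.single a (1 : ℚ) : EmbC c → ℚ) r else 0) =
      if P a then (1 : ℚ) else 0 := by
    intro a
    rw [Finset.sum_eq_single a]
    · rw [Pi.single_eq_same]
    · intro b _ hb
      rw [Pi.single_eq_of_ne hb, ite_self]
    · intro h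
      exact absurd (Finset.mem_univ _) h
  have h2 : ∀ r : EmbC c, (if P r then (delta s s' - delta t t') r else 0) =
      (if P r then (Pi.single s (1 : ℚ) : EmbC c → ℚ) r else 0) -
        (if P r then (Pi.single s' (1 : ℚ) : EmbC c → ℚ) r else 0) -
        (if P r then (Pi.single t (1 : ℚ) : EmbC c → ℚ) r else 0) +
        (if P r then (Pi.single t' (1 : ℚ) : EmbC c → ℚ) r else 0) := by
    intro r
    split_ifs
    · simp only [delta, Pi.sub_apply]
      ring
    · simp
  rw [Finset.sum_congr rfl fun r _ => h2 r, Finset.sum_add_distrib, Finset.sum_sub_distrib,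
    Finset.sum_sub_distrib, h1, h1, h1, h1]

theorem delta_self (s : EmbC c) : delta s s = 0 := sub_self _

end

variable {g N : ℕ} {A : AbData g N} {c : GL (Ix g) ℂ}

/-- there are no odd relations between the CM types -/
theorem oddH_bot {L F : IntermediateField ℚ ℂ} (hL : L ≤ Qbar) (hA : A.IsAbVar L)
    (hc : c.1 = A.per) (hGL : GL2Like c.1 A.psi) (hsep : SepOver F c.1 A.psi) :
    CMM.OddH A.psi (Tan A c.1) = ⊥ := by
  classical
  have hT : CMM.HalfSet A.psi (Tan A c.1) := CMM.tan' L g N A c hL hA hc hGL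
  by_contra hne
  obtain ⟨s, s', t, t', hs, ht, hmem, hne'⟩ := hsep _ hne (fun f hf => hf.1)
    fun γ _ f hf => oddH_act hT hf γ
  have hrel : ∀ γ : GalQ, (if CMS.act γ s ∈ Tan A c.1 then (1 : ℚ) else 0) -
      (if CMS.act γ s' ∈ Tan A c.1 then 1 else 0) - (if CMS.act γ t ∈ Tan A c.1 then 1 else 0) +
        (if CMS.act γ t' ∈ Tan A c.1 then 1 else 0) = 0 := by
    intro γ
    rw [← sum_delta s s' t t' (fun r => CMS.act γ r ∈ Tan A c.1)]
    have h1 := hmem.2 γ
    exact h1
  -- exactly one of two conjugate embeddings is in `Tan`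
  have hone : ∀ {a a' : EmbC c.1}, IsBar A.psi a a' → a ≠ a' → ∀ γ : GalQ,
      (if CMS.act γ a ∈ Tan A c.1 then (1 : ℚ) else 0) -
        (if CMS.act γ a' ∈ Tan A c.1 then 1 else 0) =
      if CMS.act γ a ∈ Tan A c.1 then (1 : ℚ) else -1 := by
    intro a a' ha hne γ
    have h1 := hT.2.2.2.2.2 _ _ (hT.2.2.2.2.1 γ _ _ ha)
      fun h => hne (SH.A.RelM.act_inj γ h)
    have h1' : CMS.act γ a' ∈ Tan A c.1 ↔ CMS.act γ a ∉ Tan A c.1 := h1
    by_cases h2 : CMS.act γ a ∈ Tan A c.1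
    · rw [if_pos h2, if_pos h2, if_neg fun h3 => (h1'.1 h3) h2, sub_zero]
    · rw [if_neg h2, if_neg h2, if_pos (h1'.2 h2), zero_sub]
  by_cases e1 : s = s'
  · subst e1
    have e2 : t ≠ t' := by
      rintro rfl
      apply hne'
      rw [delta_self, delta_self]
    have h1 := hrel 1
    have h2 := hone ht e2 1
    split_ifs at h1 h2 <;> linarith
  by_cases e2 : t = t'
  · subst e2
    have h1 := hrel 1
    have h2 := hone hs e1 1
    split_ifs at h1 h2 <;> linarith
  · have hsr : ¬ IsBar A.psi s s := fun h => e1 (hT.2.1 s s s' h hs)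
    have htr : ¬ IsBar A.psi t t := fun h => e2 (hT.2.1 t t t' h ht)
    have hst : s = t := by
      refine TypM.types_inj hL hA hc hGL hsr htr fun γ => ?_
      have h1 := hrel γ
      have h2 := hone hs e1 γ
      have h3 := hone ht e2 γ
      have h4 : (if CMS.act γ s ∈ Tan A c.1 then (1 : ℚ) else -1) =
          if CMS.act γ t ∈ Tan A c.1 then (1 : ℚ) else -1 := by
        rw [← h2, ← h3]
        linarith
      constructor
      · intro h5
        by_contra h6
        rw [if_pos h5, if_neg h6] at h4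
        norm_num at h4
      · intro h5
        by_contra h6
        rw [if_neg h6, if_pos h5] at h4
        norm_num at h4
    subst hst
    apply hne'
    rw [hT.2.1 _ _ _ hs ht]

/-- If the centre is separated then the Mumford-Tate group is the group of all similitudes which
commute with the endomorphisms. -/
theorem mt_of_lef {L F : IntermediateField ℚ ℂ} (hL : L ≤ Qbar) (hA : A.IsAbVar L)
    (hc : c.1 = A.per) (hGL : GL2Like c.1 A.psi) (hsep : SepOver F c.1 A.psi)
    {y : GL (Ix g) ℂ × ℂˣ}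
    (h1 : ∀ Z ∈ EndAlg c.1, y.1.1 * Z.map (fun x => (x : ℂ)) = Z.map (fun x => (x : ℂ)) * y.1.1)
    (h2 : y.1.1ᵀ * A.psi.map (fun x => (x : ℂ)) * y.1.1 =
      (y.2 : ℂ) • A.psi.map (fun x => (x : ℂ))) : y ∈ MT A c := by
  classical
  refine ⟨h1, h2, ?_⟩
  obtain ⟨⟨J', hJ''⟩, -⟩ := hda' specTL' L g N A c hL hA hc
  have hJ' : HD c J' A.psi := hJ''
  obtain ⟨S⟩ : Nonempty (Str c A.psi) := CMM.str' c J' _ hJ' hGL
  have hT : CMM.HalfSet A.psi (Tan A c.1) := CMM.tan' L g N A c hL hA hc hGL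
  obtain ⟨X, Y, hXY⟩ := exists_pre S h1
  rw [relOK_iff S hXY]
  intro χ hχ
  have hρ : IsConj SH.A.RelM.rho := SH.A.RelM.isConj_rho
  set ρ : GalQ := SH.A.RelM.rho with hρd
  have hbar : ∀ s : EmbC c.1, IsBar A.psi s (CMS.act ρ s) := SH.A.RelM.isBar_act hT hρ
  have hbb : ∀ s : EmbC c.1, CMS.act ρ (CMS.act ρ s) = s := fun s => by
    rw [← SH.A.RelM.act_mul, SH.A.RelM.isConj_mul_self hρ, SH.A.RelM.act_one]
  -- the odd part
  have hodd : (fun s => (χ s : ℚ) - χ (CMS.act ρ s)) ∈ CMM.OddH A.psi (Tan A c.1) := by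
    have key : ∀ γ : GalQ, (∑ s : EmbC c.1, if CMS.act γ s ∈ Tan A c.1 then
        ((χ s : ℚ) - χ (CMS.act ρ s)) else 0) = 0 := by
      intro γ
      have hcast : ∀ δ : GalQ,
          (∑ s : EmbC c.1, if CMS.act δ s ∈ Tan A c.1 then (χ s : ℚ) else 0) = 0 := by
        intro δ
        have h4 : (∑ s : EmbC c.1, if CMS.act δ s ∈ Tan A c.1 then χ s else 0) = 0 := hχ.2 δ
        have h5 := congrArg (fun z : ℤ => (z : ℚ)) h4
        push_cast at h5
        exact h5
      have h3 := hcast γ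
      have h6 : (∑ s : EmbC c.1, if CMS.act γ s ∈ Tan A c.1 then (χ (CMS.act ρ s) : ℚ) else 0) =
          0 := by
        refine Eq.trans ?_ (hcast (γ * ρ))
        refine Fintype.sum_equiv (SH.A.RelM.eqv (c := c.1) ρ) _ _ fun s => ?_
        change (if CMS.act γ s ∈ Tan A c.1 then (χ (CMS.act ρ s) : ℚ) else 0) =
          if CMS.act (γ * ρ) (CMS.act ρ s) ∈ Tan A c.1 then (χ (CMS.act ρ s) : ℚ) else 0
        rw [SH.A.RelM.act_mul, hbb]
      have h7 : ∀ s : EmbC c.1, (if CMS.act γ s ∈ Tan A c.1 then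
          ((χ s : ℚ) - χ (CMS.act ρ s)) else 0) =
          (if CMS.act γ s ∈ Tan A c.1 then (χ s : ℚ) else 0) -
            (if CMS.act γ s ∈ Tan A c.1 then (χ (CMS.act ρ s) : ℚ) else 0) := by
        intro s
        split_ifs
        · rfl
        · rw [sub_zero]
      rw [Finset.sum_congr rfl fun s _ => h7 s, Finset.sum_sub_distrib, h3, h6, sub_zero]
    refine ⟨fun s s' h => ?_, fun γ => ?_⟩
    · have e : s' = CMS.act ρ s := hT.2.1 s _ _ h (hbar s)
      change (χ s' : ℚ) - χ (CMS.act ρ s') = -((χ s : ℚ) - χ (CMS.act ρ s))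
      rw [e, hbb]
      ring
    · refine Eq.trans (Finset.sum_congr rfl fun s _ => ?_) (key γ)
      congr
  rw [oddH_bot hL hA hc hGL hsep, Submodule.mem_bot] at hodd
  have heven : ∀ s, χ s = χ (CMS.act ρ s) := by
    intro s
    have h3 := congrFun hodd s
    have h4 : (χ s : ℚ) = χ (CMS.act ρ s) := sub_eq_zero.1 h3
    exact_mod_cast h4
  -- the sum
  have hsum : ∑ s : EmbC c.1, χ s = 0 := by
    have h3 := hχ.2 1
    have h4 := hχ.2 ρ
    have h5 : ∀ s : EmbC c.1, χ s = (if CMS.act 1 s ∈ Tan A c.1 then χ s else 0) +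
        (if CMS.act ρ s ∈ Tan A c.1 then χ s else 0) := by
      intro s
      rw [SH.A.RelM.act_one]
      by_cases hs : IsBar A.psi s s
      · rw [hχ.1 s hs]
        simp
      · have hne : s ≠ CMS.act ρ s := by
          intro h
          apply hs
          have h8 := hbar s
          rwa [← h] at h8
        have h6 := hT.2.2.2.2.2 s _ (hbar s) hne
        by_cases h7 : s ∈ Tan A c.1
        · rw [if_pos h7, if_neg fun h8 => h6.1 h8 h7, add_zero]
        · rw [if_neg h7, if_pos (h6.2 h7), zero_add]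
    rw [Finset.sum_congr rfl fun s _ => h5 s, Finset.sum_add_distrib]
    have h3' : (∑ s : EmbC c.1, if CMS.act 1 s ∈ Tan A c.1 then χ s else 0) = 0 := by
      convert h3
    have h4' : (∑ s : EmbC c.1, if CMS.act ρ s ∈ Tan A c.1 then χ s else 0) = 0 := by
      convert h4
    rw [h3', h4', add_zero]
  -- the components
  have hY := (CMK.specRlk (Ix g) c J' A.psi (Tan A c.1) S hJ' hT y (X, Y) hXY.symm (by
    exact h2)).1 (fun j => χ (S.ev (Sum.inr j))) (by
      have h3 : ∑ s : EmbC c.1, χ s = ∑ e : S.κ ⊕ S.σ, χ (S.ev e) :=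
        (Equiv.sum_comp S.ev χ).symm
      rw [hsum, Fintype.sum_sum_type] at h3
      have h4 : ∑ k : S.κ, χ (S.ev (Sum.inl k)) = 0 :=
        Finset.sum_eq_zero fun k _ => hχ.1 _ (S.bar_κ k)
      rw [h4, zero_add] at h3
      exact h3.symm) (fun j => by
      rw [heven (S.ev (Sum.inr j))]
      congr 1
      exact hT.2.1 _ _ _ (hbar _) (S.bar_σ j))
  rw [← Equiv.prod_comp S.ev, Fintype.prod_sum_type]
  have h5 : ∏ k : S.κ, uu S Y (S.ev (Sum.inl k)) ^ χ (S.ev (Sum.inl k)) = 1 :=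
    Finset.prod_eq_one fun k _ => by rw [hχ.1 _ (S.bar_κ k), zpow_zero]
  rw [h5, one_mul]
  have h6 : ∀ j : S.σ, uu S Y (S.ev (Sum.inr j)) ^ χ (S.ev (Sum.inr j)) =
      Y j ^ χ (S.ev (Sum.inr j)) := fun j => by rw [uu_inr]
  rw [Finset.prod_congr rfl fun j _ => h6 j]
  exact hY

end LefM

end Pool.Agent.Lib.MPf11a48.SH
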