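import Pool.Agent.Lib.MP_f11a48_ag.SH.FA.EqG
import Pool.Agent.Lib.MP_f11a48_ag.SH.FA.Lef

/-!
# MP_f11a48_ag, PROJECT S0: motives of Lefschetz type, the exact equality (helper4)

`lef_eq`: if the centre is separated, then `Ω^dRB_N` is the union of the conjugates over `L` of
`MT_N c_N`, for every object `N` over `L` which is a sub-object over `L` of a tensor construction in
`h^1(A) ⊕ R` and `ℚ(-1)`, where `R` has periods in `L`.
-/

set_option autoImplicit false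

open Matrix MvPolynomial
open Pool.Agent.Lib.MPf11a48.CM hiding OmegaM tw
open Pool.Agent.Lib.MPf11a48.GL2T
open Pool.Agent.Lib.MPf11a48.U
open Pool.Agent.Lib.MPf11a48.CMS
open Pool.Agent.Lib.MPf11a48.C (IsRep tpi crdT VarT)
open Pool.Agent.Lib.MPf11a48.Tors (OmegaM ClosedOver ClosedC IsTorsor grp GdRBS ent FixesField)

namespace Pool.Agent.Lib.MPf11a48.SH

namespace LefEqM

open EqM EqGM

variable {g N : ℕ} {A : AbData g N} {c : GL (Ix g) ℂ}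

/-- the group of `h^1(A) ⊕ ℚ(-1)` -/
noncomputable def GS (L : IntermediateField ℚ ℂ) (A : AbData g N) (c : GL (Ix g) ℂ) :
    Subgroup (GL (Ix g) ℂ × ℂˣ) where
  carrier := {y | y.1 ∈ GdRBS L c ∧ y.1.1ᵀ * ps A * y.1.1 = (y.2 : ℂ) • ps A}
  one_mem' := by
    refine ⟨(GdRBS L c).one_mem, ?_⟩
    change (1 : Matrix (Ix g) (Ix g) ℂ)ᵀ * ps A * 1 = (1 : ℂ) • ps A
    rw [Matrix.transpose_one, Matrix.one_mul, Matrix.mul_one, one_smul]
  mul_mem' := by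
    intro x y hx hy
    refine ⟨(GdRBS L c).mul_mem hx.1 hy.1, ?_⟩
    change (x.1.1 * y.1.1)ᵀ * ps A * (x.1.1 * y.1.1) = ((x.2 : ℂ) * (y.2 : ℂ)) • ps A
    calc (x.1.1 * y.1.1)ᵀ * ps A * (x.1.1 * y.1.1)
        = y.1.1ᵀ * (x.1.1ᵀ * ps A * x.1.1) * y.1.1 := by
          rw [Matrix.transpose_mul]
          simp only [Matrix.mul_assoc]
      _ = (x.2 : ℂ) • (y.1.1ᵀ * ps A * y.1.1) := by
          rw [hx.2, Matrix.mul_smul, Matrix.smul_mul]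
      _ = _ := by rw [hy.2, smul_smul]
  inv_mem' := by
    intro x hx
    refine ⟨(GdRBS L c).inv_mem hx.1, ?_⟩
    have hxx : x.1.1 * x.1⁻¹.1 = 1 := x.1.mul_inv
    have hxx' : x.1⁻¹.1ᵀ * x.1.1ᵀ = 1 := by
      rw [← Matrix.transpose_mul, hxx, Matrix.transpose_one]
    change x.1⁻¹.1ᵀ * ps A * x.1⁻¹.1 = ((x.2⁻¹ : ℂˣ) : ℂ) • ps A
    have h1 : ps A = ((x.2⁻¹ : ℂˣ) : ℂ) • (x.1.1ᵀ * ps A * x.1.1) := by
      rw [hx.2, smul_smul, Units.inv_mul, one_smul]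
    calc x.1⁻¹.1ᵀ * ps A * x.1⁻¹.1
        = x.1⁻¹.1ᵀ * (((x.2⁻¹ : ℂˣ) : ℂ) • (x.1.1ᵀ * ps A * x.1.1)) * x.1⁻¹.1 := by rw [← h1]
      _ = ((x.2⁻¹ : ℂˣ) : ℂ) • ((x.1⁻¹.1ᵀ * x.1.1ᵀ) * ps A * (x.1.1 * x.1⁻¹.1)) := by
          rw [Matrix.mul_smul, Matrix.smul_mul]
          simp only [Matrix.mul_assoc]
      _ = _ := by rw [hxx', hxx, Matrix.one_mul, Matrix.mul_one]

theorem GS_tw (L : IntermediateField ℚ ℂ) (τ : ℂ ≃+* ℂ) (y : GL (Ix g) ℂ × ℂˣ)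
    (hy : y ∈ GS L A c) : tw2 τ y ∈ GS L A c := by
  refine ⟨Tors.GdRB_tw τ hy.1, ?_⟩
  have h1 := congrArg (fun X : Matrix (Ix g) (Ix g) ℂ => X.map (τ : ℂ →+* ℂ)) hy.2
  beta_reduce at h1
  rw [Matrix.map_mul, Matrix.map_mul] at h1
  have h2 : (ps A).map (τ : ℂ →+* ℂ) = ps A := ps_tw τ
  have h3 : (y.1.1ᵀ).map (τ : ℂ →+* ℂ) = (Tors.tw τ y.1).1ᵀ := rfl
  have h4 : y.1.1.map (τ : ℂ →+* ℂ) = (Tors.tw τ y.1).1 := rfl
  have h5 : ((y.2 : ℂ) • ps A).map (τ : ℂ →+* ℂ) = τ (y.2 : ℂ) • ps A := by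
    ext i j
    have h6 := congrFun (congrFun h2 i) j
    simp only [Matrix.map_apply, Matrix.smul_apply, smul_eq_mul, map_mul] at h6 ⊢
    rw [h6]
    rfl
  rw [h2, h3, h4, h5] at h1
  exact h1

/-- `GS` is closed -/
theorem GS_closed (L : IntermediateField ℚ ℂ) (A : AbData g N) (c : GL (Ix g) ℂ) :
    ∃ SW : Set (MvPolynomial (VarT (Ix g)) ℂ),
      ∀ y, y ∈ GS L A c ↔ ∀ p ∈ SW, aeval (crdT y) p = 0 := by
  classical
  obtain ⟨SG, hSG⟩ := Tors.closedC_GdRB L c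
  let V := VarT (Ix g)
  let ψP : Matrix (Ix g) (Ix g) (MvPolynomial V ℂ) := (ps A).map C
  let s : MvPolynomial V ℂ := X (Sum.inr (Sum.inl ()))
  have eψ : ∀ y : GL (Ix g) ℂ × ℂˣ,
      ((EqGM.Am (Ix g))ᵀ * ψP * EqGM.Am (Ix g) - s • ψP).map (aeval (R := ℂ) (crdT y)) =
        y.1.1ᵀ * ps A * y.1.1 - (y.2 : ℂ) • ps A := by
    intro y
    have eA : (EqGM.Am (Ix g)).map (aeval (R := ℂ) (crdT y)) = y.1.1 := by
      ext i j
      exact aeval_X _ _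
    have eC : ψP.map (aeval (R := ℂ) (crdT y)) = ps A := by
      ext i j
      simp [ψP]
    rw [Matrix.map_sub (aeval (crdT y) : MvPolynomial V ℂ →ₐ[ℂ] ℂ) (fun a b => map_sub _ a b),
      Matrix.map_mul, Matrix.map_mul, eC]
    have h1 : ((EqGM.Am (Ix g))ᵀ).map (aeval (R := ℂ) (crdT y)) = y.1.1ᵀ := by
      rw [Matrix.transpose_map, eA]
    have h2 : (s • ψP).map (aeval (R := ℂ) (crdT y)) = (y.2 : ℂ) • ps A := by
      ext i j
      simp only [ψP, s, Matrix.map_apply, Matrix.smul_apply, smul_eq_mul, map_mul, aeval_X,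
        aeval_C]
      rfl
    rw [h1, h2, eA]
  refine ⟨{p | (∃ q ∈ SG, p = rename (fun e => Sum.inl (Sum.inl e)) q) ∨
    ∃ i j, p = ((EqGM.Am (Ix g))ᵀ * ψP * EqGM.Am (Ix g) - s • ψP) i j}, fun y => ⟨?_, ?_⟩⟩
  · rintro ⟨h1, h2⟩ p (⟨q, hq, rfl⟩ | ⟨i, j, rfl⟩)
    · rw [aeval_rename]
      have h1 : y.1 ∈ Tors.GdRB L c := h1
      rw [hSG] at h1
      exact h1 q hq
    · have h3 := eψ y
      rw [h2, sub_self] at h3
      exact congrFun (congrFun h3 i) j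
  · intro h
    constructor
    · change y.1 ∈ Tors.GdRB L c
      rw [hSG]
      intro q hq
      have h1 := h _ (Or.inl ⟨q, hq, rfl⟩)
      rw [aeval_rename] at h1
      exact h1
    · have h1 := eψ y
      have h2 : ((EqGM.Am (Ix g))ᵀ * ψP * EqGM.Am (Ix g) - s • ψP).map
          (aeval (R := ℂ) (crdT y)) = 0 := by
        ext i j
        exact h _ (Or.inr ⟨i, j, rfl⟩)
      rw [h2] at h1
      exact (sub_eq_zero.1 h1.symm)

/-- A point of the torsor of `h^1(A)` has a multiplier. -/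
theorem exists_mult (hg : 0 < g) {L : IntermediateField ℚ ℂ} {ψdR : Matrix (Ix g) (Ix g) L}
    (hpol : Polarised 1 c ψdR A.psi) {f : GL (Ix g) ℂ} (hf : f ∈ OmegaDRB L c) :
    ∃ μ : ℂ, Mult f ψdR A.psi μ ∧ ∃ z : ℂˣ, (z : ℂ) = μ / (2 * Real.pi * Complex.I) ∧
      (f * c⁻¹, z) ∈ GS L A c := by
  have htpi : (2 * Real.pi * Complex.I : ℂ) ≠ 0 := Complex.two_pi_I_ne_zero
  have hcc : c.1 * c⁻¹.1 = 1 := c.mul_inv
  have hcc' : c⁻¹.1 * c.1 = 1 := c.inv_mul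
  have hm : c.1ᵀ * A.psi.map (fun x => (x : ℂ)) * c.1 =
      (2 * Real.pi * Complex.I : ℂ) • ψdR.map (fun x => (x : ℂ)) := by
    have h := hpol.2
    rw [Mult, zpow_one] at h
    exact h
  have hfix : Fixes c (GL2.polPair ψdR A.psi) :=
    GL2.fixes_of_sim hpol.1 (GL2T.mult_iff.1 hpol.2) (zpow_ne_zero _ Complex.two_pi_I_ne_zero)
  have hff : Fixes f (GL2.polPair ψdR A.psi) :=
    drb_subset (S := {GL2.polPair ψdR A.psi}) (fun α hα => by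
      rw [Set.mem_singleton_iff.1 hα]; exact hfix) hf _ rfl
  obtain ⟨μ, hμ⟩ := GL2.sim_of_fixes hpol.1 hff
  have hμ' : Mult f ψdR A.psi μ := GL2T.mult_iff.2 hμ
  have hμ'' : f.1ᵀ * A.psi.map (fun x => (x : ℂ)) * f.1 =
      μ • ψdR.map (fun x => (x : ℂ)) := hμ'
  have key : (f * c⁻¹).1ᵀ * A.psi.map (fun x => (x : ℂ)) * (f * c⁻¹).1 =
      (μ / (2 * Real.pi * Complex.I)) • A.psi.map (fun x => (x : ℂ)) := by
    have h1 : ψdR.map (fun x => (x : ℂ)) =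
        (2 * Real.pi * Complex.I)⁻¹ • (c.1ᵀ * A.psi.map (fun x => (x : ℂ)) * c.1) := by
      rw [hm, smul_smul, inv_mul_cancel₀ htpi, one_smul]
    have h2 : c⁻¹.1ᵀ * c.1ᵀ = 1 := by rw [← Matrix.transpose_mul, hcc, Matrix.transpose_one]
    calc (f * c⁻¹).1ᵀ * A.psi.map (fun x => (x : ℂ)) * (f * c⁻¹).1
        = c⁻¹.1ᵀ * (f.1ᵀ * A.psi.map (fun x => (x : ℂ)) * f.1) * c⁻¹.1 := by
          rw [Units.val_mul, Matrix.transpose_mul]
          simp only [Matrix.mul_assoc]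
      _ = (μ / (2 * Real.pi * Complex.I)) •
          ((c⁻¹.1ᵀ * c.1ᵀ) * A.psi.map (fun x => (x : ℂ)) * (c.1 * c⁻¹.1)) := by
          rw [hμ'', h1, smul_smul, Matrix.mul_smul, Matrix.smul_mul, div_eq_mul_inv]
          simp only [Matrix.mul_assoc]
      _ = _ := by rw [h2, hcc, Matrix.one_mul, Matrix.mul_one]
  have hne : μ / (2 * Real.pi * Complex.I) ≠ 0 := by
    intro h0
    rw [h0, zero_smul] at key
    have : Nonempty (Ix g) := ⟨Sum.inl ⟨0, hg⟩⟩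
    have h1 := congrArg Matrix.det key
    rw [Matrix.det_mul, Matrix.det_mul, Matrix.det_transpose, Matrix.det_zero] at h1
    have h2 : (f * c⁻¹).1.det ≠ 0 :=
      ((Matrix.isUnit_iff_isUnit_det _).1 (f * c⁻¹).isUnit).ne_zero
    have h3 : (A.psi.map (fun x => (x : ℂ))).det ≠ 0 := by
      have h4 : A.psi.map (fun x => (x : ℂ)) = A.psi.map (algebraMap ℚ ℂ) := by
        ext i j
        simp
      rw [h4, ← RingHom.mapMatrix_apply, ← RingHom.map_det]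
      exact fun h5 => hpol.1 ((map_eq_zero (algebraMap ℚ ℂ)).1 h5)
    exact mul_ne_zero (mul_ne_zero h2 h3) h2 h1
  refine ⟨μ, hμ', Units.mk0 _ hne, rfl, ?_, key⟩
  rw [Tors.mem_OmegaDRB_iff] at hf
  exact hf

/-- how the automorphisms over `L` move the period point -/
theorem GS_tw_c (hg : 0 < g) {L : IntermediateField ℚ ℂ} {ψdR : Matrix (Ix g) (Ix g) L}
    (hpol : Polarised 1 c ψdR A.psi) (τ : ℂ ≃+* ℂ) (hτ : FixesField L τ) :
    tw2 τ (c, tpi) * (c, tpi)⁻¹ ∈ GS L A c := by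
  have h1 : Tors.tw τ c ∈ OmegaDRB L c := Tors.OmegaDRB_tw hτ (Tors.mem_OmegaDRB_self _ _)
  obtain ⟨μ, hμ, z, hz, h2⟩ := exists_mult hg hpol h1
  have hμ1 : Mult (Tors.tw τ c) ψdR A.psi (τ (2 * Real.pi * Complex.I)) := by
    have h := GL2.tw_sim hτ (GL2T.mult_iff.1 hpol.2)
    rw [zpow_one] at h
    exact GL2T.mult_iff.2 h
  have hdR : ψdR.map (fun x => (x : ℂ)) ≠ 0 := by
    intro h0
    have hm : c.1ᵀ * ps A * c.1 = (2 * Real.pi * Complex.I : ℂ) • ψdR.map (fun x => (x : ℂ)) := by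
      have h := hpol.2
      rw [Mult, zpow_one] at h
      exact h
    rw [h0, smul_zero] at hm
    apply ps_ne hg hpol.1
    have hcc : c.1 * c⁻¹.1 = 1 := c.mul_inv
    have hcc' : c⁻¹.1ᵀ * c.1ᵀ = 1 := by rw [← Matrix.transpose_mul, hcc, Matrix.transpose_one]
    calc ps A = (c⁻¹.1ᵀ * c.1ᵀ) * ps A * (c.1 * c⁻¹.1) := by
          rw [hcc, hcc', Matrix.one_mul, Matrix.mul_one]
      _ = c⁻¹.1ᵀ * (c.1ᵀ * ps A * c.1) * c⁻¹.1 := by simp only [Matrix.mul_assoc]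
      _ = 0 := by rw [hm, Matrix.mul_zero, Matrix.zero_mul]
  have hμ2 : μ = τ (2 * Real.pi * Complex.I) := by
    have e1 : (Tors.tw τ c).1ᵀ * A.psi.map (fun x => (x : ℂ)) * (Tors.tw τ c).1 =
      μ • ψdR.map (fun x => (x : ℂ)) := hμ
    have e2 : (Tors.tw τ c).1ᵀ * A.psi.map (fun x => (x : ℂ)) * (Tors.tw τ c).1 =
      τ (2 * Real.pi * Complex.I) • ψdR.map (fun x => (x : ℂ)) := hμ1
    rw [e1] at e2
    exact smul_inj hdR e2
  have h3 : tw2 τ (c, tpi) * (c, tpi)⁻¹ = (Tors.tw τ c * c⁻¹, z) := by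
    refine Prod.ext rfl (Units.ext ?_)
    change τ (2 * Real.pi * Complex.I) * (2 * Real.pi * Complex.I)⁻¹ = (z : ℂ)
    rw [hz, hμ2, div_eq_mul_inv]
  rw [h3]
  exact h2

/-- `Ω^dRB` of `h^1(A)` is contained in the union of the conjugates of `MT c`, if the centre is
separated. -/
theorem drb_sub (hg : 0 < g) {L F : IntermediateField ℚ ℂ} (hL : L ≤ Qbar) (hA : A.IsAbVar L)
    (hc : c.1 = A.per) (hGL : GL2Like c.1 A.psi) (hsep : SepOver F c.1 A.psi) {f : GL (Ix g) ℂ}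
    (hf : f ∈ OmegaDRB L c) : ∃ y ∈ MT A c, Conj L (y.1 * c) f := by
  obtain ⟨ψdR, hpol⟩ := U.specLEG L g N A c hL hA hc
  have hE : endTensors L c ⊆ {α : TPair L (Ix g) | Fixes c α} := fun α hα => hα.1
  have hfS : f ∈ OmegaS {α : TPair L (Ix g) | Fixes c α} := drb_subset (fun α hα => hα) hf
  obtain ⟨f', hff', hf'⟩ := specART L c hL (gal' L g N A c hL hA hc) _ hE f hfS
  obtain ⟨τ, hτ, e⟩ := GL2T.conj_iff.1 hff'
  obtain ⟨μ, hμ, -⟩ := exists_mult hg hpol hf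
  have hμ' : Mult f' ψdR A.psi (τ μ) := by
    rw [GL2T.mult_iff, e]
    exact GL2.tw_sim hτ (GL2T.mult_iff.1 hμ)
  obtain ⟨y, hy, hyf⟩ := MainTM.lefG_of hg hpol hf' hμ'
  refine ⟨y, LefM.mt_of_lef hL hA hc hGL hsep hy.1 hy.2, ?_⟩
  rw [← hyf]
  exact TorsM.conj_symm hff'

end LefEqM

open EqM EqGM LefEqM in
/-- The exact equality for motives of Lefschetz type. -/
theorem lef_eq {g N k : ℕ} (hg : 0 < g) {A : AbData g N} {L F : IntermediateField ℚ ℂ}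
    (hL : L ≤ Qbar) (hA : A.IsAbVar L) {c : GL (Ix g) ℂ}
    (hc : c.1 = A.per) (hGL : GL2Like c.1 A.psi) (hsep : SepOver F c.1 A.psi)
    {r : GL (Fin k) ℂ} (hr : ∀ i j, r.1 i j ∈ L) {κ ι : Type} [Fintype κ] [DecidableEq κ]
    [Fintype ι] [DecidableEq ι] {T : GL (Ix g ⊕ Fin k) ℂ × ℂˣ → GL κ ℂ} (hT : IsRep T)
    {n : GL ι ℂ} {iB : Matrix κ ι ℚ} (hn : IsSubOver L (T (dsum c r, tpi)) n iB)
    (hstab : ∀ y ∈ MT A c, ∃ f : GL ι ℂ, (T (dsum y.1 1, y.2)).1 * iB.map (fun x => (x : ℂ)) =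
      iB.map (fun x => (x : ℂ)) * f.1) {h : GL ι ℂ} (hh : h ∈ OmegaDRB L n) :
    ∃ f ∈ MTSub A c T iB, Conj L (f * n) h := by
  obtain ⟨ψdR, hpol⟩ := U.specLEG L g N A c hL hA hc
  obtain ⟨SW, hSW⟩ := GS_closed L A c
  have hn' := EqGM.isSub_inc hT hr hn
  have hT' := EqGM.isRep_inc hT
  obtain ⟨pB, hpB⟩ := hn.inj
  have hpBC := EqGM.left_inv hpB
  obtain ⟨idR, hdR⟩ := hn'.dR
  have hdR' : (T (dsum c 1, tpi)).1 * idR.map (fun x => (x : ℂ)) =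
      iB.map (fun x => (x : ℂ)) * n.1 := hdR
  -- the points of `GS`
  have hGS : ∀ y ∈ GS L A c, ∃ y' ∈ MT A c, ∃ τ : ℂ ≃+* ℂ, FixesField L τ ∧
      y * (c, tpi) = tw2 τ (y' * (c, tpi)) := by
    intro y hy
    have h1 : y.1 * c ∈ OmegaDRB L c := by
      rw [Tors.mem_OmegaDRB_iff, mul_inv_cancel_right]
      exact hy.1
    obtain ⟨y', hy', hc'⟩ := drb_sub hg hL hA hc hGL hsep h1
    obtain ⟨τ, hτ, e⟩ := GL2T.conj_iff.1 hc'
    refine ⟨y', hy', τ, hτ, Prod.ext e (Units.ext ?_)⟩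
    -- the multiplier
    have hm : c.1ᵀ * ps A * c.1 =
        (2 * Real.pi * Complex.I : ℂ) • ψdR.map (fun x => (x : ℂ)) := by
      have h := hpol.2
      rw [Mult, zpow_one] at h
      exact h
    have hdR : ψdR.map (fun x => (x : ℂ)) ≠ 0 := by
      intro h0
      rw [h0, smul_zero] at hm
      apply ps_ne hg hpol.1
      have hcc : c.1 * c⁻¹.1 = 1 := c.mul_inv
      have hcc' : c⁻¹.1ᵀ * c.1ᵀ = 1 := by rw [← Matrix.transpose_mul, hcc, Matrix.transpose_one]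
      calc ps A = (c⁻¹.1ᵀ * c.1ᵀ) * ps A * (c.1 * c⁻¹.1) := by
            rw [hcc, hcc', Matrix.one_mul, Matrix.mul_one]
        _ = c⁻¹.1ᵀ * (c.1ᵀ * ps A * c.1) * c⁻¹.1 := by simp only [Matrix.mul_assoc]
        _ = 0 := by rw [hm, Matrix.mul_zero, Matrix.zero_mul]
    have mul : ∀ z : GL (Ix g) ℂ × ℂˣ, z.1.1ᵀ * ps A * z.1.1 = (z.2 : ℂ) • ps A →
        Mult (z.1 * c) ψdR A.psi ((z.2 : ℂ) * (2 * Real.pi * Complex.I)) := by
      intro z hz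
      change (z.1 * c).1ᵀ * ps A * (z.1 * c).1 = _
      calc (z.1 * c).1ᵀ * ps A * (z.1 * c).1 = c.1ᵀ * (z.1.1ᵀ * ps A * z.1.1) * c.1 := by
            rw [Units.val_mul, Matrix.transpose_mul]
            simp only [Matrix.mul_assoc]
        _ = c.1ᵀ * ((z.2 : ℂ) • ps A) * c.1 := by rw [hz]
        _ = (z.2 : ℂ) • (c.1ᵀ * ps A * c.1) := by rw [Matrix.mul_smul, Matrix.smul_mul]
        _ = _ := by rw [hm, smul_smul]
    have m1 := mul y hy.2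
    have m2 : Mult (y.1 * c) ψdR A.psi (τ ((y'.2 : ℂ) * (2 * Real.pi * Complex.I))) := by
      rw [e]
      exact GL2T.mult_iff.2 (GL2.tw_sim hτ (GL2T.mult_iff.1 (mul y' hy'.2.1)))
    have e1 : (y.1 * c).1ᵀ * A.psi.map (fun x => (x : ℂ)) * (y.1 * c).1 =
      ((y.2 : ℂ) * (2 * Real.pi * Complex.I)) • ψdR.map (fun x => (x : ℂ)) := m1
    have e2 : (y.1 * c).1ᵀ * A.psi.map (fun x => (x : ℂ)) * (y.1 * c).1 =
      (τ ((y'.2 : ℂ) * (2 * Real.pi * Complex.I))) • ψdR.map (fun x => (x : ℂ)) := m2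
    rw [e1] at e2
    exact smul_inj hdR e2
  -- the points of `GS` in the representation
  have key : ∀ y ∈ GS L A c, ∃ f' ∈ MTSub A c T iB, ∃ τ : ℂ ≃+* ℂ, FixesField L τ ∧
      (T (dsum y.1 1, y.2)).1 * iB.map (fun x => (x : ℂ)) =
        iB.map (fun x => (x : ℂ)) * (Tors.tw τ (f' * n) * n⁻¹).1 := by
    intro y hy
    obtain ⟨y', hy', τ, hτ, e⟩ := hGS y hy
    obtain ⟨f', hf'⟩ := hstab y' hy'
    refine ⟨f', ⟨y', hy', hf'⟩, τ, hτ, ?_⟩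
    -- `T(y) iB n = τ (iB f' n)`
    have h1 : T (dsum y.1 1, y.2) * T (dsum c 1, tpi) =
        Tors.tw τ (T (dsum y'.1 1, y'.2) * T (dsum c 1, tpi)) := by
      have a1 : T (dsum y.1 1, y.2) * T (dsum c 1, tpi) =
          (fun y : GL (Ix g) ℂ × ℂˣ => T (dsum y.1 1, y.2)) (y * (c, tpi)) :=
        (hT'.mul y (c, tpi)).symm
      have a2 : T (dsum y'.1 1, y'.2) * T (dsum c 1, tpi) =
          (fun y : GL (Ix g) ℂ × ℂˣ => T (dsum y.1 1, y.2)) (y' * (c, tpi)) :=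
        (hT'.mul y' (c, tpi)).symm
      rw [a1, a2, e]
      exact (T_tw hT' τ _).symm
    have e2 : (idR.map (fun x => (x : ℂ))).map (τ : ℂ →+* ℂ) = idR.map (fun x => (x : ℂ)) := by
      ext i j
      exact hτ _ (idR i j).2
    have h2 : (T (dsum y.1 1, y.2)).1 * (iB.map (fun x => (x : ℂ)) * n.1) =
        iB.map (fun x => (x : ℂ)) * (Tors.tw τ (f' * n)).1 := by
      rw [← hdR', ← Matrix.mul_assoc]
      have h3 : (T (dsum y.1 1, y.2)).1 * (T (dsum c 1, tpi)).1 =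
          ((T (dsum y'.1 1, y'.2)).1 * (T (dsum c 1, tpi)).1).map (τ : ℂ →+* ℂ) :=
        congrArg Units.val h1
      rw [h3, ← e2, ← Matrix.map_mul, Matrix.mul_assoc, hdR', ← Matrix.mul_assoc, hf',
        Matrix.mul_assoc, Matrix.map_mul, EqGM.mapQ_tw]
      rfl
    have hnn : n.1 * n⁻¹.1 = 1 := n.mul_inv
    calc (T (dsum y.1 1, y.2)).1 * iB.map (fun x => (x : ℂ)) =
        (T (dsum y.1 1, y.2)).1 * (iB.map (fun x => (x : ℂ)) * n.1) * n⁻¹.1 := by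
          rw [Matrix.mul_assoc, Matrix.mul_assoc, hnn, Matrix.mul_one]
      _ = _ := by
          rw [h2, Matrix.mul_assoc]
          rfl
  obtain ⟨f, ⟨y, hy, hf⟩, rfl⟩ := EqGM.eqg hSW (fun τ y hy => GS_tw L τ y hy) hT'
    (fun τ hτ => GS_tw_c hg hpol τ hτ) hn' (fun y hy => by
      obtain ⟨f', -, τ, -, h1⟩ := key y hy
      exact ⟨_, h1⟩) hh
  obtain ⟨f', hf', τ, hτ, h1⟩ := key y hy
  refine ⟨f', hf', GL2T.conj_iff.2 ⟨τ, hτ, ?_⟩⟩
  have h2 : f = Tors.tw τ (f' * n) * n⁻¹ := by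
    apply Units.ext
    have hf2 : (T (dsum y.1 1, y.2)).1 * iB.map (fun x => (x : ℂ)) =
      iB.map (fun x => (x : ℂ)) * f.1 := hf
    rw [hf2] at h1
    have h3 := congrArg (fun X => pB.map (fun x => (x : ℂ)) * X) h1
    beta_reduce at h3
    rw [← Matrix.mul_assoc, hpBC, Matrix.one_mul, ← Matrix.mul_assoc, hpBC, Matrix.one_mul] at h3
    exact h3
  rw [h2, inv_mul_cancel_right]

end Pool.Agent.Lib.MPf11a48.SH
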