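import Pool.Agent.Lib.MP_f11a48_ag.SH.FA.Final
import Pool.Agent.Lib.MP_f11a48_ag.SH.EEnd
import Pool.Agent.Lib.MP_f11a48_ag.SH.EX
import Pool.Agent.Lib.MP_f11a48_ag.SH.B.CocMain
import Pool.Agent.Lib.MP_f11a48_ag.SH.B.Den
import Pool.Agent.Lib.MP_f11a48_ag.SH.TRF.Sie
import Pool.Agent.Lib.MP_f11a48_ag.SH.TRF.Main
import Pool.Agent.Lib.MP_f11a48_ag.SH.TRF.Ana
import Pool.Agent.Lib.MP_f11a48_ag.SH.TRF.Nrm
import Pool.Agent.Lib.MP_f11a48_ag.SH.NDG
import Pool.Agent.Lib.MP_f11a48_ag.SH.VAL.Main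
import Pool.Agent.Lib.MP_f11a48_ag.SH.RED.Rel4
import Pool.Agent.Lib.MP_f11a48_ag.SH.CLS.Hod

/-!
# MP_f11a48_ag, PROJECT S0: Shimura's period relations, all Hodge relations
-/

set_option autoImplicit false

namespace Pool.Agent.Lib.MPf11a48.SH

theorem all_trf : SpecTRF := specTRF

theorem all_face : SpecFACE :=
  face_of specCOC specDEN (specANA specSIE) all_trf (specNDG specSIE) (specVAL specSIE specEP)

theorem all_rel : SpecREL := specREL all_face EX.specEX

/-- The monomials in the periods of an abelian variety (with all CM types of `E`) given by the Hodge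
relations are algebraic. -/
theorem all_hod : SpecHOD := specHOD all_rel specLEG

theorem target_clse (h : SpecCLSE) : TARGET := target_of specPER all_hod h

end Pool.Agent.Lib.MPf11a48.SH
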