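import Pool.Agent.Lib.MP_f11a48_ag.SH.RED.TanNe
import Pool.Agent.Lib.MP_f11a48_ag.SH.CLS.Thm
import Pool.Agent.Lib.MP_f11a48_ag.AS.All

/-!
# MP_f11a48_ag, PROJECT S0: different embeddings of the centre have different CM types (helper4)
-/

set_option autoImplicit false

open Matrix
open Pool.Agent.Lib.MPf11a48.CM (Qbar)
open Pool.Agent.Lib.MPf11a48.GL2T
open Pool.Agent.Lib.MPf11a48.U
open Pool.Agent.Lib.MPf11a48.CMS

namespace Pool.Agent.Lib.MPf11a48.SH

namespace TypM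

open ClsM

variable {g N : ℕ} {A : AbData g N} {c : GL (Ix g) ℂ} {J : Matrix (Ix g) (Ix g) ℝ}

theorem I_ne : Complex.I ≠ -Complex.I := by
  intro h
  have h1 := congrArg Complex.im h
  simp at h1
  norm_num at h1

/-- the complex structure is in the commutant -/
theorem exists_J {L : IntermediateField ℚ ℂ} (hL : L ≤ Qbar) (hA : A.IsAbVar L) (hc : c.1 = A.per)
    (S : Str c A.psi) : ∃ (X : S.κ → Matrix (Fin 2) (Fin 2) ℂ) (Y : S.σ → ℂ),
      S.Ψ (X, Y) = (HDAM.JM A.lat hA.lat_indep).map (fun x => (x : ℂ)) := by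
  have hTP : SpecTP := by
    intro Z T Θ Λ _ _ _ _ D
    exact tp' specTL' D
  have hPROD : SpecPROD := by
    intro Z T Θ Λ Z' T' Θ' Λ' _ _ _ _ _ _ _ _ D D'
    exact specPROD D D'
  set J := HDAM.JM A.lat hA.lat_indep with hJ
  set JC : Matrix (Ix g) (Ix g) ℂ := J.map (fun x => (x : ℂ)) with hJC
  have hG := specGROW L g N A c hL hA hc
  have hmul : ∀ X Y : Matrix (Ix g) (Ix g) ℝ,
      (X * Y).map (fun x => (x : ℂ)) = X.map (fun x => (x : ℂ)) * Y.map (fun x => (x : ℂ)) :=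
    fun X Y => Matrix.map_mul (f := Complex.ofRealHom) (L := X) (M := Y)
  have hcomm : ∀ B ∈ EndAlg c.1, JC * mC B = mC B * JC := by
    intro B hB
    have h1 := HDAM.endo_comm hTP hPROD hG hA hc hB
    have h2 : (mR B).map (fun x => (x : ℂ)) = mC B := by
      ext i j
      simp [mR, mC]
    have h3 := congrArg (fun M : Matrix (Ix g) (Ix g) ℝ => M.map (fun x => (x : ℂ))) h1
    simp only [hmul, h2] at h3
    exact h3
  obtain ⟨⟨x, y⟩, hxy⟩ := (S.mem_range JC).2 hcomm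
  exact ⟨x, y, hxy⟩

/-- the eigenvalues of the complex structure -/
theorem eig_J {L : IntermediateField ℚ ℂ} (hA : A.IsAbVar L)
    (S : Str c A.psi) (hT : CMM.HalfSet A.psi (Tan A c.1))
    {X : S.κ → Matrix (Fin 2) (Fin 2) ℂ} {Y : S.σ → ℂ}
    (hXY : S.Ψ (X, Y) = (HDAM.JM A.lat hA.lat_indep).map (fun x => (x : ℂ))) {s : EmbC c.1}
    (hs : ¬ IsBar A.psi s s) :
    (s ∈ Tan A c.1 → uu S Y s = Complex.I) ∧ (s ∉ Tan A c.1 → uu S Y s = -Complex.I) := by
  set JC : Matrix (Ix g) (Ix g) ℂ := (HDAM.JM A.lat hA.lat_indep).map (fun x => (x : ℂ)) with hJC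
  have key : ∀ t : EmbC c.1, ¬ IsBar A.psi t t → t ∈ Tan A c.1 → uu S Y t = Complex.I := by
    intro t ht htT
    obtain ⟨v₀, hv₀, hne⟩ := htT
    have h1 := row S X Y ht hv₀
    rw [hXY] at h1
    have h3 : CMM.TanM.Lc A.lat (v₀ ᵥ* JC) = Complex.I • CMM.TanM.Lc A.lat v₀ :=
      CMM.TanM.Lc_J A.lat hA.lat_indep v₀
    rw [h1, CMM.TanM.Lc_smul] at h3
    exact smul_left_injective ℂ (show CMM.TanM.Lc A.lat v₀ ≠ 0 from hne) h3
  refine ⟨key s hs, fun hsT => ?_⟩
  obtain ⟨s', hss⟩ := hT.1 s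
  have hne : s ≠ s' := by
    rintro rfl
    exact hs hss
  have hs' : ¬ IsBar A.psi s' s' := by
    intro h
    exact hne (hT.2.1 s' s s' (hT.2.2.1 s s' hss) h)
  have hs'T : s' ∈ Tan A c.1 := (hT.2.2.2.2.2 s s' hss hne).2 hsT
  have h4 := key s' hs' hs'T
  obtain ⟨v, -, hv, i, hi⟩ := RedM.exists_vec S s
  have hv0 : v ≠ 0 := by
    rintro rfl
    rw [Matrix.zero_vecMul] at hi
    exact hi rfl
  set w : Ix g → ℂ := fun l => (starRingEnd ℂ) (v l) with hw
  have hwE : Eig s' w := by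
    intro z
    have h5 := hv z
    funext b
    have h6 := congrArg (starRingEnd ℂ) (congrFun h5 b)
    simp only [Matrix.vecMul, dotProduct, map_sum, map_mul, Pi.smul_apply, smul_eq_mul,
      Matrix.map_apply] at h6 ⊢
    rw [hT.2.2.2.1 s s' z hss] at h6
    rw [← h6]
    refine Finset.sum_congr rfl fun a _ => ?_
    have h7 : (starRingEnd ℂ) ((z.1 a b : ℚ) : ℂ) = ((z.1 a b : ℚ) : ℂ) := by simp
    rw [h7]
  have h8 := row S X Y hs' hwE
  rw [hXY, h4] at h8
  have h9 : v ᵥ* JC = (-Complex.I) • v := by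
    funext b
    have h3 := congrArg (starRingEnd ℂ) (congrFun h8 b)
    simp only [Matrix.vecMul, dotProduct, map_sum, map_mul, Pi.smul_apply, smul_eq_mul,
      Complex.conj_I, hw, Complex.conj_conj] at h3
    simp only [Matrix.vecMul, dotProduct, Pi.smul_apply, smul_eq_mul]
    rw [← h3]
    refine Finset.sum_congr rfl fun a _ => ?_
    rw [hJC, Matrix.map_apply, Complex.conj_ofReal]
  have h10 := row S X Y hs hv
  rw [hXY, h9] at h10
  exact (smul_left_injective ℂ hv0 h10).symm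

/-- the matrix of the traces -/
noncomputable def trm {E : Sub} (a b : Ix g → E) (lam : E) : Matrix (Ix g) (Ix g) ℚ :=
  fun i j => Algebra.trace ℚ E (lam * (a i * b j))

theorem trm_eq {E : Sub} [FiniteDimensional ℚ E] (G : (E →ₐ[ℚ] Qbar) → GalQ)
    (hG : ∀ φ (x : E), ap (G φ) (x : Qbar) = φ x) (a b : Ix g → E) (lam : E) :
    mC (trm a b lam) = ∑ φ : E →ₐ[ℚ] Qbar, tht E (G φ) lam •
      Matrix.vecMulVec (fun i => tht E (G φ) (a i)) (fun j => tht E (G φ) (b j)) := by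
  ext i j
  rw [Matrix.sum_apply]
  change ((Algebra.trace ℚ E (lam * (a i * b j)) : ℚ) : ℂ) = _
  rw [trace_eq E G hG]
  refine Finset.sum_congr rfl fun φ _ => ?_
  rw [Matrix.smul_apply, Matrix.vecMulVec_apply, smul_eq_mul, map_mul, map_mul]

theorem vec_eq {E : Sub} [FiniteDimensional ℚ E] (a b : Ix g → E) :
    ∃ (k : ℕ) (lam : Fin k → E) (e : Fin k → ℂ),
      Matrix.vecMulVec (fun i => tht E 1 (a i)) (fun j => tht E 1 (b j)) =
        ∑ i, e i • mC (trm a b (lam i)) := by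
  classical
  let bb := Module.finBasis ℚ E
  refine ⟨_, fun i => bb i, fun i => tht E 1 (bb.traceDual i), ?_⟩
  ext i j
  have h1 := (bb.traceDual).sum_repr (a i * b j)
  have h2 := congrArg (tht E 1) h1
  rw [map_sum] at h2
  rw [Matrix.vecMulVec_apply, ← map_mul, ← h2, Matrix.sum_apply]
  refine Finset.sum_congr rfl fun k _ => ?_
  rw [Module.Basis.traceDual_repr_apply, Matrix.smul_apply, smul_eq_mul, Algebra.smul_def,
    map_mul, tht_rat, Algebra.traceForm_apply, mul_comm, mul_comm (a i * b j) (bb k)]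
  rfl

/-- Two embeddings which are not real with the same type are equal. -/
theorem types_inj {L : IntermediateField ℚ ℂ} (hL : L ≤ Qbar) (hA : A.IsAbVar L)
    (hc : c.1 = A.per) (hGL : GL2Like c.1 A.psi) {s t : EmbC c.1} (hs : ¬ IsBar A.psi s s)
    (ht : ¬ IsBar A.psi t t)
    (h : ∀ γ : GalQ, CMS.act γ s ∈ Tan A c.1 ↔ CMS.act γ t ∈ Tan A c.1) : s = t := by
  classical
  obtain ⟨⟨J', hJ''⟩, -⟩ := hda' specTL' L g N A c hL hA hc
  have hJ' : HD c J' A.psi := hJ''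
  obtain ⟨S⟩ : Nonempty (Str c A.psi) := CMM.str' c J' _ hJ' hGL
  have hT : CMM.HalfSet A.psi (Tan A c.1) := CMM.tan' L g N A c hL hA hc hGL
  obtain ⟨X, Y, hXY⟩ := exists_J hL hA hc S
  set JR := HDAM.JM A.lat hA.lat_indep with hJR
  set JC : Matrix (Ix g) (Ix g) ℂ := JR.map (fun x => (x : ℂ)) with hJC
  obtain ⟨s', hss⟩ := hT.1 s
  -- eigenvectors over a number field
  obtain ⟨v₀, hva, hve, i₀, hi₀⟩ := RedM.exists_vec S s'
  obtain ⟨w₀, hwa, hwe, j₀, hj₀⟩ := RedM.exists_vec S t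
  obtain ⟨E, hE, hvE⟩ := exists_field fun (x : Bool) i =>
    (if x then ⟨v₀ i, hva i⟩ else ⟨w₀ i, hwa i⟩ : Qbar)
  set v : Ix g → E := fun i => ⟨⟨v₀ i, hva i⟩, hvE true i⟩ with hvd
  set b : Ix g → E := fun i => ⟨⟨w₀ i, hwa i⟩, hvE false i⟩ with hbd
  set a : Ix g → E := fun i => ∑ k, algebraMap ℚ E (A.psi⁻¹ i k) * v k with had
  have hvv : Eig s' (fun i => ((v i : Qbar) : ℂ)) := hve
  have hbb : Eig t (fun i => ((b i : Qbar) : ℂ)) := hwe
  have hath : ∀ γ, (fun i => tht E γ (a i)) = mC A.psi⁻¹ *ᵥ fun k => tht E γ (v k) := by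
    intro γ
    funext i
    rw [had]
    rw [map_sum]
    refine Finset.sum_congr rfl fun k _ => ?_
    rw [map_mul, tht_rat]
    rfl
  -- the commutation with the complex structure
  have hcomm : ∀ γ : GalQ, JC * Matrix.vecMulVec (fun i => tht E γ (a i)) (fun j => tht E γ (b j)) =
      Matrix.vecMulVec (fun i => tht E γ (a i)) (fun j => tht E γ (b j)) * JC := by
    intro γ
    have hs1 : ¬ IsBar A.psi (CMS.act γ s) (CMS.act γ s) := SH.A.RelM.nr_act hT γ hs
    have ht1 : ¬ IsBar A.psi (CMS.act γ t) (CMS.act γ t) := SH.A.RelM.nr_act hT γ ht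
    have h1 := col hJ' S X Y hs1 (hT.2.2.2.2.1 γ _ _ hss) (eig_act γ (v := fun i => (v i : Qbar)) hvv)
    have h2 := row S X Y ht1 (eig_act γ (v := fun i => (b i : Qbar)) hbb)
    rw [hXY] at h1 h2
    have h1' : JC *ᵥ (fun i => tht E γ (a i)) = uu S Y (CMS.act γ s) • fun i => tht E γ (a i) := by
      rw [hath]
      exact h1
    have h2' : (fun j => tht E γ (b j)) ᵥ* JC = uu S Y (CMS.act γ t) • fun j => tht E γ (b j) := h2
    have e : uu S Y (CMS.act γ s) = uu S Y (CMS.act γ t) := by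
      by_cases hh : CMS.act γ s ∈ Tan A c.1
      · rw [(eig_J hA S hT hXY hs1).1 hh, (eig_J hA S hT hXY ht1).1 ((h γ).1 hh)]
      · rw [(eig_J hA S hT hXY hs1).2 hh, (eig_J hA S hT hXY ht1).2 fun h3 => hh ((h γ).2 h3)]
    rw [Matrix.mul_vecMulVec, Matrix.vecMulVec_mul, h1', h2', Matrix.smul_vecMulVec,
      Matrix.vecMulVec_smul, e]
  choose G hG₀ using fun φ : E →ₐ[ℚ] Qbar => CMS.j_surjective E φ
  have hG : ∀ φ (x : E), ap (G φ) (x : Qbar) = φ x := by
    intro φ x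
    rw [← CMS.j_apply, hG₀]
  have hPJ : ∀ lam : E, JC * mC (trm a b lam) = mC (trm a b lam) * JC := by
    intro lam
    rw [trm_eq G hG, Finset.mul_sum, Finset.sum_mul]
    refine Finset.sum_congr rfl fun φ _ => ?_
    rw [Matrix.mul_smul, Matrix.smul_mul, hcomm]
  have hP : ∀ lam : E, trm a b lam ∈ EndAlg c.1 := by
    intro lam
    refine AS.AllM.end' L g N A c hL hA hc _ (HDAM.isEndo_of_comm hA ?_)
    have hmul : ∀ X Y : Matrix (Ix g) (Ix g) ℝ,
        (X * Y).map (fun x => (x : ℂ)) = X.map (fun x => (x : ℂ)) * Y.map (fun x => (x : ℂ)) :=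
      fun X Y => Matrix.map_mul (f := Complex.ofRealHom) (L := X) (M := Y)
    have h2 : (mR (trm a b lam)).map (fun x => (x : ℂ)) = mC (trm a b lam) := by
      ext i j
      simp [mR, mC]
    have h3 : (JR * mR (trm a b lam)).map (fun x => (x : ℂ)) =
        (mR (trm a b lam) * JR).map (fun x => (x : ℂ)) := by
      rw [hmul, hmul, h2]
      exact hPJ lam
    ext i j
    have h4 := congrFun (congrFun h3 i) j
    exact Complex.ofReal_injective h4
  -- the centre commutes with `P`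
  refine AlgHom.ext fun z => Subtype.ext ?_
  obtain ⟨k, lam, e, hV⟩ := vec_eq a b
  have hz : mC z.1 * Matrix.vecMulVec (fun i => tht E 1 (a i)) (fun j => tht E 1 (b j)) =
      Matrix.vecMulVec (fun i => tht E 1 (a i)) (fun j => tht E 1 (b j)) * mC z.1 := by
    rw [hV, Finset.mul_sum, Finset.sum_mul]
    refine Finset.sum_congr rfl fun i _ => ?_
    rw [Matrix.mul_smul, Matrix.smul_mul]
    congr 1
    have h5 : trm a b (lam i) * z.1 = z.1 * trm a b (lam i) :=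
      Subalgebra.mem_centralizer_iff ℚ |>.1 z.2.1 _ (hP (lam i))
    rw [← BicM.mC_mul, ← BicM.mC_mul, h5]
  have hcol : mC z.1 *ᵥ (fun i => tht E 1 (a i)) = ((s z : Qbar) : ℂ) • fun i => tht E 1 (a i) := by
    have h6 := col hJ' S (fun k => ((S.ev (Sum.inl k) z : Qbar) : ℂ) • (1 : Matrix (Fin 2) (Fin 2) ℂ))
      (fun j => ((S.ev (Sum.inr j) z : Qbar) : ℂ)) hs hss hvv
    rw [← S.ev_spec z] at h6
    obtain ⟨j, hj⟩ := RedM.exists_j S hs
    rw [← hj, uu_inr] at h6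
    rw [hath, ← hj]
    exact h6
  have hrow : (fun j => tht E 1 (b j)) ᵥ* mC z.1 = ((t z : Qbar) : ℂ) • fun j => tht E 1 (b j) :=
    hbb z
  rw [Matrix.mul_vecMulVec, Matrix.vecMulVec_mul, hcol, hrow, Matrix.smul_vecMulVec,
      Matrix.vecMulVec_smul] at hz
  -- the matrix is not zero
  have hv0 : v₀ ≠ 0 := by
    rintro rfl
    rw [Matrix.zero_vecMul] at hi₀
    exact hi₀ rfl
  have hw0 : w₀ ≠ 0 := by
    rintro rfl
    rw [Matrix.zero_vecMul] at hj₀
    exact hj₀ rfl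
  have ha1 : (fun i => tht E 1 (a i)) = mC A.psi⁻¹ *ᵥ v₀ := hath 1
  have ha0 : (fun i => tht E 1 (a i)) ≠ 0 := by
    intro h0
    rw [ha1] at h0
    have h7 := congrArg (fun w => mC A.psi *ᵥ w) h0
    simp only [Matrix.mulVec_mulVec, Matrix.mulVec_zero] at h7
    rw [BicM.mC_mul_inv hJ'.det, Matrix.one_mulVec] at h7
    exact hv0 h7
  obtain ⟨i, hi⟩ := Function.ne_iff.1 ha0
  obtain ⟨j, hj⟩ := Function.ne_iff.1 hw0
  have h8 := congrFun (congrFun hz i) j
  rw [Matrix.smul_apply, Matrix.smul_apply, Matrix.vecMulVec_apply, smul_eq_mul, smul_eq_mul] at h8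
  have hb1 : tht E 1 (b j) = w₀ j := rfl
  rw [hb1] at h8
  exact mul_right_cancel₀ (mul_ne_zero hi hj) h8

end TypM

end Pool.Agent.Lib.MPf11a48.SH
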